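import Pool.Agent.H77.SL.Fin

/-!
# The correction of the slope of a line

`sl_phi`: the quotient of a star minus the slope of its second line is a function `Φ` of this line and
the coarse time, and the slope letter `c` of a sample is the slope of its line plus `Φ`.
-/

set_option autoImplicit false

namespace Pool.NA17

open Finset Real
open Pool.Agent.H49.Ent Pool.Agent.H32.Dense Pool.STK
open Pool.BFL (Pb)
open Pool.STB (Pb_mono Pb_or)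
open Pool.K2S (cpn)
open Pool.CLU (cpn_law cpn_pos cpn_marg)
open Pool.MIC (cpn_pair)
open Pool.SL77

section

variable {Ω Z R Λ C : Type} [Fintype Ω]

/-- **The correction of the slope.** -/
theorem sl_phi {p : Ω → ℝ} (hp : IsLaw p) (zp : Ω → Z) (zd : Ω → R) (l : Ω → Λ) (c0 : Ω → C)
    (a f c2 c : Ω → ℝ) (hdp : Det p zd zp)
    {g δ δ' θ nat η : ℝ} (hδ : 0 < δ) (hδ' : 0 < δ')
    (h1 : Pb (cpn (cpn p zp 1) (fun v => (l (v 1), c0 (v 1))) 1)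
      (fun W => ¬ |(qst a f (W 0 0) (W 0 1) - c2 (W 0 1)) -
        (qst a f (W 1 0) (W 1 1) - c2 (W 1 1))| ≤ g) ≤ η)
    (h2 : Pb (cpn p zp 1) (fun v => ¬ (δ ≤ θ * |f (v 0) - f (v 1)| ∧
      |f (v 0) - f (v 1)| ≤ θ * δ)) ≤ η)
    (h3 : Pb (cpn p zd 1) (fun v => ¬ (|a (v 1) - a (v 0) - c (v 0) * (f (v 1) - f (v 0))| ≤
      nat ∧ δ' ≤ |f (v 1) - f (v 0)|)) ≤ η) :
    ∃ Φ : Λ × C → ℝ,
      Pb (cpn p zp 1) (fun v => ¬ |(qst a f (v 0) (v 1) - c2 (v 1)) - Φ (l (v 1), c0 (v 1))| ≤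
        g) ≤ η ∧
      Pb p (fun ω => ¬ |(c ω - c2 ω) - Φ (l ω, c0 ω)| ≤
        (2 * g * (θ * δ) + nat) / δ' + g) ≤ 6 * η := by
  classical
  have hq := cpn_law hp zp 1
  have q0 := hq.nonneg
  have t0 := fun w => tri3_nonneg hp zd zp w
  have hsep : ∀ x y : Ω, δ ≤ θ * |f x - f y| → f x - f y ≠ 0 := by
    intro x y h hc
    rw [hc, abs_zero, mul_zero] at h
    linarith
  -- one quotient for each line
  have p1 := cpn_pair hq.nonneg (fun v : Fin 2 → Ω => (l (v 1), c0 (v 1))) 1 (i := 0) (i' := 1)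
    (by decide)
  have p2 := Pool.MIC.Marg.Pb_eq p1 (fun w : (Fin 2 → Ω) × (Fin 2 → Ω) =>
    ¬ |(qst a f (w.1 0) (w.1 1) - c2 (w.1 1)) - (qst a f (w.2 0) (w.2 1) - c2 (w.2 1))| ≤ g)
  obtain ⟨s, hs⟩ := pick_dbl hq (fun v : Fin 2 → Ω => (l (v 1), c0 (v 1)))
    (fun v v' => |(qst a f (v 0) (v 1) - c2 (v 1)) - (qst a f (v' 0) (v' 1) - c2 (v' 1))| ≤ g)
    (p2.symm.le.trans h1)
  obtain ⟨Φ, hΦ⟩ : ∃ Φ : Λ × C → ℝ, Φ = fun k => qst a f (s k 0) (s k 1) - c2 (s k 1) :=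
    ⟨_, rfl⟩
  have hs' : Pb (cpn p zp 1) (fun v => ¬ |(qst a f (v 0) (v 1) - c2 (v 1)) -
      Φ (l (v 1), c0 (v 1))| ≤ g) ≤ η := by
    rw [hΦ]
    exact hs
  -- transfer of the events of a star to the triple
  have hpr := cpn_pair hp.nonneg zp 1 (i := 0) (i' := 1) (by decide)
  have hpr' := cpn_pair hp.nonneg zp 1 (i := 1) (i' := 0) (by decide)
  have htr : ∀ (A : Ω × Ω → Prop) (i : Fin 2), Pb (tri3 p zd zp) (fun w => A (w.1 i, w.2)) =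
      Pb (cpn p zp 1) (fun v => A (v 0, v 1)) := fun A i => by
    rw [Pool.MIC.Marg.Pb_eq (tri3_marg hp zd zp hdp i) A,
      Pool.MIC.Marg.Pb_eq hpr A]
  have hΦe : ∀ i : Fin 2, Pb (tri3 p zd zp) (fun w =>
      ¬ |(qst a f (w.1 i) w.2 - c2 w.2) - Φ (l w.2, c0 w.2)| ≤ g) ≤ η := fun i => by
    have h := htr (fun x => ¬ |(qst a f x.1 x.2 - c2 x.2) - Φ (l x.2, c0 x.2)| ≤ g) i
    rw [h]
    exact hs'
  have hse : ∀ i : Fin 2, Pb (tri3 p zd zp) (fun w => ¬ (δ ≤ θ * |f (w.1 i) - f w.2| ∧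
      |f (w.1 i) - f w.2| ≤ θ * δ)) ≤ η := fun i => by
    have h := htr (fun x => ¬ (δ ≤ θ * |f x.1 - f x.2| ∧ |f x.1 - f x.2| ≤ θ * δ)) i
    rw [h]
    exact h2
  have hna : Pb (tri3 p zd zp) (fun w => ¬ (|a (w.1 1) - a (w.1 0) - c (w.1 0) *
      (f (w.1 1) - f (w.1 0))| ≤ nat ∧ δ' ≤ |f (w.1 1) - f (w.1 0)|)) ≤ η := by
    rw [Pool.MIC.Marg.Pb_eq (tri3_fst hp zd zp) (fun v => ¬ (|a (v 1) - a (v 0) - c (v 0) *
      (f (v 1) - f (v 0))| ≤ nat ∧ δ' ≤ |f (v 1) - f (v 0)|))]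
    exact h3
  -- the slope of the first sample
  have hone : Pb (tri3 p zd zp) (fun w => ¬ |c (w.1 0) - qst a f (w.1 0) w.2| ≤
      (2 * g * (θ * δ) + nat) / δ') ≤ 5 * η := by
    refine (Pb_mono t0 (B := fun w =>
      (¬ |(qst a f (w.1 0) w.2 - c2 w.2) - Φ (l w.2, c0 w.2)| ≤ g) ∨
      ((¬ |(qst a f (w.1 1) w.2 - c2 w.2) - Φ (l w.2, c0 w.2)| ≤ g) ∨
      ((¬ (δ ≤ θ * |f (w.1 0) - f w.2| ∧ |f (w.1 0) - f w.2| ≤ θ * δ)) ∨
      ((¬ (δ ≤ θ * |f (w.1 1) - f w.2| ∧ |f (w.1 1) - f w.2| ≤ θ * δ)) ∨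
      (¬ (|a (w.1 1) - a (w.1 0) - c (w.1 0) *
        (f (w.1 1) - f (w.1 0))| ≤ nat ∧ δ' ≤ |f (w.1 1) - f (w.1 0)|)))))) ?_).trans ?_
    · intro w _ hw
      by_contra hcon
      rw [not_or, not_or, not_or, not_or, not_not, not_not, not_not, not_not, not_not] at hcon
      obtain ⟨k1, k2, k3, k4, k5⟩ := hcon
      apply hw
      have k6 : |(a (w.1 0) - a w.2) / (f (w.1 0) - f w.2) -
          (a (w.1 1) - a w.2) / (f (w.1 1) - f w.2)| ≤ 2 * g := by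
        unfold qst at k1 k2
        have e1 : (a (w.1 0) - a w.2) / (f (w.1 0) - f w.2) -
            (a (w.1 1) - a w.2) / (f (w.1 1) - f w.2) =
            ((a (w.1 0) - a w.2) / (f (w.1 0) - f w.2) - c2 w.2 - Φ (l w.2, c0 w.2)) -
            ((a (w.1 1) - a w.2) / (f (w.1 1) - f w.2) - c2 w.2 - Φ (l w.2, c0 w.2)) := by ring
        rw [e1]
        refine (abs_sub _ _).trans ?_
        linarith
      exact slope_of hδ' (hsep _ _ k3.1) (hsep _ _ k4.1) k6 k4.2 k5.1 k5.2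
    · have b1 := hΦe 0
      have b2 := hΦe 1
      have b3 := hse 0
      have b4 := hse 1
      refine (Pb_or t0 _ _).trans ?_
      refine (add_le_add b1 ((Pb_or t0 _ _).trans (add_le_add b2 ((Pb_or t0 _ _).trans
        (add_le_add b3 ((Pb_or t0 _ _).trans (add_le_add b4 hna))))))).trans ?_
      linarith
  have hD : Pb (dbl p zp) (fun x => ¬ |c x.1 - qst a f x.1 x.2| ≤
      (2 * g * (θ * δ) + nat) / δ') ≤ 5 * η := by
    rw [← Pool.MIC.Marg.Pb_eq (tri3_marg hp zd zp hdp 0) (fun x => ¬ |c x.1 - qst a f x.1 x.2| ≤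
      (2 * g * (θ * δ) + nat) / δ')]
    exact hone
  have h10 : Pb (cpn p zp 1) (fun v => ¬ |c (v 1) - qst a f (v 1) (v 0)| ≤
      (2 * g * (θ * δ) + nat) / δ') ≤ 5 * η := by
    rw [Pool.MIC.Marg.Pb_eq hpr' (fun x => ¬ |c x.1 - qst a f x.1 x.2| ≤
      (2 * g * (θ * δ) + nat) / δ')]
    exact hD
  refine ⟨Φ, hs', ?_⟩
  have hm := Pool.MIC.Marg.Pb_eq (cpn_marg hp.nonneg zp 1 1) (fun ω =>
    ¬ |(c ω - c2 ω) - Φ (l ω, c0 ω)| ≤ (2 * g * (θ * δ) + nat) / δ' + g)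
  rw [← hm]
  refine (Pb_mono q0 (B := fun v => (¬ |c (v 1) - qst a f (v 1) (v 0)| ≤
      (2 * g * (θ * δ) + nat) / δ') ∨ (¬ |(qst a f (v 0) (v 1) - c2 (v 1)) -
        Φ (l (v 1), c0 (v 1))| ≤ g)) ?_).trans ?_
  · intro v _ hv
    by_contra hcon
    rw [not_or, not_not, not_not] at hcon
    obtain ⟨k1, k2⟩ := hcon
    apply hv
    have e0 : qst a f (v 1) (v 0) = qst a f (v 0) (v 1) := by
      unfold qst
      rw [← neg_sub (a (v 0)) (a (v 1)), ← neg_sub (f (v 0)) (f (v 1)), neg_div_neg_eq]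
    rw [e0] at k1
    have e1 : (c (v 1) - c2 (v 1)) - Φ (l (v 1), c0 (v 1)) =
        (c (v 1) - qst a f (v 0) (v 1)) +
          ((qst a f (v 0) (v 1) - c2 (v 1)) - Φ (l (v 1), c0 (v 1))) := by ring
    rw [e1]
    exact (abs_add_le _ _).trans (add_le_add k1 k2)
  · refine (Pb_or q0 _ _).trans ?_
    linarith

end

end Pool.NA17
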