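import Pool.Agent.H17.NA.Chq
import Pool.Agent.H17.NA.Phi
import Pool.Agent.H77.SL.All

/-!
# The chain with one inner star, law level

`ChEnt`: the entropies of the chain besides those of the star lemma. `chg_ev`: the good
configurations. `chn_pair`: the quotients of the two outer stars and the slopes of the general star.
`chn_phi`: the slope letter of the two samples of a general star.
-/

set_option autoImplicit false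

namespace Pool.NA17

open Finset Polynomial
open Pool.Agent.H49.Ent Pool.Agent.H32.Dense Pool.STK
open Pool.BFL (Pb)
open Pool.STB (Pb_mono Pb_or)
open Pool.K2S (cpn)
open Pool.CLU (cpn_law cpn_pos cpn_marg)
open Pool.SL77
open Pool.NA55

section

variable {Ω Λ E Z Z' R F U T T' X' G Y' : Type} [Fintype Ω] {N K : ℕ}

/-- **The entropies of the chain**, besides those of the star lemma over `zq`. -/
structure ChEnt (X : SlD Ω Λ E N K) (p : Ω → ℝ) (zq : Ω → Z') (zp : Ω → Z) (zr : Ω → R)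
    (J : Ω → G) (T0 : Ω → T) (xc : Ω → X') (xj : Ω → Y') (cc : Ω → ℝ)
    (cU cJ cm e₀ e₁ e₆ e₇ : ℝ) : Prop where
  zct : Det p zp (fun ω => (X.c0 ω, X.t ω))
  zJ : Det p zr J
  eJ : Det p X.ell J
  lJ : Det p X.l J
  Tc : Det p T0 X.c0
  h0 : CH p J xj ≤ cJ
  h1 : CH p X.ell (fun ω => (J ω, xc ω)) ≤ cU + e₀
  hm : CH p cc X.c0 ≤ cm
  h2 : ∀ v : (((Fin (N + 1 + 1) → Fin 2 → Ω) × (Fin 2 → Ω)) ×
      (Fin (N + 1 + 1) → Fin 2 → Ω)) → Ω, (∃ j, v = fun w => w.1.1 j 1) →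
    CH (chn p zq zp zr X.l X.c0 (N + 1)) (fun w => xc (v w))
      (fun w => (cc (w.1.2 0), (X.l (w.1.1 0 0), X.c0 (w.1.1 0 0)))) ≤ e₁
  h2B : ∀ v : (((Fin (N + 1 + 1) → Fin 2 → Ω) × (Fin 2 → Ω)) ×
      (Fin (N + 1 + 1) → Fin 2 → Ω)) → Ω, (v = (fun w => w.2 0 0) ∨ ∃ j, v = fun w => w.2 j 1) →
    CH (chn p zq zp zr X.l X.c0 (N + 1)) (fun w => xc (v w))
      (fun w => (J (w.1.2 1), (cc (w.1.2 0), (X.l (w.1.1 0 0), X.c0 (w.1.1 0 0))))) ≤ e₁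
  h2j : CH (chn p zq zp zr X.l X.c0 (N + 1)) (fun w => xj (w.1.2 1))
      (fun w => (cc (w.1.2 0), (X.l (w.1.1 0 0), X.c0 (w.1.1 0 0)))) ≤ e₁
  h7 : cm - e₆ ≤ CH p cc (fun ω => (X.l ω, X.c0 ω))
  h8 : cJ - e₇ ≤ CH p J zp

/-- The good configurations. -/
theorem chg_ev (X : SlD Ω Λ E N K) {p : Ω → ℝ} (hp : IsLaw p) (zq : Ω → Z') (zp : Ω → Z)
    (zr : Ω → R) {M : ℕ} (hM : 1 ≤ M) (zqt : Det p zq (fun ω => (X.c0 ω, X.t ω)))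
    (zpt : Det p zp (fun ω => (X.c0 ω, X.t ω)))
    (ht : ∀ ω, 0 < p ω → |X.t ω| ≤ (M : ℤ)) (hc : ∀ ω, 0 < p ω → |X.c0 ω| ≤ 1)
    (cc : Ω → ℝ) {ρ0 ε εu εg ε1 ε2 δ θ Lq Y εc η : ℝ}
    (hcc : ∀ ω, 0 < p ω → |cc ω - X.tm ρ0 M ω| ≤ εc)
    (h1 : Pb p (fun ω => ¬ SamR X εg Y ω) ≤ η)
    (h2 : Pb (cpn p zq 1) (fun v => ¬ StarR X ρ0 M ε εu δ θ v) ≤ η)
    (h2' : Pb (cpn p zp 1) (fun v => ¬ GenR X ρ0 M ε εu v) ≤ η)
    (h3 : Pb (cpn p zr (N + 1)) (fun w => ¬ ParR X ε1 ε2 Lq Y w) ≤ η) :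
    Pb (chn p zq zp zr X.l X.c0 (N + 1))
      (fun w => ¬ ChG X cc ρ0 M ε εu εg ε1 ε2 δ θ Lq Y εc w) ≤ 11 * η := by
  classical
  have hQ := chn_law hp zq zp zr X.l X.c0 (N + 1)
  have Q0 := hQ.nonneg
  have hM0 : (0 : ℝ) < M := by exact_mod_cast hM
  have sA := fun (j : Fin (N + 1 + 1)) k =>
    (Pool.MIC.Marg.Pb_eq (chn_A1 hp zq zp zr X.l X.c0 (N + 1) j k)
      (fun ω => ¬ SamR X εg Y ω)).le.trans h1
  have sB := fun (j : Fin (N + 1 + 1)) k =>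
    (Pool.MIC.Marg.Pb_eq (chn_B1 hp zq zp zr X.l X.c0 (N + 1) j k)
      (fun ω => ¬ SamR X εg Y ω)).le.trans h1
  have tA := (Pool.MIC.Marg.Pb_eq (chn_sA hp zq zp zr X.l X.c0 (N + 1) 0)
      (fun v => ¬ StarR X ρ0 M ε εu δ θ v)).le.trans h2
  have tB := (Pool.MIC.Marg.Pb_eq (chn_sB hp zq zp zr X.l X.c0 (N + 1) 0)
      (fun v => ¬ StarR X ρ0 M ε εu δ θ v)).le.trans h2
  have tC := (Pool.MIC.Marg.Pb_eq (chn_C hp zq zp zr X.l X.c0 (N + 1))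
      (fun v => ¬ GenR X ρ0 M ε εu v)).le.trans h2'
  have pA := (Pool.MIC.Marg.Pb_eq (chn_pA hp zq zp zr X.l X.c0 (N + 1))
      (fun w => ¬ ParR X ε1 ε2 Lq Y w)).le.trans h3
  have pB := (Pool.MIC.Marg.Pb_eq (chn_pB hp zq zp zr X.l X.c0 (N + 1))
      (fun w => ¬ ParR X ε1 ε2 Lq Y w)).le.trans h3
  refine (Pb_mono Q0 (B := fun w => (¬ SamR X εg Y (w.1.1 0 0)) ∨ ((¬ SamR X εg Y (w.2 0 0)) ∨
    ((¬ SamR X εg Y (w.1.1 0 1)) ∨ ((¬ SamR X εg Y (w.2 0 1)) ∨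
    ((¬ SamR X εg Y (w.1.1 (Fin.succ 0) 1)) ∨ ((¬ SamR X εg Y (w.2 (Fin.succ 0) 1)) ∨
    ((¬ StarR X ρ0 M ε εu δ θ (w.1.1 0)) ∨ ((¬ StarR X ρ0 M ε εu δ θ (w.2 0)) ∨
    ((¬ GenR X ρ0 M ε εu w.1.2) ∨ ((¬ ParR X ε1 ε2 Lq Y (fun j => w.1.1 j 1)) ∨
    (¬ ParR X ε1 ε2 Lq Y (fun j => w.2 j 1)))))))))))) ?_).trans ?_
  · intro w hw hbad
    by_contra hcon
    rw [not_or, not_or, not_or, not_or, not_or, not_or, not_or, not_or, not_or, not_or, not_not,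
      not_not, not_not, not_not, not_not, not_not, not_not, not_not, not_not, not_not,
      not_not] at hcon
    obtain ⟨k1, k2, k3, k4, k5, k6, k7, k8, k9, k10, k11⟩ := hcon
    obtain ⟨⟨a1, a2, a3⟩, ⟨b1, b2⟩, c1, ⟨d1, d2⟩, ⟨e1, e2⟩, ⟨f1, f2⟩⟩ :=
      chn_pos hp zq zp zr X.l X.c0 (N + 1) hw
    have zA := Prod.ext_iff.1 (zqt _ _ (a1 0 1) (a1 0 0) (b1 0))
    have zB := Prod.ext_iff.1 (zqt _ _ (a3 0 1) (a3 0 0) (d1 0))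
    have zC := Prod.ext_iff.1 (zpt _ _ (a2 1) (a2 0) c1)
    have htb : ∀ ω, 0 < p ω → |(X.t ω : ℝ) / M| ≤ 1 := fun ω hω => by
      rw [abs_div, abs_of_pos hM0, div_le_one hM0]
      exact_mod_cast ht ω hω
    exact hbad ⟨e1, e2, f1, f2, zA.1, zA.2, zB.1, zB.2, zC.1, zC.2, hc _ (a1 0 0),
      htb _ (a1 0 0), htb _ (a3 0 0), htb _ (a2 0), hcc _ (a2 0), k1, k2, k3, k4, k5, k6, k7,
      k8, k9, k10, k11⟩
  · have b10 := (Pb_or Q0 (fun w => ¬ ParR X ε1 ε2 Lq Y (fun j => w.1.1 j 1))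
      (fun w => ¬ ParR X ε1 ε2 Lq Y (fun j => w.2 j 1))).trans (add_le_add pA pB)
    have b9 := (Pb_or Q0 (fun w => ¬ GenR X ρ0 M ε εu w.1.2) _).trans (add_le_add tC b10)
    have b8 := (Pb_or Q0 (fun w => ¬ StarR X ρ0 M ε εu δ θ (w.2 0)) _).trans
      (add_le_add tB b9)
    have b7 := (Pb_or Q0 (fun w => ¬ StarR X ρ0 M ε εu δ θ (w.1.1 0)) _).trans
      (add_le_add tA b8)
    have b6 := (Pb_or Q0 (fun w => ¬ SamR X εg Y (w.2 (Fin.succ 0) 1)) _).trans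
      (add_le_add (sB (Fin.succ 0) 1) b7)
    have b5 := (Pb_or Q0 (fun w => ¬ SamR X εg Y (w.1.1 (Fin.succ 0) 1)) _).trans
      (add_le_add (sA (Fin.succ 0) 1) b6)
    have b4 := (Pb_or Q0 (fun w => ¬ SamR X εg Y (w.2 0 1)) _).trans
      (add_le_add (sB 0 1) b5)
    have b3 := (Pb_or Q0 (fun w => ¬ SamR X εg Y (w.1.1 0 1)) _).trans
      (add_le_add (sA 0 1) b4)
    have b2 := (Pb_or Q0 (fun w => ¬ SamR X εg Y (w.2 0 0)) _).trans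
      (add_le_add (sB 0 0) b3)
    have b1 := (Pb_or Q0 (fun w => ¬ SamR X εg Y (w.1.1 0 0)) _).trans
      (add_le_add (sA 0 0) b2)
    refine b1.trans (le_of_eq ?_)
    ring

/-- **The quotients of the two outer stars and the slopes of the general star, law level.** -/
theorem chn_pair (D : ℕ) : ∃ (K₀ : ℝ) (C₀ : ℕ), 1 ≤ K₀ ∧ 1 ≤ C₀ ∧ ∀ Kc : ℝ, K₀ ≤ Kc →
    ∀ {Ω Λ E Z Z' R F U T T' X' G Y' : Type} [Fintype Ω] {N K : ℕ} (X : SlD Ω Λ E N K)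
    (_ : X.Deg D) {p : Ω → ℝ} (_ : IsLaw p) (zq : Ω → Z') (zp : Ω → Z) (zr : Ω → R) (f : Ω → F)
    (J : Ω → G) (ufar : Ω → U) (T0 : Ω → T) (tl : Ω → T') (xc : Ω → X') (xj : Ω → Y')
    (cc : Ω → ℝ) {M : ℕ} (_ : 1 ≤ M) {cF cU cJ cm e₀ e₁ e₂ e₃ e₄ e₅ e₆ e₇ eT : ℝ}
    (_ : SlEnt X p zq zr f ufar T0 tl xc M cF cU e₀ e₁ e₂ e₃ e₄ e₅ eT)
    (_ : ChEnt X p zq zp zr J T0 xc xj cc cU cJ cm e₀ e₁ e₆ e₇)
    {ρ0 ε εu εg ε1 ε2 δ θ Lq Y εc η : ℝ}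
    (_ : ∀ ω, 0 < p ω → |cc ω - X.tm ρ0 M ω| ≤ εc)
    (_ : Pb p (fun ω => ¬ SamR X εg Y ω) ≤ η)
    (_ : Pb (cpn p zq 1) (fun v => ¬ StarR X ρ0 M ε εu δ θ v) ≤ η)
    (_ : Pb (cpn p zp 1) (fun v => ¬ GenR X ρ0 M ε εu v) ≤ η)
    (_ : Pb (cpn p zr (N + 1)) (fun w => ¬ ParR X ε1 ε2 Lq Y w) ≤ η)
    (Bν : Ω → Prop) (S : ℕ → E × ℤ → Finset ℤ) (n : ℕ) (Nn a b : ℕ → ℕ) (V : ℕ → ℝ)
    {c₀ ρ Kν Gb : ℝ} (_ : 0 < ρ) (_ : ρ < 1) (_ : (C₀ : ℝ) ≤ ρ ^ C₀ * (2 * M + 1))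
    (_ : ∀ k < n, ∀ ω, 0 < p ω → Bν ω → X.ν ω / 2 ^ a k ∈ S k (X.ell ω, X.ν ω / 2 ^ b k))
    (_ : ∀ k < n, ∀ w, (S k w).card ≤ Nn k) (_ : Pb p (fun ω => ¬ Bν ω) ≤ c₀)
    (_ : 0 < ρ0) (_ : ρ0 ≤ 1 / 4) (_ : 0 < δ) (_ : 1 ≤ θ) (_ : θ ^ 2 * ρ0 ≤ 1 / 2)
    (_ : 0 ≤ εu) (_ : εu ≤ 1) (_ : 0 ≤ εg) (_ : 0 ≤ εc) (_ : εc ≤ ρ0) (_ : 0 ≤ ε1)
    (_ : 0 ≤ ε2) (_ : 0 ≤ Lq) (_ : 0 ≤ Y)
    (_ : 2 * εu + Kc * εc + θ * δ * (2 * ρ0) ≤ 1)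
    (_ : θ * (3 * εu + Kc * εc) / δ ≤ ρ0)
    (_ : 2 * (2 * ε + 3 * εg + Kc * ε1 * (6 * ρ0) + Kc * Y * εc + 2 * (K * (Lq * Lq * εu)) +
        K * (Lq * Lq * (2 * εu + Kc * εc))) + Kc * (ε1 * ρ0 +
      (7 * Y + 4 * (K * (Y * Lq)) + K * (Lq * Lq)) / ρ0 *
        (θ * (3 * εu + Kc * εc) / δ)) + 1 ≤ Kν)
    (_ : ∀ k < n, a k ≤ b k ∧ Kν ≤ 2 ^ a k ∧ 0 < V k ∧ V (k + 1) ≤ 2 ^ b k ∧
      (C₀ : ℝ) * Nn k * 2 ^ a k ≤ ρ ^ C₀ * V k ∧ (C₀ : ℝ) * Nn k ≤ ρ ^ C₀ * M)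
    (_ : 2 * (6 * Y + 4 * (K * (Y * Lq)) + K * (Lq * Lq)) ≤ V n)
    (_ : Kc * (θ / δ) * (V 0 / ρ0 + ((7 * Y + 4 * (K * (Y * Lq)) + K * (Lq * Lq)) / ρ0 ^ 2 +
        ε1) * (θ * (3 * εu + Kc * εc) / δ) + ε1) +
      2 * ((2 * εg + K * (Lq * Lq * εu)) * θ / δ + K * (Lq * Lq * εu)) +
      2 * (Kc * ε1) * θ / δ + K * (Lq * Lq * εu) + K * (Lq * Lq * (2 * εu + Kc * εc)) +
      Kc * ε2 * (6 * ρ0) + 2 * (Kc * (K * (Lq * Lq) + ε2) * εc) ≤ Gb),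
    Pb (chn p zq zp zr X.l X.c0 (N + 1))
      (fun w => ¬ |(qst (X.vN ρ0 M) (X.vU ρ0 M) (w.1.1 0 0) (w.1.1 0 1) -
          X.vC ρ0 M (w.1.1 0 1)) -
        (qst (X.vN ρ0 M) (X.vU ρ0 M) (w.2 0 0) (w.2 0 1) - X.vC ρ0 M (w.2 0 1)) +
        (X.vC ρ0 M (w.1.2 0) - X.vC ρ0 M (w.1.2 1))| ≤ Gb) ≤
      c₀ + 44 * η + n * ((eT + ((2 * (N + 1) + 3) * e₁ + (2 * (N + 1) + 1) * e₀ + 2 * e₂ +
        2 * (N + 1) * e₃ + e₄ + e₅ + e₆ + e₇) + Real.log 2) / Real.log (1 / ρ)) := by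
  classical
  obtain ⟨K₂, C₀, hK₂, hC₀, htri⟩ := tri_ev (D * D + D)
  obtain ⟨K₁, hK₁, hmk⟩ := mkv D
  have hmk' : Mkv D K₁ := hmk
  refine ⟨K₁ + K₂, C₀, by linarith, hC₀, ?_⟩
  intro Kc hKc Ω Λ E Z Z' R F U T T' X' G Y' _ N K X hdeg p hp zq zp zr f J ufar T0 tl xc xj cc M hM cF
    cU cJ cm e₀ e₁ e₂ e₃ e₄ e₅ e₆ e₇ eT HE HC ρ0 ε εu εg ε1 ε2 δ θ Lq Y εc η hcc hS hSt hGe hPr
    Bν S n Nn a b V c₀ ρ Kν Gb hρ hρ1 hCM hrow hcard hB h0 h1 hδ hθ hθρ hu0 hu hεg hεc0 hεc hε1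
    hε2 hLq hY hd hηρ hKν hnum htopn hGn
  have hQ := chn_law hp zq zp zr X.l X.c0 (N + 1)
  have Q0 := hQ.nonneg
  have hθ0 : 0 < θ := by linarith
  have hK0 : (0 : ℝ) ≤ K := Nat.cast_nonneg K
  have hK12 : K₁ ≤ Kc := by linarith
  have hK22 : K₂ ≤ Kc := by linarith
  have hKc0 : 0 ≤ Kc := by linarith
  -- monotonicity in the constant
  have m0 : K₁ * εc ≤ Kc * εc := mul_le_mul_of_nonneg_right hK12 hεc0
  have hd' : 2 * εu + K₁ * εc + θ * δ * (2 * ρ0) ≤ 1 := by linarith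
  have hd'' : 2 * εu + K₁ * εc ≤ 1 := by
    have : 0 ≤ θ * δ * (2 * ρ0) := by positivity
    linarith
  have m1 : θ * (3 * εu + K₁ * εc) / δ ≤ θ * (3 * εu + Kc * εc) / δ :=
    div_le_div_of_nonneg_right (mul_le_mul_of_nonneg_left (by linarith) hθ0.le) hδ.le
  have hη0 : 0 ≤ θ * (3 * εu + K₁ * εc) / δ := by
    have : 0 ≤ K₁ * εc := mul_nonneg (by linarith) hεc0
    positivity
  have hgd := chg_ev X hp zq zp zr hM HE.zct HC.zct HE.ht HE.hc cc (ρ0 := ρ0) (ε := ε)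
    (εu := εu) (εg := εg) (ε1 := ε1) (ε2 := ε2) (δ := δ) (θ := θ) (Lq := Lq) (Y := Y) (εc := εc)
    hcc hS hSt hGe hPr
  -- the full time
  have hful := chn_low hp zq zp zr X.l X.c0 (N + 1) (by omega) f J ufar X.ell T0 tl xc xj cc X.t
    HE.zf HE.ef HC.zJ HC.eJ HC.lJ HE.eu HE.pT HE.rT HC.Tc HE.h0 HE.h1 HC.h0 HC.h1 HC.hm HC.h2
    HC.h2B HC.h2j HE.h3 HE.h4 HE.h5 HE.h6 HC.h7 HC.h8
  have hcast : (((N + 1 : ℕ) : ℝ)) = (N : ℝ) + 1 := by push_cast; ring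
  rw [hcast] at hful
  obtain ⟨e, he⟩ : ∃ e, e = eT + ((2 * ((N : ℝ) + 1) + 3) * e₁ + (2 * ((N : ℝ) + 1) + 1) * e₀ +
    2 * e₂ + 2 * ((N : ℝ) + 1) * e₃ + e₄ + e₅ + e₆ + e₇) := ⟨_, rfl⟩
  have hft : Real.log (2 * M + 1) - e ≤ CH (chn p zq zp zr X.l X.c0 (N + 1))
      (fun w => X.t (w.1.1 0 0)) (chW X cc) := by
    have h2 := HE.hT
    rw [he]
    have h3 : CH (chn p zq zp zr X.l X.c0 (N + 1)) (fun w => X.t (w.1.1 0 0)) (chW X cc) =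
        CH (chn p zq zp zr X.l X.c0 (N + 1)) (fun w => X.t (w.1.1 0 0))
          (fun w => (((X.ell (w.2 0 0), ((fun (j : Fin (N + 1)) => X.ell (w.1.1 j.succ 1)),
            fun (j : Fin (N + 1)) => X.ell (w.2 j.succ 1))), cc (w.1.2 0)),
            (X.l (w.1.1 0 0), X.c0 (w.1.1 0 0)))) := rfl
    rw [h3]
    linarith
  have hpos := fun w (hw : 0 < chn p zq zp zr X.l X.c0 (N + 1) w) =>
    (chn_pos hp zq zp zr X.l X.c0 (N + 1) hw).1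
  obtain ⟨Xc, hXc⟩ : ∃ Xc, Xc = 7 * Y + 4 * (K * (Y * Lq)) + K * (Lq * Lq) := ⟨_, rfl⟩
  have hXc0 : 0 ≤ Xc := by
    rw [hXc]
    positivity
  obtain ⟨ε', hε'⟩ : ∃ ε', ε' = 2 * ε + 3 * εg + K₁ * ε1 * (6 * ρ0) + K₁ * Y * εc +
      2 * (K * (Lq * Lq * εu)) + K * (Lq * Lq * (2 * εu + K₁ * εc)) := ⟨_, rfl⟩
  have hε'' : ε' ≤ 2 * ε + 3 * εg + Kc * ε1 * (6 * ρ0) + Kc * Y * εc +
      2 * (K * (Lq * Lq * εu)) + K * (Lq * Lq * (2 * εu + Kc * εc)) := by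
    rw [hε']
    have f1 : K₁ * ε1 * (6 * ρ0) ≤ Kc * ε1 * (6 * ρ0) :=
      mul_le_mul_of_nonneg_right (mul_le_mul_of_nonneg_right hK12 hε1) (by linarith)
    have f2 : K₁ * Y * εc ≤ Kc * Y * εc :=
      mul_le_mul_of_nonneg_right (mul_le_mul_of_nonneg_right hK12 hY) hεc0
    have f3 : K * (Lq * Lq * (2 * εu + K₁ * εc)) ≤ K * (Lq * Lq * (2 * εu + Kc * εc)) :=
      mul_le_mul_of_nonneg_left (mul_le_mul_of_nonneg_left (by linarith) (by positivity)) hK0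
    linarith
  have h3 := htri (((Fin (N + 1 + 1) → Fin 2 → Ω) × (Fin 2 → Ω)) ×
      (Fin (N + 1 + 1) → Fin 2 → Ω)) (Cnd Λ E N) E
    (chn p zq zp zr X.l X.c0 (N + 1)) (chW X cc) (fun w => X.t (w.1.1 0 0)) (fun k => k.1.1.1)
    (chE0 X) (chE1 X) (chD0 X) (chD1 X) (fun k => k.2.2) (fun w => ble X w.2)
    (fun w => X.tm ρ0 M (w.2 0 0)) (fun w => (X.nL (X.l (w.2 (Fin.succ 0) 1))).eval 0)
    (fun w => (X.nL (X.l (w.2 0 0))).eval 0) (fun w => X.ν (w.2 0 0)) (fun w => Bν (w.2 0 0))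
    S n M Nn a b V ρ0 ρ0 δ θ 0 ε1 Xc ε' (3 * εu + K₁ * εc) (θ * (3 * εu + K₁ * εc) / δ) e c₀
    (11 * η) (11 * η) ρ Kν
    hQ hM hρ hρ1 hCM (fun w hw => HE.ht _ ((hpos w hw).1 0 0)) hft (chE0_deg X hdeg)
    (chE1_deg X hdeg) (fun w => (ble_deg X hdeg w.2).trans (Nat.le_add_left _ _)) h0 le_rfl
    (by linarith) hδ hθ le_rfl
    (by rw [mul_zero, zero_mul]; linarith)
    (by rw [mul_zero, zero_mul, zero_div, add_zero]) (m1.trans hηρ)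
    ((Pb_mono Q0 fun w _ h hc => h ⟨hc.tri hdeg hmk' h0 h1 hεc hd' hu hεg (Xc := Xc) (ε' := ε')
      (by rw [hXc]) (by rw [hε']), hc.s1.lv⟩).trans hgd)
    (by
      have f1 : K₂ * (ε1 * ρ0 + Xc / ρ0 * (θ * (3 * εu + K₁ * εc) / δ)) ≤
          Kc * (ε1 * ρ0 + Xc / ρ0 * (θ * (3 * εu + Kc * εc) / δ)) := by
        refine mul_le_mul hK22 ?_ (by positivity) (by linarith)
        exact add_le_add le_rfl (mul_le_mul_of_nonneg_left m1 (by positivity))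
      rw [← hXc] at hKν
      linarith)
    (fun k hk w hw hb => hrow k hk _ ((hpos w hw).2.2 0 0) hb) hcard
    ((Pool.MIC.Marg.Pb_eq (chn_B1 hp zq zp zr X.l X.c0 (N + 1) 0 0)
      (fun ω => ¬ Bν ω)).le.trans hB)
    ((Pb_mono Q0 fun w _ h hc => h fun s hs => (hc.top hdeg hmk' h0 h1 hεc hd' hδ hθ hθρ
      (by linarith) s hs).trans htopn).trans hgd) hnum
  -- the quotients
  have h4 : Pb (chn p zq zp zr X.l X.c0 (N + 1)) (fun w =>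
      ¬ |(qst (X.vN ρ0 M) (X.vU ρ0 M) (w.1.1 0 0) (w.1.1 0 1) -
          X.vC ρ0 M (w.1.1 0 1)) -
        (qst (X.vN ρ0 M) (X.vU ρ0 M) (w.2 0 0) (w.2 0 1) - X.vC ρ0 M (w.2 0 1)) +
        (X.vC ρ0 M (w.1.2 0) - X.vC ρ0 M (w.1.2 1))| ≤ Gb) ≤
      11 * η + (c₀ + 2 * (11 * η) + 11 * η + n * ((e + Real.log 2) / Real.log (1 / ρ))) := by
    refine le_trans (Pb_mono Q0 fun w hw h => ?_) ((Pb_or Q0 _ _).trans (add_le_add hgd h3))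
    by_contra hcon
    rw [not_or, not_not, not_not] at hcon
    obtain ⟨k1, k2⟩ := hcon
    apply h
    have k3 := k1.quo hdeg hmk' h0 h1 hεc hd'' hu hεg hδ k2
    refine k3.trans (le_trans ?_ hGn)
    have hV0 : 0 ≤ V 0 := by
      rcases Nat.eq_zero_or_pos n with hn | hn
      · rw [hn] at htopn
        refine le_trans (by positivity) htopn
      · exact (hnum 0 hn).2.2.1.le
    have e1 : K₂ * (θ / δ) * (V 0 / ρ0 + (Xc / ρ0 ^ 2 + ε1) *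
      (θ * (3 * εu + K₁ * εc) / δ) + (Xc / ρ0 + ε1) * (θ * 0 * ρ0 / δ) + ε1) ≤
      Kc * (θ / δ) * (V 0 / ρ0 + (Xc / ρ0 ^ 2 + ε1) *
      (θ * (3 * εu + Kc * εc) / δ) + ε1) := by
      refine mul_le_mul (mul_le_mul_of_nonneg_right hK22 (by positivity)) ?_ ?_ (by positivity)
      · rw [mul_zero, zero_mul, zero_div, mul_zero, add_zero]
        exact add_le_add (add_le_add le_rfl (mul_le_mul_of_nonneg_left m1 (by positivity))) le_rfl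
      · rw [mul_zero, zero_mul, zero_div, mul_zero, add_zero]
        positivity
    have e2 : 2 * (K₁ * ε1) * θ / δ ≤ 2 * (Kc * ε1) * θ / δ := by
      refine div_le_div_of_nonneg_right (mul_le_mul_of_nonneg_right ?_ hθ0.le) hδ.le
      exact mul_le_mul_of_nonneg_left (mul_le_mul_of_nonneg_right hK12 hε1) (by norm_num)
    have e3 : K * (Lq * Lq * (2 * εu + K₁ * εc)) ≤ K * (Lq * Lq * (2 * εu + Kc * εc)) :=
      mul_le_mul_of_nonneg_left (mul_le_mul_of_nonneg_left (by linarith) (by positivity)) hK0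
    have e4 : K₁ * ε2 * (6 * ρ0) ≤ Kc * ε2 * (6 * ρ0) :=
      mul_le_mul_of_nonneg_right (mul_le_mul_of_nonneg_right hK12 hε2) (by linarith)
    have e5 : 2 * (K₁ * (K * (Lq * Lq) + ε2) * εc) ≤
        2 * (Kc * (K * (Lq * Lq) + ε2) * εc) := by
      refine mul_le_mul_of_nonneg_left (mul_le_mul_of_nonneg_right
        (mul_le_mul_of_nonneg_right hK12 (by positivity)) hεc0) (by norm_num)
    rw [← hXc] at hGn ⊢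
    linarith
  rw [← he]
  refine h4.trans (le_of_eq (by ring))

end

end Pool.NA17
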