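import Pool.Agent.H17.NA.Chn

/-!
# The slope is few given the record of a general star

`chn_all`: from the entropies of one sample, the relations of one sample, of stars over `zq` (same
orders `≥ 2` of the moved place), of general stars over `zp`, of lines with parallel lines over `zr`,
the natural relation over `zd` and the row of the level: the slope letters `cs` of the two samples of
a general star are near and the code of the slope is few given `zp`.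
-/

set_option autoImplicit false

namespace Pool.NA17

open Finset Polynomial
open Pool.Agent.H49.Ent Pool.Agent.H32.Dense Pool.STK
open Pool.BFL (Pb)
open Pool.STB (Pb_mono Pb_or)
open Pool.K2S (cpn)
open Pool.CLU (cpn_law cpn_pos cpn_marg)
open Pool.SL77
open Pool.NA55

section

variable {Ω Λ E Z Z' R Rd : Type} [Fintype Ω] {N K : ℕ}

/-- **The slope letters of a general star**: from the quotients of the outer stars. -/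
theorem chn_cs (X : SlD Ω Λ E N K) {p : Ω → ℝ} (hp : IsLaw p) (zq : Ω → Z') (zp : Ω → Z)
    (zr : Ω → R) (zd : Ω → Rd) (hdp : Det p zd zq) (cs : Ω → ℝ) {M : ℕ}
    {ρ0 δ δ' θ nat G E₁ E₂ : ℝ} (hδ : 0 < δ) (hδ' : 0 < δ')
    (h1 : Pb (cpn (cpn p zq 1) (fun v => (X.l (v 1), X.c0 (v 1))) 1)
      (fun W => ¬ |(qst (X.vN ρ0 M) (X.vU ρ0 M) (W 0 0) (W 0 1) - X.vC ρ0 M (W 0 1)) -
        (qst (X.vN ρ0 M) (X.vU ρ0 M) (W 1 0) (W 1 1) - X.vC ρ0 M (W 1 1))| ≤ G) ≤ E₁)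
    (h2 : Pb (cpn p zq 1) (fun v => ¬ (δ ≤ θ * |X.vU ρ0 M (v 0) - X.vU ρ0 M (v 1)| ∧
      |X.vU ρ0 M (v 0) - X.vU ρ0 M (v 1)| ≤ θ * δ)) ≤ E₁)
    (h3 : Pb (cpn p zd 1) (fun v => ¬ (|X.vN ρ0 M (v 1) - X.vN ρ0 M (v 0) -
      cs (v 0) * (X.vU ρ0 M (v 1) - X.vU ρ0 M (v 0))| ≤ nat ∧
        δ' ≤ |X.vU ρ0 M (v 1) - X.vU ρ0 M (v 0)|)) ≤ E₁)
    (h4 : Pb (chn p zq zp zr X.l X.c0 (N + 1))
      (fun w => ¬ |(qst (X.vN ρ0 M) (X.vU ρ0 M) (w.1.1 0 0) (w.1.1 0 1) -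
          X.vC ρ0 M (w.1.1 0 1)) -
        (qst (X.vN ρ0 M) (X.vU ρ0 M) (w.2 0 0) (w.2 0 1) - X.vC ρ0 M (w.2 0 1)) +
        (X.vC ρ0 M (w.1.2 0) - X.vC ρ0 M (w.1.2 1))| ≤ G) ≤ E₂) :
    Pb (cpn p zp 1) (fun v => ¬ |cs (v 0) - cs (v 1)| ≤
      5 * G + 2 * ((2 * G * (θ * δ) + nat) / δ')) ≤ E₂ + 14 * E₁ := by
  classical
  have hQ := chn_law hp zq zp zr X.l X.c0 (N + 1)
  have Q0 := hQ.nonneg
  obtain ⟨Φ, hΦ1, hΦ2⟩ := sl_phi hp zq zd X.l X.c0 (X.vN ρ0 M) (X.vU ρ0 M) (X.vC ρ0 M) cs hdp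
    (θ := θ) (nat := nat) hδ hδ' h1 h2 h3
  have sA := (Pool.MIC.Marg.Pb_eq (chn_sA hp zq zp zr X.l X.c0 (N + 1) 0)
      (fun v => ¬ |(qst (X.vN ρ0 M) (X.vU ρ0 M) (v 0) (v 1) - X.vC ρ0 M (v 1)) -
        Φ (X.l (v 1), X.c0 (v 1))| ≤ G)).le.trans hΦ1
  have sB := (Pool.MIC.Marg.Pb_eq (chn_sB hp zq zp zr X.l X.c0 (N + 1) 0)
      (fun v => ¬ |(qst (X.vN ρ0 M) (X.vU ρ0 M) (v 0) (v 1) - X.vC ρ0 M (v 1)) -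
        Φ (X.l (v 1), X.c0 (v 1))| ≤ G)).le.trans hΦ1
  have c0 := fun k => (Pool.MIC.Marg.Pb_eq (chn_C1 hp zq zp zr X.l X.c0 (N + 1) k)
      (fun ω => ¬ |(cs ω - X.vC ρ0 M ω) - Φ (X.l ω, X.c0 ω)| ≤
        (2 * G * (θ * δ) + nat) / δ' + G)).le.trans hΦ2
  have hm := Pool.MIC.Marg.Pb_eq (chn_C hp zq zp zr X.l X.c0 (N + 1))
    (fun v => ¬ |cs (v 0) - cs (v 1)| ≤ 5 * G + 2 * ((2 * G * (θ * δ) + nat) / δ'))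
  rw [← hm]
  refine (Pb_mono Q0 (B := fun w => (¬ |(qst (X.vN ρ0 M) (X.vU ρ0 M) (w.1.1 0 0) (w.1.1 0 1) -
          X.vC ρ0 M (w.1.1 0 1)) -
        (qst (X.vN ρ0 M) (X.vU ρ0 M) (w.2 0 0) (w.2 0 1) - X.vC ρ0 M (w.2 0 1)) +
        (X.vC ρ0 M (w.1.2 0) - X.vC ρ0 M (w.1.2 1))| ≤ G) ∨
      ((¬ |(qst (X.vN ρ0 M) (X.vU ρ0 M) (w.1.1 0 0) (w.1.1 0 1) - X.vC ρ0 M (w.1.1 0 1)) -
        Φ (X.l (w.1.1 0 1), X.c0 (w.1.1 0 1))| ≤ G) ∨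
      ((¬ |(qst (X.vN ρ0 M) (X.vU ρ0 M) (w.2 0 0) (w.2 0 1) - X.vC ρ0 M (w.2 0 1)) -
        Φ (X.l (w.2 0 1), X.c0 (w.2 0 1))| ≤ G) ∨
      ((¬ |(cs (w.1.2 0) - X.vC ρ0 M (w.1.2 0)) - Φ (X.l (w.1.2 0), X.c0 (w.1.2 0))| ≤
        (2 * G * (θ * δ) + nat) / δ' + G) ∨
      (¬ |(cs (w.1.2 1) - X.vC ρ0 M (w.1.2 1)) - Φ (X.l (w.1.2 1), X.c0 (w.1.2 1))| ≤
        (2 * G * (θ * δ) + nat) / δ' + G))))) ?_).trans ?_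
  · intro w hw h
    by_contra hcon
    rw [not_or, not_or, not_or, not_or, not_not, not_not, not_not, not_not, not_not] at hcon
    obtain ⟨k1, k2, k3, k4, k5⟩ := hcon
    obtain ⟨-, -, -, -, ⟨e1, e2⟩, ⟨f1, f2⟩⟩ := chn_pos hp zq zp zr X.l X.c0 (N + 1) hw
    apply h
    rw [← e1, ← e2] at k4
    rw [f1, f2] at k5
    obtain ⟨g, hg⟩ : ∃ g, g = (2 * G * (θ * δ) + nat) / δ' := ⟨_, rfl⟩
    rw [← hg] at k4 k5 ⊢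
    rw [abs_le] at k1 k2 k3 k4 k5 ⊢
    constructor <;> linarith [k1.1, k1.2, k2.1, k2.2, k3.1, k3.2, k4.1, k4.2, k5.1, k5.2]
  · have b4 := (Pb_or Q0 (fun w => ¬ |(cs (w.1.2 0) - X.vC ρ0 M (w.1.2 0)) -
        Φ (X.l (w.1.2 0), X.c0 (w.1.2 0))| ≤ (2 * G * (θ * δ) + nat) / δ' + G)
      (fun w => ¬ |(cs (w.1.2 1) - X.vC ρ0 M (w.1.2 1)) -
        Φ (X.l (w.1.2 1), X.c0 (w.1.2 1))| ≤ (2 * G * (θ * δ) + nat) / δ' + G)).trans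
      (add_le_add (c0 0) (c0 1))
    have b3 := (Pb_or Q0 (fun w => ¬ |(qst (X.vN ρ0 M) (X.vU ρ0 M) (w.2 0 0) (w.2 0 1) -
        X.vC ρ0 M (w.2 0 1)) - Φ (X.l (w.2 0 1), X.c0 (w.2 0 1))| ≤ G) _).trans
      (add_le_add sB b4)
    have b2 := (Pb_or Q0 (fun w => ¬ |(qst (X.vN ρ0 M) (X.vU ρ0 M) (w.1.1 0 0) (w.1.1 0 1) -
        X.vC ρ0 M (w.1.1 0 1)) - Φ (X.l (w.1.1 0 1), X.c0 (w.1.1 0 1))| ≤ G) _).trans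
      (add_le_add sA b3)
    have b1 := (Pb_or Q0 (fun w =>
        ¬ |(qst (X.vN ρ0 M) (X.vU ρ0 M) (w.1.1 0 0) (w.1.1 0 1) - X.vC ρ0 M (w.1.1 0 1)) -
        (qst (X.vN ρ0 M) (X.vU ρ0 M) (w.2 0 0) (w.2 0 1) - X.vC ρ0 M (w.2 0 1)) +
        (X.vC ρ0 M (w.1.2 0) - X.vC ρ0 M (w.1.2 1))| ≤ G) _).trans
      (add_le_add h4 b2)
    refine b1.trans (le_of_eq ?_)
    ring

/-- **The chain, law level.** -/
theorem chn_all (D : ℕ) : ∃ (Kc : ℝ) (C₀ : ℕ), 1 ≤ Kc ∧ 1 ≤ C₀ ∧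
    ∀ {Ω Λ E Z Z' R Rd F U T T' X' G Y' : Type} [Fintype Ω] {N K : ℕ} (X : SlD Ω Λ E N K)
    (_ : X.Deg D) {p : Ω → ℝ} (_ : IsLaw p) (zq : Ω → Z') (zp : Ω → Z) (zr : Ω → R)
    (zd : Ω → Rd) (_ : Det p zd zq) (f : Ω → F)
    (J : Ω → G) (ufar : Ω → U) (T0 : Ω → T) (tl : Ω → T') (xc : Ω → X') (xj : Ω → Y')
    (cc : Ω → ℝ) {M : ℕ} (_ : 1 ≤ M) {cF cU cJ cm e₀ e₁ e₂ e₃ e₄ e₅ e₆ e₇ eT : ℝ}
    (_ : SlEnt X p zq zr f ufar T0 tl xc M cF cU e₀ e₁ e₂ e₃ e₄ e₅ eT)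
    (_ : ChEnt X p zq zp zr J T0 xc xj cc cU cJ cm e₀ e₁ e₆ e₇)
    {ρ0 ε εu εg ε1 ε2 δ θ Lq Y εc η : ℝ}
    (_ : ∀ ω, 0 < p ω → |cc ω - X.tm ρ0 M ω| ≤ εc)
    (_ : Pb p (fun ω => ¬ SamR X εg Y ω) ≤ η)
    (_ : Pb (cpn p zq 1) (fun v => ¬ StarR X ρ0 M ε εu δ θ v) ≤ η)
    (_ : Pb (cpn p zp 1) (fun v => ¬ GenR X ρ0 M ε εu v) ≤ η)
    (_ : Pb (cpn p zr (N + 1)) (fun w => ¬ ParR X ε1 ε2 Lq Y w) ≤ η)
    (cs : Ω → ℝ) {nat δ' : ℝ} (_ : 0 < δ')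
    (_ : Pb (cpn p zd 1) (fun v => ¬ (|X.vN ρ0 M (v 1) - X.vN ρ0 M (v 0) -
      cs (v 0) * (X.vU ρ0 M (v 1) - X.vU ρ0 M (v 0))| ≤ nat ∧
        δ' ≤ |X.vU ρ0 M (v 1) - X.vU ρ0 M (v 0)|)) ≤ η)
    (Bν : Ω → Prop) (S : ℕ → E × ℤ → Finset ℤ) (n : ℕ) (Nn a b : ℕ → ℕ) (V : ℕ → ℝ)
    {c₀ ρ Kν Gb : ℝ} (_ : 0 < ρ) (_ : ρ < 1) (_ : (C₀ : ℝ) ≤ ρ ^ C₀ * (2 * M + 1))
    (_ : ∀ k < n, ∀ ω, 0 < p ω → Bν ω → X.ν ω / 2 ^ a k ∈ S k (X.ell ω, X.ν ω / 2 ^ b k))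
    (_ : ∀ k < n, ∀ w, (S k w).card ≤ Nn k) (_ : Pb p (fun ω => ¬ Bν ω) ≤ c₀)
    (_ : 0 < ρ0) (_ : ρ0 ≤ 1 / 4) (_ : 0 < δ) (_ : 1 ≤ θ) (_ : θ ^ 2 * ρ0 ≤ 1 / 2)
    (_ : 0 ≤ ε) (_ : 0 ≤ εu) (_ : εu ≤ 1) (_ : 0 ≤ εg) (_ : 0 ≤ εc) (_ : εc ≤ ρ0)
    (_ : 0 ≤ ε1) (_ : 0 ≤ ε2) (_ : 0 ≤ Lq) (_ : 0 ≤ Y)
    (_ : 2 * εu + Kc * εc + θ * δ * (2 * ρ0) ≤ 1)
    (_ : θ * (3 * εu + Kc * εc) / δ ≤ ρ0)
    (_ : 2 * (2 * ε + 3 * εg + Kc * ε1 * (6 * ρ0) + Kc * Y * εc + 2 * (K * (Lq * Lq * εu)) +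
        K * (Lq * Lq * (2 * εu + Kc * εc))) + Kc * (ε1 * ρ0 +
      (7 * Y + 4 * (K * (Y * Lq)) + K * (Lq * Lq)) / ρ0 *
        (θ * (3 * εu + Kc * εc) / δ)) + 1 ≤ Kν)
    (_ : ∀ k < n, a k ≤ b k ∧ Kν ≤ 2 ^ a k ∧ 0 < V k ∧ V (k + 1) ≤ 2 ^ b k ∧
      (C₀ : ℝ) * Nn k * 2 ^ a k ≤ ρ ^ C₀ * V k ∧ (C₀ : ℝ) * Nn k ≤ ρ ^ C₀ * M)
    (_ : 2 * (6 * Y + 4 * (K * (Y * Lq)) + K * (Lq * Lq)) ≤ V n)
    (_ : Kc * (θ / δ) * (V 0 / ρ0 + ((7 * Y + 4 * (K * (Y * Lq)) + K * (Lq * Lq)) / ρ0 ^ 2 +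
        ε1) * (θ * (3 * εu + Kc * εc) / δ) + ε1) +
      2 * ((2 * εg + K * (Lq * Lq * εu)) * θ / δ + K * (Lq * Lq * εu)) +
      2 * (Kc * ε1) * θ / δ + K * (Lq * Lq * εu) + K * (Lq * Lq * (2 * εu + Kc * εc)) +
      Kc * ε2 * (6 * ρ0) + 2 * (Kc * (K * (Lq * Lq) + ε2) * εc) ≤ Gb)
    {E₁ E₂ : ℝ}
    (_ : c₀ + 28 * η + n * ((eT + ((N + 1 + 2) * e₁ + (N + 1 + 1) * e₀ + 2 * e₂ +
        (N + 1) * e₃ + e₄ + e₅) + Real.log 2) / Real.log (1 / ρ)) ≤ E₁)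
    (_ : c₀ + 44 * η + n * ((eT + ((2 * (N + 1) + 3) * e₁ + (2 * (N + 1) + 1) * e₀ + 2 * e₂ +
        2 * (N + 1) * e₃ + e₄ + e₅ + e₆ + e₇) + Real.log 2) / Real.log (1 / ρ)) ≤ E₂)
    (sc : ℝ) (_ : 0 < sc) (Kf Nf : ℕ)
    (_ : (5 * Gb + 2 * ((2 * Gb * (θ * δ) + nat) / δ')) / sc + 1 ≤ Kf)
    (_ : ∀ ω, 0 < p ω → |⌊cs ω / sc⌋| ≤ (Nf : ℤ)),
    Pb (cpn p zp 1) (fun v => ¬ |cs (v 0) - cs (v 1)| ≤
      5 * Gb + 2 * ((2 * Gb * (θ * δ) + nat) / δ')) ≤ E₂ + 14 * E₁ ∧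
    CH p (fun ω => ⌊cs ω / sc⌋) zp ≤ Real.log 2 + Real.log (2 * Kf + 1) +
      (E₂ + 14 * E₁) * Real.log (2 * Nf + 1) := by
  classical
  obtain ⟨K₁, C₁, hK₁, hC₁, hsl⟩ := sl_pair D
  obtain ⟨K₂, C₂, hK₂, hC₂, hch⟩ := chn_pair D
  refine ⟨K₁ + K₂, C₁ + C₂, by linarith, by omega, ?_⟩
  intro Ω Λ E Z Z' R Rd F U T T' X' G Y' _ N K X hdeg p hp zq zp zr zd hdp f J ufar T0 tl xc xj
    cc M hM cF cU cJ cm e₀ e₁ e₂ e₃ e₄ e₅ e₆ e₇ eT HE HC ρ0 ε εu εg ε1 ε2 δ θ Lq Y εc η hcc hS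
    hSt hGe hPr cs nat δ' hδ' hnat Bν S n Nn a b V c₀ ρ Kν Gb hρ hρ1 hCM hrow hcard hB h0 h1 hδ
    hθ hθρ hε0 hu0 hu hεg hεc0 hεc hε1 hε2 hLq hY hd hηρ hKν hnum htopn hGn E₁ E₂ hE₁ hE₂ sc
    hsc Kf Nf hKf hNf
  have hθ0 : 0 < θ := by linarith
  have hK0 : (0 : ℝ) ≤ K := Nat.cast_nonneg K
  have hKε : 0 ≤ (K₁ + K₂) * εc := mul_nonneg (by linarith) hεc0
  have hη0 : 0 ≤ η := (Pool.MIC.Pb_nonneg hp.nonneg _).trans hS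
  have hc0 : 0 ≤ c₀ := (Pool.MIC.Pb_nonneg hp.nonneg _).trans hB
  have hlr : 0 < Real.log (1 / ρ) := Real.log_pos (by rw [lt_div_iff₀ hρ]; linarith)
  have hV0 : 0 ≤ V 0 := by
    rcases Nat.eq_zero_or_pos n with hn | hn
    · rw [hn] at htopn
      refine le_trans (by positivity) htopn
    · exact (hnum 0 hn).2.2.1.le
  -- the constants
  have hpw : ∀ C : ℕ, C ≤ C₁ + C₂ → ρ ^ (C₁ + C₂) ≤ ρ ^ C := fun C hC =>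
    pow_le_pow_of_le_one hρ.le hρ1.le hC
  have hcM : ∀ C : ℕ, C ≤ C₁ + C₂ → (C : ℝ) ≤ ρ ^ C * (2 * M + 1) := by
    intro C hC
    have e1 : (C : ℝ) ≤ ((C₁ + C₂ : ℕ) : ℝ) := by exact_mod_cast hC
    refine e1.trans (hCM.trans (mul_le_mul_of_nonneg_right (hpw C hC) (by positivity)))
  have hnum' : ∀ C : ℕ, C ≤ C₁ + C₂ → ∀ K' : ℝ, K' ≤ Kν →
      ∀ k < n, a k ≤ b k ∧ K' ≤ 2 ^ a k ∧ 0 < V k ∧ V (k + 1) ≤ 2 ^ b k ∧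
      (C : ℝ) * Nn k * 2 ^ a k ≤ ρ ^ C * V k ∧ (C : ℝ) * Nn k ≤ ρ ^ C * M := by
    intro C hC K' hK' k hk
    obtain ⟨n1, n2, n3, n4, n5, n6⟩ := hnum k hk
    have e1 : (C : ℝ) ≤ ((C₁ + C₂ : ℕ) : ℝ) := by exact_mod_cast hC
    refine ⟨n1, hK'.trans n2, n3, n4, ?_, ?_⟩
    · refine le_trans ?_ (n5.trans (mul_le_mul_of_nonneg_right (hpw C hC) n3.le))
      exact mul_le_mul_of_nonneg_right (mul_le_mul_of_nonneg_right e1 (Nat.cast_nonneg _))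
        (by positivity)
    · refine le_trans ?_ (n6.trans (mul_le_mul_of_nonneg_right (hpw C hC) (Nat.cast_nonneg _)))
      exact mul_le_mul_of_nonneg_right e1 (Nat.cast_nonneg _)
  -- names
  obtain ⟨Kc, hKc⟩ : ∃ Kc, Kc = K₁ + K₂ := ⟨_, rfl⟩
  have hK1c : K₁ ≤ Kc := by rw [hKc]; linarith
  have hK2c : K₂ ≤ Kc := by rw [hKc]; linarith
  have hKc0 : 0 ≤ Kc := by linarith
  rw [← hKc] at hd hηρ hKν hGn hKε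
  -- the chain
  have hcc2 := hch Kc hK2c X hdeg hp zq zp zr f J ufar T0 tl xc xj cc hM HE HC hcc hS hSt hGe hPr
    Bν S n Nn a b V hρ hρ1 (hcM C₂ (by omega)) hrow hcard hB h0 h1 hδ hθ hθρ hu0 hu hεg hεc0
    hεc hε1 hε2 hLq hY hd hηρ hKν (hnum' C₂ (by omega) Kν le_rfl) htopn hGn
  obtain ⟨Xc, hXc⟩ : ∃ Xc, Xc = 7 * Y + 4 * (K * (Y * Lq)) + K * (Lq * Lq) := ⟨_, rfl⟩
  have hYL : 0 ≤ K * (Y * Lq) := by positivity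
  have hLL : 0 ≤ K * (Lq * Lq) := by positivity
  have hXc0 : 0 ≤ Xc := by
    rw [hXc]
    positivity
  have hXs : 6 * Y + 2 * (K * (Y * Lq)) ≤ Xc := by
    rw [hXc]
    linarith
  obtain ⟨u, hu'⟩ : ∃ u, u = θ * (3 * εu + Kc * εc) / δ := ⟨_, rfl⟩
  have hu00 : 0 ≤ u := by
    rw [hu']
    positivity
  have hu1 : θ * (2 * εu) / δ ≤ u := by
    rw [hu']
    exact div_le_div_of_nonneg_right (mul_le_mul_of_nonneg_left (by linarith) hθ0.le) hδ.le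
  have hu3 : 0 ≤ θ * (2 * εu) / δ := by positivity
  rw [← hXc, ← hu'] at hKν hGn
  rw [← hu'] at hηρ
  have hLLu : 0 ≤ K * (Lq * Lq * εu) := by positivity
  have hLLd : 0 ≤ K * (Lq * Lq * (2 * εu + Kc * εc)) := by positivity
  have hn1 : 0 ≤ Kc * ε1 * (6 * ρ0) := by positivity
  have hn2 : 0 ≤ Kc * Y * εc := by positivity
  have hn3 : 0 ≤ 2 * (Kc * ε1) * θ / δ := by positivity
  have hn4 : 0 ≤ 2 * (Kc * (K * (Lq * Lq) + ε2) * εc) := by positivity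
  -- the star lemma
  obtain ⟨he0, hpp⟩ := hsl X hdeg hp zq zr f ufar T0 tl xc hM HE hS hSt hPr Bν S n Nn a b V
    (c₀ := c₀) (Kν := Kν) (G := Gb) hρ hρ1 (hcM C₁ (by omega)) hrow hcard hB h0 (by linarith) hδ
    hθ hθρ hu0 hu hεg hε1 hε2 hLq hY (hu1.trans hηρ) (by
      have f1 : K₁ * (ε1 * ρ0 + (6 * Y + 2 * (K * (Y * Lq))) / ρ0 * (θ * (2 * εu) / δ)) ≤
          Kc * (ε1 * ρ0 + Xc / ρ0 * u) := by
        refine mul_le_mul hK1c ?_ (by positivity) hKc0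
        refine add_le_add le_rfl (mul_le_mul (div_le_div_of_nonneg_right hXs h0.le) hu1 hu3
          (by positivity))
      linarith) (hnum' C₁ (by omega) Kν le_rfl) (by linarith) (by
      have f1 : K₁ * (θ / δ) * (V 0 / ρ0 + ((6 * Y + 2 * (K * (Y * Lq))) / ρ0 ^ 2 + ε1) *
          (θ * (2 * εu) / δ) + ε1) ≤
          Kc * (θ / δ) * (V 0 / ρ0 + (Xc / ρ0 ^ 2 + ε1) * u + ε1) := by
        refine mul_le_mul (mul_le_mul_of_nonneg_right hK1c (by positivity)) ?_ (by positivity)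
          (by positivity)
        refine add_le_add (add_le_add le_rfl (mul_le_mul (add_le_add
          (div_le_div_of_nonneg_right hXs (by positivity)) le_rfl) hu1 hu3 (by positivity)))
          le_rfl
      have f2 : K₁ * ε2 * (2 * ρ0) ≤ Kc * ε2 * (6 * ρ0) :=
        mul_le_mul (mul_le_mul_of_nonneg_right hK1c hε2) (by linarith) (by positivity)
          (by positivity)
      linarith)
  have hηE : η ≤ E₁ := by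
    have h2 : 0 ≤ n * ((eT + ((N + 1 + 2) * e₁ + (N + 1 + 1) * e₀ +
      2 * e₂ + (N + 1) * e₃ + e₄ + e₅) + Real.log 2) / Real.log (1 / ρ)) := by
      have h3 : 0 ≤ Real.log 2 := Real.log_nonneg (by norm_num)
      have h4 : 0 ≤ (eT + ((N + 1 + 2) * e₁ + (N + 1 + 1) * e₀ +
        2 * e₂ + (N + 1) * e₃ + e₄ + e₅) + Real.log 2) / Real.log (1 / ρ) :=
        div_nonneg (add_nonneg he0 h3) hlr.le
      exact mul_nonneg (Nat.cast_nonneg _) h4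
    linarith
  have hq0 := (cpn_law hp zq 1).nonneg
  have hfin := chn_cs X hp zq zp zr zd hdp cs (M := M) (θ := θ) (nat := nat) hδ hδ'
    (hpp.trans hE₁) ((Pb_mono hq0 fun v _ h hs => h ⟨hs.s0, hs.s1⟩).trans (hSt.trans hηE))
    (hnat.trans hηE) (hcc2.trans hE₂)
  refine ⟨hfin, ?_⟩
  have hp0 := (cpn_law hp zp 1).nonneg
  obtain ⟨Gf, hGf⟩ : ∃ Gf, Gf = 5 * Gb + 2 * ((2 * Gb * (θ * δ) + nat) / δ') := ⟨_, rfl⟩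
  rw [← hGf] at hfin hKf
  have hfl : Pb (cpn p zp 1) (fun v => ¬ |⌊cs (v 0) / sc⌋ - ⌊cs (v 1) / sc⌋| ≤ (Kf : ℤ)) ≤
      E₂ + 14 * E₁ := by
    refine (Pb_mono hp0 fun v _ h hs => h ?_).trans hfin
    have h2 : |cs (v 0) / sc - cs (v 1) / sc| ≤ Gf / sc := by
      rw [← sub_div, abs_div, abs_of_pos hsc]
      exact div_le_div_of_nonneg_right hs hsc.le
    have h3 : (|⌊cs (v 0) / sc⌋ - ⌊cs (v 1) / sc⌋| : ℝ) < Kf + 1 := by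
      rw [abs_lt]
      rw [abs_le] at h2
      have a1 := Int.floor_le (cs (v 0) / sc)
      have a2 := Int.lt_floor_add_one (cs (v 0) / sc)
      have a3 := Int.floor_le (cs (v 1) / sc)
      have a4 := Int.lt_floor_add_one (cs (v 1) / sc)
      constructor <;> linarith [h2.1, h2.2]
    have h4 : |⌊cs (v 0) / sc⌋ - ⌊cs (v 1) / sc⌋| < (Kf : ℤ) + 1 := by exact_mod_cast h3
    linarith
  have hfew := few_of_near hp zp (fun ω => ⌊cs ω / sc⌋) Kf (2 * Nf + 1)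
    (fun _ => Finset.Icc (-(Nf : ℤ)) Nf) (by omega) (fun ω hω => by
      have h7 := hNf ω hω
      rw [abs_le] at h7
      rw [Finset.mem_Icc]
      exact h7) (fun _ => by
      rw [Int.card_Icc]
      omega) hfl
  have h9 : ((2 * Nf + 1 : ℕ) : ℝ) = 2 * Nf + 1 := by push_cast; ring
  rw [h9] at hfew
  exact hfew

end

end Pool.NA17
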