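import Pool.Agent.H77.SL.Quo
import Pool.Agent.H55.NA.Chn

/-!
# The chain with one inner star: the relations of a configuration

`GenR`: a general star. `chW`: the conditioning, `chE0`, `chE1`, `chD0`, `chD1`: the polynomials of the
level, functions of the conditioning. `ChG`: the good configurations. `ChG.hts`: the heights, `ChG.tri`:
the relations `Tri` of the triangle.
-/

set_option autoImplicit false

namespace Pool.NA17

open Finset Polynomial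
open Pool.Agent.H49.Ent Pool.Agent.H32.Dense Pool.STK
open Pool.BFL (Pb)
open Pool.SL77

section

variable {Ω Λ E : Type} {N K : ℕ} (X : SlD Ω Λ E N K)

/-- The configurations: block `A`, general star `C`, block `B`. -/
abbrev Cfg (Ω : Type) (N : ℕ) : Type :=
  ((Fin (N + 1 + 1) → Fin 2 → Ω) × (Fin 2 → Ω)) × (Fin (N + 1 + 1) → Fin 2 → Ω)

/-- The data of the conditioning. -/
abbrev Cnd (Λ E : Type) (N : ℕ) : Type :=
  ((E × ((Fin (N + 1) → E) × (Fin (N + 1) → E))) × ℝ) × (Λ × ℝ)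

/-- **The relations of a general star.** -/
structure GenR (ρ0 : ℝ) (M : ℕ) (ε εu : ℝ) (v : Fin 2 → Ω) : Prop where
  n : |(X.nL (X.l (v 0))).eval (X.tm ρ0 M (v 0)) -
    (X.nL (X.l (v 1))).eval (X.tm ρ0 M (v 0))| ≤ ε
  u : |(X.uC (X.ell (v 0)) - X.uC (X.ell (v 1))).eval (X.tm ρ0 M (v 0))| ≤ εu

/-- The conditioning. -/
def chW (cc : Ω → ℝ) (w : Cfg Ω N) : Cnd Λ E N :=
  (((X.ell (w.2 0 0), ((fun (j : Fin (N + 1)) => X.ell (w.1.1 j.succ 1)),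
    fun (j : Fin (N + 1)) => X.ell (w.2 j.succ 1))), cc (w.1.2 0)),
    (X.l (w.1.1 0 0), X.c0 (w.1.1 0 0)))

/-- The height of `om0` over the parallel line of `om2`. -/
noncomputable def chDr (k : Cnd Λ E N) : ℝ[X] := X.uC (X.le k.2.1) - X.uC (k.1.1.2.1 0)

/-- The height of `om0` moved over the parallel line of `om3`. -/
noncomputable def chD0 (k : Cnd Λ E N) : ℝ[X] :=
  chDr X k + C ((X.uC (k.1.1.2.1 0) - X.uC (k.1.1.2.2 0)).eval k.1.2)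

/-- The height of `om1` over the parallel line of `om3`. -/
noncomputable def chD1 (k : Cnd Λ E N) : ℝ[X] := X.uC k.1.1.1 - X.uC (k.1.1.2.2 0)

/-- The term of the inner star. -/
noncomputable def chM (k : Cnd Λ E N) : ℝ[X] :=
  C ((X.gC (k.1.1.2.1 0) - X.gC (k.1.1.2.2 0)).eval k.1.2) +
    Qc (X.qk k.1.1.2.1) (fun i => C ((X.ck k.1.1.2.1 i).eval k.1.2)) (chDr X k) -
    Qc (X.qk k.1.1.2.2) (fun i => C ((X.ck k.1.1.2.2 i).eval k.1.2)) (chD0 X k)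

noncomputable def chE0 (k : Cnd Λ E N) : ℝ[X] :=
  X.nL k.2.1 - X.gC (k.1.1.2.1 0) - Qc (X.qk k.1.1.2.1) (X.ck k.1.1.2.1) (chDr X k) + chM X k

noncomputable def chE1 (k : Cnd Λ E N) : ℝ[X] :=
  X.gC k.1.1.1 - X.gC (k.1.1.2.2 0) - Qc (X.qk k.1.1.2.2) (X.ck k.1.1.2.2) (chD1 X k)

/-- The height of the second line of a block over its base parallel line. -/
noncomputable def blh (V : Fin (N + 1 + 1) → Fin 2 → Ω) : ℝ :=
  (X.uC (X.ell (V 0 1)) - X.uC (X.ell (V (Fin.succ 0) 1))).eval 0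

/-- The error of the parallel lines of a block. -/
noncomputable def ble (V : Fin (N + 1 + 1) → Fin 2 → Ω) : ℝ[X] :=
  X.nL (X.l (V 0 1)) - X.nL (X.l (V (Fin.succ 0) 1)) -
    Qh (X.qk fun j => X.ell (V j.succ 1)) (X.ck fun j => X.ell (V j.succ 1)) (blh X V)

theorem chDr_deg {D : ℕ} (h : X.Deg D) (k : Cnd Λ E N) : (chDr X k).natDegree ≤ D :=
  (natDegree_sub_le _ _).trans (max_le (h.u _) (h.u _))

theorem chD0_deg {D : ℕ} (h : X.Deg D) (k : Cnd Λ E N) : (chD0 X k).natDegree ≤ D :=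
  (natDegree_add_le _ _).trans (max_le (chDr_deg X h k) (by rw [natDegree_C]; exact Nat.zero_le _))

theorem chD1_deg {D : ℕ} (h : X.Deg D) (k : Cnd Λ E N) : (chD1 X k).natDegree ≤ D :=
  (natDegree_sub_le _ _).trans (max_le (h.u _) (h.u _))

theorem chE0_deg {D : ℕ} (h : X.Deg D) (k : Cnd Λ E N) : (chE0 X k).natDegree ≤ D * D + D := by
  have h2 : D ≤ D * D + D := Nat.le_add_left _ _
  have h3 : ∀ (q : (Fin K → ℝ[X])) (c : Fin K → ℝ[X]) (r : ℝ) (P : ℝ[X]),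
      (∀ i, (q i).natDegree ≤ D) → P.natDegree ≤ D →
      (Qc q (fun i => C ((c i).eval r)) P).natDegree ≤ D * D + D := fun q c r P hq hP =>
    Qc_deg hq (fun i => by rw [natDegree_C]; exact Nat.zero_le _) hP
  refine (natDegree_add_le _ _).trans (max_le ?_ ?_)
  · refine (natDegree_sub_le _ _).trans (max_le ?_ (Qc_deg (h.q _) (h.c _) (chDr_deg X h k)))
    exact ((natDegree_sub_le _ _).trans (max_le (h.n _) (h.g _))).trans h2
  · refine (natDegree_sub_le _ _).trans (max_le ?_ (h3 _ _ _ _ (h.q _) (chD0_deg X h k)))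
    refine (natDegree_add_le _ _).trans (max_le (by rw [natDegree_C]; exact Nat.zero_le _)
      (h3 _ _ _ _ (h.q _) (chDr_deg X h k)))

theorem chE1_deg {D : ℕ} (h : X.Deg D) (k : Cnd Λ E N) : (chE1 X k).natDegree ≤ D * D + D := by
  have h2 : D ≤ D * D + D := Nat.le_add_left _ _
  refine (natDegree_sub_le _ _).trans (max_le ?_ (Qc_deg (h.q _) (h.c _) (chD1_deg X h k)))
  exact ((natDegree_sub_le _ _).trans (max_le (h.g _) (h.g _))).trans h2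

theorem ble_deg {D : ℕ} (h : X.Deg D) (V : Fin (N + 1 + 1) → Fin 2 → Ω) :
    (ble X V).natDegree ≤ D := by
  refine ((natDegree_sub_le _ _).trans (max_le ?_ (Qh_deg (h.c _) _)))
  exact (natDegree_sub_le _ _).trans (max_le (h.n _) (h.n _))

/-- **The good configurations.** -/
structure ChG (cc : Ω → ℝ) (ρ0 : ℝ) (M : ℕ) (ε εu εg ε1 ε2 δ θ Lq Y εc : ℝ)
    (w : Cfg Ω N) : Prop where
  hl0 : X.l (w.1.1 0 1) = X.l (w.1.2 0)
  hc0 : X.c0 (w.1.1 0 1) = X.c0 (w.1.2 0)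
  hl1 : X.l (w.1.2 1) = X.l (w.2 0 1)
  hc1 : X.c0 (w.1.2 1) = X.c0 (w.2 0 1)
  hcA : X.c0 (w.1.1 0 1) = X.c0 (w.1.1 0 0)
  htA : X.t (w.1.1 0 1) = X.t (w.1.1 0 0)
  hcB : X.c0 (w.2 0 1) = X.c0 (w.2 0 0)
  htB : X.t (w.2 0 1) = X.t (w.2 0 0)
  hcC : X.c0 (w.1.2 1) = X.c0 (w.1.2 0)
  htC : X.t (w.1.2 1) = X.t (w.1.2 0)
  hc : |X.c0 (w.1.1 0 0)| ≤ 1
  tA : |(X.t (w.1.1 0 0) : ℝ) / M| ≤ 1
  tB : |(X.t (w.2 0 0) : ℝ) / M| ≤ 1
  tC : |(X.t (w.1.2 0) : ℝ) / M| ≤ 1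
  cb : |cc (w.1.2 0) - X.tm ρ0 M (w.1.2 0)| ≤ εc
  s0 : SamR X εg Y (w.1.1 0 0)
  s1 : SamR X εg Y (w.2 0 0)
  s2 : SamR X εg Y (w.1.1 0 1)
  s3 : SamR X εg Y (w.2 0 1)
  sr : SamR X εg Y (w.1.1 (Fin.succ 0) 1)
  sq : SamR X εg Y (w.2 (Fin.succ 0) 1)
  stA : StarR X ρ0 M ε εu δ θ (w.1.1 0)
  stB : StarR X ρ0 M ε εu δ θ (w.2 0)
  gen : GenR X ρ0 M ε εu w.1.2
  prA : ParR X ε1 ε2 Lq Y (fun j => w.1.1 j 1)
  prB : ParR X ε1 ε2 Lq Y (fun j => w.2 j 1)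

variable {X} {cc : Ω → ℝ} {ρ0 : ℝ} {M : ℕ} {ε εu εg ε1 ε2 δ θ Lq Y εc : ℝ} {w : Cfg Ω N}

/-- The times. -/
theorem ChG.times (H : ChG X cc ρ0 M ε εu εg ε1 ε2 δ θ Lq Y εc w) (h0 : 0 < ρ0)
    (h1 : ρ0 ≤ 1 / 4) (hεc : εc ≤ ρ0) :
    (|X.tm ρ0 M (w.1.1 0 0) - X.c0 (w.1.1 0 0)| ≤ ρ0 ∧
    |X.tm ρ0 M (w.2 0 0) - X.c0 (w.1.1 0 0)| ≤ ρ0 ∧
    |X.tm ρ0 M (w.1.2 0) - X.c0 (w.1.1 0 0)| ≤ ρ0 ∧
    |cc (w.1.2 0) - X.c0 (w.1.1 0 0)| ≤ 2 * ρ0) ∧
    (|X.tm ρ0 M (w.1.1 0 0)| ≤ 3 / 2 ∧ |X.tm ρ0 M (w.2 0 0)| ≤ 3 / 2 ∧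
      |X.tm ρ0 M (w.1.2 0)| ≤ 3 / 2 ∧ |cc (w.1.2 0)| ≤ 3 / 2) ∧
    X.tm ρ0 M (w.1.1 0 1) = X.tm ρ0 M (w.1.1 0 0) ∧
    X.tm ρ0 M (w.2 0 1) = X.tm ρ0 M (w.2 0 0) ∧
    X.tm ρ0 M (w.1.2 1) = X.tm ρ0 M (w.1.2 0) := by
  have eB : X.c0 (w.2 0 0) = X.c0 (w.1.1 0 0) := by
    rw [← H.hcB, ← H.hc1, H.hcC, ← H.hc0, H.hcA]
  have eC : X.c0 (w.1.2 0) = X.c0 (w.1.1 0 0) := by rw [← H.hc0, H.hcA]
  have hgen : ∀ ω : Ω, X.c0 ω = X.c0 (w.1.1 0 0) → |(X.t ω : ℝ) / M| ≤ 1 →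
      |X.tm ρ0 M ω - X.c0 (w.1.1 0 0)| ≤ ρ0 := by
    intro ω h2 h3
    unfold SlD.tm
    rw [h2, add_sub_cancel_left, abs_mul, abs_of_pos h0]
    calc ρ0 * |(X.t ω : ℝ) / M| ≤ ρ0 * 1 := mul_le_mul_of_nonneg_left h3 h0.le
      _ = ρ0 := mul_one _
  have a1 := hgen _ rfl H.tA
  have a2 := hgen _ eB H.tB
  have a3 := hgen _ eC H.tC
  have a4 : |cc (w.1.2 0) - X.c0 (w.1.1 0 0)| ≤ 2 * ρ0 := by
    have e1 : cc (w.1.2 0) - X.c0 (w.1.1 0 0) = (cc (w.1.2 0) - X.tm ρ0 M (w.1.2 0)) +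
      (X.tm ρ0 M (w.1.2 0) - X.c0 (w.1.1 0 0)) := by ring
    rw [e1]
    refine (abs_add_le _ _).trans ?_
    have := H.cb
    linarith
  have hb : ∀ x : ℝ, |x - X.c0 (w.1.1 0 0)| ≤ 2 * ρ0 → |x| ≤ 3 / 2 := by
    intro x hx
    have h2 := abs_add_le (x - X.c0 (w.1.1 0 0)) (X.c0 (w.1.1 0 0))
    rw [sub_add_cancel] at h2
    have := H.hc
    linarith
  refine ⟨⟨a1, a2, a3, a4⟩, ⟨hb _ (by linarith), hb _ (by linarith), hb _ (by linarith),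
    hb _ a4⟩, ?_, ?_, ?_⟩
  · unfold SlD.tm
    rw [H.hcA, H.htA]
  · unfold SlD.tm
    rw [H.hcB, H.htB]
  · unfold SlD.tm
    rw [H.hcC, H.htC]

/-- The height at the two ends of a line parallel to another one. -/
theorem par_eval {P Q : ℝ[X]} (h : derivative (P - Q) = 0) (x : ℝ) :
    P.eval x - Q.eval x = (P - Q).eval 0 := by
  rw [← eval_sub]
  exact eval_const h x 0

/-- **The heights.** -/
theorem ChG.hts {D : ℕ} (hdeg : X.Deg D) {K₁ : ℝ}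
    (hK₁ : ∀ (q : ℝ[X]) (x ρ S : ℝ), q.natDegree ≤ D →
      0 < ρ → (∀ s : ℝ, |s - x| ≤ ρ → |q.eval s| ≤ S) → ∀ s : ℝ, |s - x| ≤ 3 * ρ →
        |q.eval s| ≤ K₁ * S ∧ |(derivative q).eval s| ≤ K₁ * S / ρ)
    (H : ChG X cc ρ0 M ε εu εg ε1 ε2 δ θ Lq Y εc w) (h0 : 0 < ρ0)
    (h1 : ρ0 ≤ 1 / 4) (hεc : εc ≤ ρ0) :
    |(chDr X (chW X cc w)).eval (X.tm ρ0 M (w.1.1 0 0)) - blh X w.1.1| ≤ εu ∧
    |(chD0 X (chW X cc w)).eval (X.tm ρ0 M (w.1.1 0 0)) - blh X w.2| ≤ 2 * εu + K₁ * εc ∧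
    |(chD1 X (chW X cc w)).eval (X.tm ρ0 M (w.2 0 0)) - blh X w.2| ≤ εu ∧
    derivative (derivative (chDr X (chW X cc w))) = 0 ∧
    derivative (derivative (chD0 X (chW X cc w))) = 0 ∧
    derivative (derivative (chD1 X (chW X cc w))) = 0 ∧
    (∀ x, (derivative (chDr X (chW X cc w))).eval x =
      X.vU ρ0 M (w.1.1 0 0) - X.vU ρ0 M (w.1.1 0 1)) ∧
    (∀ x, (derivative (chD0 X (chW X cc w))).eval x =
      X.vU ρ0 M (w.1.1 0 0) - X.vU ρ0 M (w.1.1 0 1)) ∧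
    ∀ x, (derivative (chD1 X (chW X cc w))).eval x =
      X.vU ρ0 M (w.2 0 0) - X.vU ρ0 M (w.2 0 1) := by
  obtain ⟨-, ⟨tA, tB, tT, tc⟩, eA, eB, eC⟩ := H.times h0 h1 hεc
  have er : chDr X (chW X cc w) = (X.uC (X.ell (w.1.1 0 0)) - X.uC (X.ell (w.1.1 0 1))) +
      (X.uC (X.ell (w.1.1 0 1)) - X.uC (X.ell (w.1.1 (Fin.succ 0) 1))) := by
    unfold chDr chW SlD.ell
    ring
  have e1 : chD1 X (chW X cc w) = (X.uC (X.ell (w.2 0 0)) - X.uC (X.ell (w.2 0 1))) +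
      (X.uC (X.ell (w.2 0 1)) - X.uC (X.ell (w.2 (Fin.succ 0) 1))) := by
    unfold chD1 chW
    ring
  have hpA : derivative (X.uC (X.ell (w.1.1 0 1)) - X.uC (X.ell (w.1.1 (Fin.succ 0) 1))) = 0 :=
    H.prA.h
  have hpB : derivative (X.uC (X.ell (w.2 0 1)) - X.uC (X.ell (w.2 (Fin.succ 0) 1))) = 0 :=
    H.prB.h
  have hr0 : derivative (derivative (chDr X (chW X cc w))) = 0 := by
    rw [er, derivative_add, hpA, add_zero]
    exact H.stA.a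
  have h10 : derivative (derivative (chD1 X (chW X cc w))) = 0 := by
    rw [e1, derivative_add, hpB, add_zero]
    exact H.stB.a
  have h00 : derivative (chD0 X (chW X cc w)) = derivative (chDr X (chW X cc w)) := by
    unfold chD0
    rw [derivative_add, derivative_C, add_zero]
  have gr : |(chDr X (chW X cc w)).eval (X.tm ρ0 M (w.1.1 0 0)) - blh X w.1.1| ≤ εu := by
    rw [er, eval_add]
    have h2 := eval_const hpA (X.tm ρ0 M (w.1.1 0 0)) 0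
    unfold blh
    rw [h2, add_sub_cancel_right]
    exact H.stA.u
  have vr : ∀ x, (derivative (chDr X (chW X cc w))).eval x =
      X.vU ρ0 M (w.1.1 0 0) - X.vU ρ0 M (w.1.1 0 1) := by
    intro x
    rw [eval_const hr0 x (X.tm ρ0 M (w.1.1 0 0)), er, derivative_add, hpA, add_zero,
      derivative_sub, eval_sub]
    unfold SlD.vU
    rw [eA]
  refine ⟨gr, ?_, ?_, hr0, by rw [h00]; exact hr0, h10, vr, fun x => by rw [h00]; exact vr x,
    ?_⟩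
  · -- the height over the second parallel line
    obtain ⟨T, hT⟩ : ∃ T, T = X.tm ρ0 M (w.1.2 0) := ⟨_, rfl⟩
    obtain ⟨P, hP⟩ : ∃ P : ℝ[X], P = X.uC (X.ell (w.1.1 (Fin.succ 0) 1)) -
      X.uC (X.ell (w.2 (Fin.succ 0) 1)) := ⟨_, rfl⟩
    have k0 : (chD0 X (chW X cc w)).eval (X.tm ρ0 M (w.1.1 0 0)) =
        (chDr X (chW X cc w)).eval (X.tm ρ0 M (w.1.1 0 0)) + P.eval (cc (w.1.2 0)) := by
      unfold chD0
      rw [eval_add, eval_C, hP]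
      rfl
    have k1 := par_eval hpA T
    have k2 := par_eval hpB T
    have k3 : P.eval T = (X.uC (X.ell (w.1.1 (Fin.succ 0) 1))).eval T -
        (X.uC (X.ell (w.2 (Fin.succ 0) 1))).eval T := by
      rw [hP, eval_sub]
    have k4 : |(X.uC (X.ell (w.1.1 0 1))).eval T - (X.uC (X.ell (w.2 0 1))).eval T| ≤ εu := by
      have := H.gen.u
      rw [eval_sub, ← hT] at this
      unfold SlD.ell at this ⊢
      rw [H.hl0, ← H.hl1]
      exact this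
    have k5 : |P.eval (cc (w.1.2 0)) - P.eval T| ≤ K₁ * εc := by
      have hPd : P.natDegree ≤ D := by
        rw [hP]
        exact (natDegree_sub_le _ _).trans (max_le (hdeg.u _) (hdeg.u _))
      have hPb : ∀ s : ℝ, |s| ≤ 2 → |(derivative P).eval s| ≤ K₁ := by
        intro s hs
        have h2 := (hK₁ P 0 2 2 hPd (by norm_num) (fun s hs => by
          rw [sub_zero] at hs
          rw [hP, eval_sub]
          refine (abs_sub _ _).trans ?_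
          have := H.sr.b3 s (by linarith)
          have := H.sq.b3 s (by linarith)
          linarith) s (by rw [sub_zero]; linarith)).2
        refine h2.trans (le_of_eq (by ring))
      have hcT : |cc (w.1.2 0) - T| ≤ εc := by
        rw [hT]
        exact H.cb
      have hY0 : 0 ≤ K₁ := (abs_nonneg _).trans (hPb 0 (by rw [abs_zero]; norm_num))
      refine (mvt P (a := T) (b := cc (w.1.2 0)) (M := K₁) fun s hs => hPb s ?_).trans
        (mul_le_mul_of_nonneg_left hcT hY0)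
      have h2 := abs_add_le (s - T) T
      rw [sub_add_cancel] at h2
      rw [hT] at h2 hs hcT
      rw [hT] at *
      linarith
    have k6 : (chD0 X (chW X cc w)).eval (X.tm ρ0 M (w.1.1 0 0)) - blh X w.2 =
        ((chDr X (chW X cc w)).eval (X.tm ρ0 M (w.1.1 0 0)) - blh X w.1.1) +
        ((X.uC (X.ell (w.1.1 0 1))).eval T - (X.uC (X.ell (w.2 0 1))).eval T) +
        (P.eval (cc (w.1.2 0)) - P.eval T) := by
      rw [k0, k3]
      have a1 : blh X w.1.1 = (X.uC (X.ell (w.1.1 0 1)) -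
        X.uC (X.ell (w.1.1 (Fin.succ 0) 1))).eval 0 := rfl
      have a2 : blh X w.2 = (X.uC (X.ell (w.2 0 1)) -
        X.uC (X.ell (w.2 (Fin.succ 0) 1))).eval 0 := rfl
      rw [a1, a2, ← k1, ← k2]
      ring
    rw [k6]
    refine (abs_add_le _ _).trans (add_le_add ((abs_add_le _ _).trans ?_) k5)
    linarith
  · rw [e1, eval_add]
    have h2 := eval_const hpB (X.tm ρ0 M (w.2 0 0)) 0
    unfold blh
    rw [h2, add_sub_cancel_right]
    exact H.stB.u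
  · intro x
    rw [eval_const h10 x (X.tm ρ0 M (w.2 0 0)), e1, derivative_add, hpB, add_zero,
      derivative_sub, eval_sub]
    unfold SlD.vU
    rw [eB]

end

end Pool.NA17
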