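import Pool.Agent.H17.NA.Chf

/-!
# The chain with one inner star: the triangle of a configuration

`ChG.crude`: crude bounds of the errors. `ChG.tri`: the relations `Tri` of the triangle. `ChG.top`: the
crude bound of the level polynomial.
-/

set_option autoImplicit false

namespace Pool.NA17

open Finset Polynomial
open Pool.Agent.H49.Ent Pool.Agent.H32.Dense Pool.STK
open Pool.BFL (Pb)
open Pool.SL77

/-- The Markov constant. -/
def Mkv (D : ℕ) (K₁ : ℝ) : Prop := ∀ (q : ℝ[X]) (x ρ S : ℝ), q.natDegree ≤ D →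
    0 < ρ → (∀ s : ℝ, |s - x| ≤ ρ → |q.eval s| ≤ S) → ∀ s : ℝ, |s - x| ≤ 3 * ρ →
      |q.eval s| ≤ K₁ * S ∧ |(derivative q).eval s| ≤ K₁ * S / ρ

/-- Increments of a polynomial which is small on `[-1, 1]`. -/
theorem Mkv.inc {D : ℕ} {K₁ : ℝ} (hK₁ : Mkv D K₁) {P : ℝ[X]} (hP : P.natDegree ≤ D) {S x y r : ℝ}
    (hS : ∀ s : ℝ, |s| ≤ 1 → |P.eval s| ≤ S) (hy : |y| ≤ 3 / 2)
    (hr : |x - y| ≤ r) (hr1 : r ≤ 3 / 2) : |P.eval x - P.eval y| ≤ K₁ * S * r := by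
  have hd : ∀ s : ℝ, |s| ≤ 3 → |(derivative P).eval s| ≤ K₁ * S := fun s hs => by
    have := (hK₁ P 0 1 S hP one_pos (fun s hs => hS s (by rwa [sub_zero] at hs)) s (by
      rw [sub_zero]
      linarith)).2
    rwa [div_one] at this
  have h0 : 0 ≤ K₁ * S := (abs_nonneg _).trans (hd 0 (by rw [abs_zero]; norm_num))
  refine (mvt P (a := y) (b := x) (M := K₁ * S) fun s hs => hd s ?_).trans
    (mul_le_mul_of_nonneg_left hr h0)
  have h1 := abs_add_le (s - y) y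
  rw [sub_add_cancel] at h1
  linarith

theorem Mkv.der {D : ℕ} {K₁ : ℝ} (hK₁ : Mkv D K₁) {P : ℝ[X]} (hP : P.natDegree ≤ D) {S x : ℝ}
    (hS : ∀ s : ℝ, |s| ≤ 1 → |P.eval s| ≤ S) (hx : |x| ≤ 3) :
    |(derivative P).eval x| ≤ K₁ * S := by
  have := (hK₁ P 0 1 S hP one_pos (fun s hs => hS s (by rwa [sub_zero] at hs)) x (by
      rw [sub_zero]
      linarith)).2
  rwa [div_one] at this

/-- Crude increments. -/
theorem Mkv.crd {D : ℕ} {K₁ : ℝ} (hK₁ : Mkv D K₁) {P Q : ℝ[X]} (hP : P.natDegree ≤ D)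
    (hQ : Q.natDegree ≤ D) {Y x y r : ℝ} (hPb : ∀ s : ℝ, |s| ≤ 4 → |P.eval s| ≤ Y)
    (hQb : ∀ s : ℝ, |s| ≤ 4 → |Q.eval s| ≤ Y) (hy : |y| ≤ 3 / 2)
    (hr : |x - y| ≤ r) (hr1 : r ≤ 1 / 2) :
    |(P.eval x - Q.eval x) - (P.eval y - Q.eval y)| ≤ K₁ * Y * r := by
  have hd : ∀ s : ℝ, |s| ≤ 2 → |(derivative (P - Q)).eval s| ≤ K₁ * Y := by
    intro s hs
    have h2 := (hK₁ (P - Q) 0 2 (2 * Y) ((natDegree_sub_le _ _).trans (max_le hP hQ))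
      (by norm_num) (fun s hs => by
        rw [sub_zero] at hs
        rw [eval_sub]
        refine (abs_sub _ _).trans ?_
        have := hPb s (by linarith)
        have := hQb s (by linarith)
        linarith) s (by rw [sub_zero]; linarith)).2
    refine h2.trans (le_of_eq (by ring))
  have h0 : 0 ≤ K₁ * Y := (abs_nonneg _).trans (hd 0 (by rw [abs_zero]; norm_num))
  have h1 := mvt (P - Q) (a := y) (b := x) (M := K₁ * Y) fun s hs => hd s (by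
    have h1 := abs_add_le (s - y) y
    rw [sub_add_cancel] at h1
    linarith)
  rw [eval_sub, eval_sub] at h1
  exact h1.trans (mul_le_mul_of_nonneg_left hr h0)

section

variable {Ω Λ E : Type} {N K : ℕ} {X : SlD Ω Λ E N K}
  {cc : Ω → ℝ} {ρ0 : ℝ} {M : ℕ} {ε εu εg ε1 ε2 δ θ Lq Y εc : ℝ} {w : Cfg Ω N}

/-- The values of the polynomials of the level. -/
theorem chE0_eval (k : Cnd Λ E N) (s : ℝ) :
    (chE0 X k).eval s = (X.nL k.2.1).eval s - (X.gC (k.1.1.2.1 0)).eval s -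
      (∑ i, (X.qk k.1.1.2.1 i).eval ((chDr X k).eval s) * (X.ck k.1.1.2.1 i).eval s) +
      (((X.gC (k.1.1.2.1 0)).eval k.1.2 - (X.gC (k.1.1.2.2 0)).eval k.1.2) +
        (∑ i, (X.qk k.1.1.2.1 i).eval ((chDr X k).eval s) * (X.ck k.1.1.2.1 i).eval k.1.2) -
        ∑ i, (X.qk k.1.1.2.2 i).eval ((chD0 X k).eval s) * (X.ck k.1.1.2.2 i).eval k.1.2) := by
  unfold chE0 chM
  rw [eval_add, eval_sub, eval_sub, eval_sub, eval_add, eval_C, Qc_eval, Qc_eval, Qc_eval,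
    eval_sub]
  have e1 : ∀ (q : Fin K → ℝ[X]) (c : Fin K → ℝ[X]) (y r : ℝ),
      ∑ i, (q i).eval y * (C ((c i).eval r)).eval s = ∑ i, (q i).eval y * (c i).eval r := by
    intro q c y r
    exact Finset.sum_congr rfl fun i _ => by rw [eval_C]
  rw [e1, e1]

/-- The crude bound of a sum. -/
theorem sum_crd {q c : Fin K → ℝ[X]} {y s a b : ℝ} (ha : 0 ≤ a) (hq : ∀ k, |(q k).eval y| ≤ a)
    (hc : ∀ k, |(c k).eval s| ≤ b) : |∑ k, (q k).eval y * (c k).eval s| ≤ K * (a * b) := by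
  refine (Finset.abs_sum_le_sum_abs _ _).trans ?_
  refine (Finset.sum_le_sum (g := fun _ => a * b) fun k _ => ?_).trans ?_
  · rw [abs_mul]
    exact mul_le_mul (hq k) (hc k) (abs_nonneg _) ha
  · rw [Finset.sum_const, Finset.card_univ, Fintype.card_fin, nsmul_eq_mul]

/-- **The crude bounds of the errors.** -/
theorem ChG.crude {D : ℕ} (hdeg : X.Deg D) {K₁ : ℝ} (hK₁ : Mkv D K₁)
    (H : ChG X cc ρ0 M ε εu εg ε1 ε2 δ θ Lq Y εc w) (h0 : 0 < ρ0)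
    (h1 : ρ0 ≤ 1 / 4) (hεc : εc ≤ ρ0) (hd : 2 * εu + K₁ * εc + θ * δ * (2 * ρ0) ≤ 1) :
    (∀ s : ℝ, |s - X.tm ρ0 M (w.1.1 0 0)| ≤ 2 * ρ0 →
      |(chE0 X (chW X cc w)).eval s| ≤ 4 * Y + 3 * (K * (Y * Lq)) + K * (Lq * Lq)) ∧
    (∀ s : ℝ, |s| ≤ 4 → |(chE1 X (chW X cc w)).eval s| ≤ 2 * Y + K * (Y * Lq)) ∧
    (∀ s : ℝ, |s| ≤ 4 → |(ble X w.2).eval s| ≤ 2 * Y + K * (Y * Lq)) ∧
    |(X.nL (X.l (w.2 (Fin.succ 0) 1))).eval 0| ≤ Y := by
  obtain ⟨⟨t1, t2, t3, t4⟩, ⟨u1, u2, u3, u4⟩, eA, eB, eC⟩ := H.times h0 h1 hεc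
  obtain ⟨g1, g2, g3, g4, g5, g6, g7, g8, g9⟩ := H.hts hdeg hK₁ h0 h1 hεc
  have hY0 : 0 ≤ Y := (abs_nonneg _).trans (H.s0.b1 0 (by rw [abs_zero]; norm_num))
  have hqA := H.prA.qy
  have hqB := H.prB.qy
  have hbA := H.prA.qb
  have hbB := H.prB.qb
  -- the heights
  have hDr : ∀ s : ℝ, |s| ≤ 4 → |(chDr X (chW X cc w)).eval s| ≤ 2 := fun s hs => by
    unfold chDr chW
    rw [eval_sub]
    refine (abs_sub _ _).trans ?_
    have a1 := H.s0.b3 s hs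
    have a2 := H.sr.b3 s hs
    unfold SlD.ell at a1 a2 ⊢
    linarith
  have hD1 : ∀ s : ℝ, |s| ≤ 4 → |(chD1 X (chW X cc w)).eval s| ≤ 2 := fun s hs => by
    unfold chD1 chW
    rw [eval_sub]
    refine (abs_sub _ _).trans ?_
    have a1 := H.s1.b3 s hs
    have a2 := H.sq.b3 s hs
    linarith
  have hhB : |blh X w.2| ≤ 2 := by
    unfold blh
    rw [eval_sub]
    refine (abs_sub _ _).trans ?_
    have a1 := H.s3.b3 0 (by rw [abs_zero]; norm_num)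
    have a2 := H.sq.b3 0 (by rw [abs_zero]; norm_num)
    linarith
  have hD0 : ∀ s : ℝ, |s - X.tm ρ0 M (w.1.1 0 0)| ≤ 2 * ρ0 →
      |(chD0 X (chW X cc w)).eval s - blh X w.2| ≤ 1 := by
    intro s hs
    have e1 := eval_aff g5 s (X.tm ρ0 M (w.1.1 0 0))
    have e2 : (chD0 X (chW X cc w)).eval s - blh X w.2 =
        ((chD0 X (chW X cc w)).eval (X.tm ρ0 M (w.1.1 0 0)) - blh X w.2) +
        (derivative (chD0 X (chW X cc w))).eval (X.tm ρ0 M (w.1.1 0 0)) *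
          (s - X.tm ρ0 M (w.1.1 0 0)) := by
      rw [e1]
      ring
    rw [e2]
    refine (abs_add_le _ _).trans ?_
    have e3 : |(derivative (chD0 X (chW X cc w))).eval (X.tm ρ0 M (w.1.1 0 0)) *
          (s - X.tm ρ0 M (w.1.1 0 0))| ≤ θ * δ * (2 * ρ0) := by
      rw [abs_mul, g8]
      exact mul_le_mul H.stA.s1 hs (abs_nonneg _) ((abs_nonneg _).trans H.stA.s1)
    linarith
  have hqB' : ∀ s : ℝ, |s - X.tm ρ0 M (w.1.1 0 0)| ≤ 2 * ρ0 →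
      ∀ k, |(X.qk (fun j => X.ell (w.2 j.succ 1)) k).eval ((chD0 X (chW X cc w)).eval s)| ≤
        Y + Lq := by
    intro s hs k
    have e1 := mvt (X.qk (fun j => X.ell (w.2 j.succ 1)) k) (a := blh X w.2)
      (b := (chD0 X (chW X cc w)).eval s) (M := Lq) fun y hy =>
        hbB.q1 k y (hy.trans (hD0 s hs))
    have e2 := hqB k (blh X w.2) hhB
    have hL0 : 0 ≤ Lq := (abs_nonneg _).trans (hbB.c0 k 0 (by rw [abs_zero]; norm_num))
    have e3 : Lq * |(chD0 X (chW X cc w)).eval s - blh X w.2| ≤ Lq * 1 :=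
      mul_le_mul_of_nonneg_left (hD0 s hs) hL0
    have e4 := abs_add_le ((X.qk (fun j => X.ell (w.2 j.succ 1)) k).eval
      ((chD0 X (chW X cc w)).eval s) -
      (X.qk (fun j => X.ell (w.2 j.succ 1)) k).eval (blh X w.2))
      ((X.qk (fun j => X.ell (w.2 j.succ 1)) k).eval (blh X w.2))
    rw [sub_add_cancel] at e4
    linarith
  have hnear : ∀ s : ℝ, |s - X.tm ρ0 M (w.1.1 0 0)| ≤ 2 * ρ0 → |s| ≤ 4 := by
    intro s hs
    have := abs_add_le (s - X.tm ρ0 M (w.1.1 0 0)) (X.tm ρ0 M (w.1.1 0 0))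
    rw [sub_add_cancel] at this
    linarith
  refine ⟨fun s hs => ?_, fun s hs => ?_, fun s hs => ?_,
    H.sq.b1 0 (by rw [abs_zero]; norm_num)⟩
  · rw [chE0_eval]
    have hs4 := hnear s hs
    have a1 : |(X.nL (X.l (w.1.1 0 0))).eval s| ≤ Y := H.s0.b1 s hs4
    have a2 : |(X.gC (X.ell (w.1.1 (Fin.succ 0) 1))).eval s| ≤ Y := H.sr.b2 s hs4
    have a3 : |(X.gC (X.ell (w.1.1 (Fin.succ 0) 1))).eval (cc (w.1.2 0))| ≤ Y :=
      H.sr.b2 _ (by linarith)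
    have a4 : |(X.gC (X.ell (w.2 (Fin.succ 0) 1))).eval (cc (w.1.2 0))| ≤ Y :=
      H.sq.b2 _ (by linarith)
    have a5 := sum_crd (y := (chDr X (chW X cc w)).eval s) (s := s) hY0
      (fun k => hqA k _ (hDr s hs4)) (fun k => hbA.c0 k s hs4)
    have a6 := sum_crd (y := (chDr X (chW X cc w)).eval s) (s := cc (w.1.2 0)) hY0
      (fun k => hqA k _ (hDr s hs4)) (fun k => hbA.c0 k (cc (w.1.2 0)) (by linarith))
    have a7 : |∑ k, (X.qk (fun j => X.ell (w.2 j.succ 1)) k).eval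
        ((chD0 X (chW X cc w)).eval s) * (X.ck (fun j => X.ell (w.2 j.succ 1)) k).eval
          (cc (w.1.2 0))| ≤ K * ((Y + Lq) * Lq) := by
      rcases Nat.eq_zero_or_pos K with hK | hK
      · subst hK
        simp
      · have hL0 : 0 ≤ Lq := (abs_nonneg _).trans (hbB.c0 ⟨0, hK⟩ 0 (by
          rw [abs_zero]; norm_num))
        exact sum_crd (by linarith) (hqB' s hs)
          (fun k => hbB.c0 k (cc (w.1.2 0)) (by linarith))
    have e1 : K * ((Y + Lq) * Lq) = K * (Y * Lq) + K * (Lq * Lq) := by ring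
    rw [e1] at a7
    have goal : |(X.nL (X.l (w.1.1 0 0))).eval s -
        (X.gC (X.ell (w.1.1 (Fin.succ 0) 1))).eval s -
        (∑ i, (X.qk (fun j => X.ell (w.1.1 j.succ 1)) i).eval ((chDr X (chW X cc w)).eval s) *
          (X.ck (fun j => X.ell (w.1.1 j.succ 1)) i).eval s) +
        (((X.gC (X.ell (w.1.1 (Fin.succ 0) 1))).eval (cc (w.1.2 0)) -
          (X.gC (X.ell (w.2 (Fin.succ 0) 1))).eval (cc (w.1.2 0))) +
        (∑ i, (X.qk (fun j => X.ell (w.1.1 j.succ 1)) i).eval ((chDr X (chW X cc w)).eval s) *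
          (X.ck (fun j => X.ell (w.1.1 j.succ 1)) i).eval (cc (w.1.2 0))) -
        ∑ i, (X.qk (fun j => X.ell (w.2 j.succ 1)) i).eval ((chD0 X (chW X cc w)).eval s) *
          (X.ck (fun j => X.ell (w.2 j.succ 1)) i).eval (cc (w.1.2 0)))| ≤
        4 * Y + 3 * (K * (Y * Lq)) + K * (Lq * Lq) := by
      rw [abs_le] at a1 a2 a3 a4 a5 a6 a7 ⊢
      constructor <;> linarith [a1.1, a1.2, a2.1, a2.2, a3.1, a3.2, a4.1, a4.2, a5.1, a5.2,
        a6.1, a6.2, a7.1, a7.2]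
    exact goal
  · unfold chE1
    rw [eval_sub, eval_sub, Qc_eval]
    have a1 : |(X.gC (X.ell (w.2 0 0))).eval s| ≤ Y := H.s1.b2 s hs
    have a2 : |(X.gC (X.ell (w.2 (Fin.succ 0) 1))).eval s| ≤ Y := H.sq.b2 s hs
    have a3 := sum_crd (y := (chD1 X (chW X cc w)).eval s) (s := s) hY0
      (fun k => hqB k _ (hD1 s hs)) (fun k => hbB.c0 k s hs)
    have goal : |(X.gC (X.ell (w.2 0 0))).eval s -
        (X.gC (X.ell (w.2 (Fin.succ 0) 1))).eval s -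
        (∑ i, (X.qk (fun j => X.ell (w.2 j.succ 1)) i).eval ((chD1 X (chW X cc w)).eval s) *
          (X.ck (fun j => X.ell (w.2 j.succ 1)) i).eval s)| ≤ 2 * Y + K * (Y * Lq) := by
      rw [abs_le] at a1 a2 a3 ⊢
      constructor <;> linarith [a1.1, a1.2, a2.1, a2.2, a3.1, a3.2]
    exact goal
  · unfold ble
    rw [eval_sub, eval_sub, Qh_eval]
    have a1 := H.s3.b1 s hs
    have a2 := H.sq.b1 s hs
    have a3 := sum_crd (y := blh X w.2) (s := s) hY0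
      (fun k => hqB k _ hhB) (fun k => hbB.c0 k s hs)
    rw [abs_le] at a1 a2 a3 ⊢
    constructor <;> linarith [a1.1, a1.2, a2.1, a2.2, a3.1, a3.2]

/-- **The value of the first error at the first meeting time.** -/
theorem ChG.val {D : ℕ} (hdeg : X.Deg D) {K₁ : ℝ} (hK₁ : Mkv D K₁)
    (H : ChG X cc ρ0 M ε εu εg ε1 ε2 δ θ Lq Y εc w) (h0 : 0 < ρ0)
    (h1 : ρ0 ≤ 1 / 4) (hεc : εc ≤ ρ0) (hd : 2 * εu + K₁ * εc ≤ 1) (hu0 : εu ≤ 1) :
    |(chE0 X (chW X cc w)).eval (X.tm ρ0 M (w.1.1 0 0)) -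
        (X.nL (X.l (w.2 (Fin.succ 0) 1))).eval 0 -
        (ble X w.2).eval (X.tm ρ0 M (w.1.1 0 0))| ≤
      2 * ε + 3 * εg + K₁ * ε1 * (6 * ρ0) + K₁ * Y * εc + 2 * (K * (Lq * Lq * εu)) +
        K * (Lq * Lq * (2 * εu + K₁ * εc)) := by
  obtain ⟨⟨t1, t2, t3, t4⟩, ⟨u1, u2, u3, u4⟩, eA, eB, eC⟩ := H.times h0 h1 hεc
  obtain ⟨g1, g2, g3, g4, g5, g6, g7, g8, g9⟩ := H.hts hdeg hK₁ h0 h1 hεc
  obtain ⟨x, hx⟩ : ∃ x, x = X.tm ρ0 M (w.1.1 0 0) := ⟨_, rfl⟩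
  obtain ⟨c, hc⟩ : ∃ c, c = cc (w.1.2 0) := ⟨_, rfl⟩
  rw [← hx] at t1 u1 g1 g2 ⊢
  rw [← hc] at t4 u4
  obtain ⟨n2, hn2⟩ : ∃ n2, n2 = X.nL (X.l (w.1.1 0 1)) := ⟨_, rfl⟩
  obtain ⟨n3, hn3⟩ : ∃ n3, n3 = X.nL (X.l (w.2 0 1)) := ⟨_, rfl⟩
  obtain ⟨nr, hnr⟩ : ∃ nr, nr = X.nL (X.l (w.1.1 (Fin.succ 0) 1)) := ⟨_, rfl⟩
  obtain ⟨nq, hnq⟩ : ∃ nq, nq = X.nL (X.l (w.2 (Fin.succ 0) 1)) := ⟨_, rfl⟩
  obtain ⟨gr, hgr⟩ : ∃ gr, gr = X.gC (X.ell (w.1.1 (Fin.succ 0) 1)) := ⟨_, rfl⟩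
  obtain ⟨gq, hgq⟩ : ∃ gq, gq = X.gC (X.ell (w.2 (Fin.succ 0) 1)) := ⟨_, rfl⟩
  have hxc : |x - c| ≤ 3 * ρ0 := by
    have := abs_sub_le x (X.c0 (w.1.1 0 0)) c
    rw [abs_sub_comm (X.c0 (w.1.1 0 0)) c] at this
    linarith
  -- the three sums
  obtain ⟨b1, -, -⟩ := qb_sum H.prA.qb (y := (chDr X (chW X cc w)).eval x) g1 hu0
    (x := x) (by linarith)
  obtain ⟨b2, -, -⟩ := qb_sum H.prA.qb (y := (chDr X (chW X cc w)).eval x) g1 hu0
    (x := c) (by linarith)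
  obtain ⟨b3, -, -⟩ := qb_sum H.prB.qb (y := (chD0 X (chW X cc w)).eval x) g2 hd
    (x := c) (by linarith)
  -- the errors of the parallel lines
  have m1 := hK₁.inc (ble_deg X hdeg w.1.1) (S := ε1) (x := x) (y := c) (r := 3 * ρ0)
    (fun s hs => H.prA.e1 s hs) u4 hxc (by linarith)
  have m2 := hK₁.inc (ble_deg X hdeg w.2) (S := ε1) (x := x) (y := c) (r := 3 * ρ0)
    (fun s hs => H.prB.e1 s hs) u4 hxc (by linarith)
  -- the inner star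
  have m3 : |n2.eval c - n3.eval c| ≤ ε + K₁ * Y * εc := by
    have h2 := hK₁.crd (P := n2) (Q := n3) (by rw [hn2]; exact hdeg.n _)
      (by rw [hn3]; exact hdeg.n _) (Y := Y) (x := c) (y := X.tm ρ0 M (w.1.2 0)) (r := εc)
      (by rw [hn2]; exact H.s2.b1) (by rw [hn3]; exact H.s3.b1) u3
      (by rw [hc]; exact H.cb) (by linarith)
    have h3 : |n2.eval (X.tm ρ0 M (w.1.2 0)) - n3.eval (X.tm ρ0 M (w.1.2 0))| ≤ ε := by
      rw [hn2, hn3, H.hl0, ← H.hl1]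
      exact H.gen.n
    have h4 := abs_add_le ((n2.eval c - n3.eval c) - (n2.eval (X.tm ρ0 M (w.1.2 0)) -
      n3.eval (X.tm ρ0 M (w.1.2 0)))) (n2.eval (X.tm ρ0 M (w.1.2 0)) -
      n3.eval (X.tm ρ0 M (w.1.2 0)))
    rw [sub_add_cancel] at h4
    linarith
  have m4 : |(X.nL (X.l (w.1.1 0 0))).eval x - n2.eval x| ≤ ε := by
    rw [hn2, hx]
    exact H.stA.n
  have m5 : |nr.eval x - nr.eval 0 - gr.eval x| ≤ εg := by
    rw [hnr, hgr]
    exact H.sr.g0 x (by linarith)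
  have m6 : |nr.eval c - nr.eval 0 - gr.eval c| ≤ εg := by
    rw [hnr, hgr]
    exact H.sr.g0 c (by linarith)
  have m7 : |nq.eval c - nq.eval 0 - gq.eval c| ≤ εg := by
    rw [hnq, hgq]
    exact H.sq.g0 c (by linarith)
  -- names of the sums
  obtain ⟨S1, hS1⟩ : ∃ S1, S1 = ∑ k, (X.qk (fun j => X.ell (w.1.1 j.succ 1)) k).eval
    ((chDr X (chW X cc w)).eval x) * (X.ck (fun j => X.ell (w.1.1 j.succ 1)) k).eval x := ⟨_, rfl⟩
  obtain ⟨S1h, hS1h⟩ : ∃ S1h, S1h = ∑ k, (X.qk (fun j => X.ell (w.1.1 j.succ 1)) k).eval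
    (blh X w.1.1) * (X.ck (fun j => X.ell (w.1.1 j.succ 1)) k).eval x := ⟨_, rfl⟩
  obtain ⟨S2, hS2⟩ : ∃ S2, S2 = ∑ k, (X.qk (fun j => X.ell (w.1.1 j.succ 1)) k).eval
    ((chDr X (chW X cc w)).eval x) * (X.ck (fun j => X.ell (w.1.1 j.succ 1)) k).eval c := ⟨_, rfl⟩
  obtain ⟨S2h, hS2h⟩ : ∃ S2h, S2h = ∑ k, (X.qk (fun j => X.ell (w.1.1 j.succ 1)) k).eval
    (blh X w.1.1) * (X.ck (fun j => X.ell (w.1.1 j.succ 1)) k).eval c := ⟨_, rfl⟩
  obtain ⟨S3, hS3⟩ : ∃ S3, S3 = ∑ k, (X.qk (fun j => X.ell (w.2 j.succ 1)) k).eval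
    ((chD0 X (chW X cc w)).eval x) * (X.ck (fun j => X.ell (w.2 j.succ 1)) k).eval c := ⟨_, rfl⟩
  obtain ⟨S3h, hS3h⟩ : ∃ S3h, S3h = ∑ k, (X.qk (fun j => X.ell (w.2 j.succ 1)) k).eval
    (blh X w.2) * (X.ck (fun j => X.ell (w.2 j.succ 1)) k).eval c := ⟨_, rfl⟩
  have hsub : ∀ (q c' : Fin K → ℝ[X]) (y h r : ℝ), ∑ k, ((q k).eval y - (q k).eval h) *
      (c' k).eval r = ∑ k, (q k).eval y * (c' k).eval r - ∑ k, (q k).eval h * (c' k).eval r := by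
    intro q c' y h r
    rw [← Finset.sum_sub_distrib]
    exact Finset.sum_congr rfl fun k _ => by ring
  have b1' : |S1 - S1h| ≤ K * (Lq * Lq * εu) := by
    rw [hS1, hS1h, ← hsub]
    exact b1
  have b2' : |S2 - S2h| ≤ K * (Lq * Lq * εu) := by
    rw [hS2, hS2h, ← hsub]
    exact b2
  have b3' : |S3 - S3h| ≤ K * (Lq * Lq * (2 * εu + K₁ * εc)) := by
    rw [hS3, hS3h, ← hsub]
    exact b3
  have f0 : (chE0 X (chW X cc w)).eval x = (X.nL (X.l (w.1.1 0 0))).eval x - gr.eval x - S1 +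
      ((gr.eval c - gq.eval c) + S2 - S3) := by
    rw [chE0_eval, hgr, hgq, hc, hS1, hS2, hS3, hc]
    rfl
  have f1 : ∀ s, (ble X w.1.1).eval s = n2.eval s - nr.eval s -
      ∑ k, (X.qk (fun j => X.ell (w.1.1 j.succ 1)) k).eval
        (blh X w.1.1) * (X.ck (fun j => X.ell (w.1.1 j.succ 1)) k).eval s := by
    intro s
    unfold ble
    rw [eval_sub, eval_sub, Qh_eval, hn2, hnr]
  have f2 : ∀ s, (ble X w.2).eval s = n3.eval s - nq.eval s -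
      ∑ k, (X.qk (fun j => X.ell (w.2 j.succ 1)) k).eval
        (blh X w.2) * (X.ck (fun j => X.ell (w.2 j.succ 1)) k).eval s := by
    intro s
    unfold ble
    rw [eval_sub, eval_sub, Qh_eval, hn3, hnq]
  have f1x := f1 x
  have f1c := f1 c
  have f2c := f2 c
  rw [← hS1h] at f1x
  rw [← hS2h] at f1c
  rw [← hS3h] at f2c
  have key : (chE0 X (chW X cc w)).eval x - nq.eval 0 - (ble X w.2).eval x =
      ((X.nL (X.l (w.1.1 0 0))).eval x - n2.eval x) +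
      ((ble X w.1.1).eval x - (ble X w.1.1).eval c) -
      ((ble X w.2).eval x - (ble X w.2).eval c) +
      (nr.eval x - nr.eval 0 - gr.eval x) - (nr.eval c - nr.eval 0 - gr.eval c) +
      (nq.eval c - nq.eval 0 - gq.eval c) + (n2.eval c - n3.eval c) -
      (S1 - S1h) + (S2 - S2h) - (S3 - S3h) := by
    rw [f0, f1x, f1c, f2c]
    ring
  have goal : |(chE0 X (chW X cc w)).eval x - nq.eval 0 - (ble X w.2).eval x| ≤
      2 * ε + 3 * εg + K₁ * ε1 * (6 * ρ0) + K₁ * Y * εc + 2 * (K * (Lq * Lq * εu)) +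
        K * (Lq * Lq * (2 * εu + K₁ * εc)) := by
    rw [key]
    rw [abs_le] at b1' b2' b3' m1 m2 m3 m4 m5 m6 m7 ⊢
    constructor <;> linarith [b1'.1, b1'.2, b2'.1, b2'.2, b3'.1, b3'.2, m1.1, m1.2, m2.1, m2.2,
      m3.1, m3.2, m4.1, m4.2, m5.1, m5.2, m6.1, m6.2, m7.1, m7.2]
  rw [hnq] at goal
  exact goal

/-- **The relations of the triangle.** -/
theorem ChG.tri {D : ℕ} (hdeg : X.Deg D) {K₁ : ℝ} (hK₁ : Mkv D K₁)
    (H : ChG X cc ρ0 M ε εu εg ε1 ε2 δ θ Lq Y εc w) (h0 : 0 < ρ0)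
    (h1 : ρ0 ≤ 1 / 4) (hεc : εc ≤ ρ0) (hd : 2 * εu + K₁ * εc + θ * δ * (2 * ρ0) ≤ 1)
    (hu0 : εu ≤ 1) (hεg : 0 ≤ εg) {Xc ε' : ℝ}
    (hX : 7 * Y + 4 * (K * (Y * Lq)) + K * (Lq * Lq) ≤ Xc)
    (hε' : 2 * ε + 3 * εg + K₁ * ε1 * (6 * ρ0) + K₁ * Y * εc + 2 * (K * (Lq * Lq * εu)) +
        K * (Lq * Lq * (2 * εu + K₁ * εc)) ≤ ε') :
    Tri (chE0 X (chW X cc w) - C ((X.nL (X.l (w.2 (Fin.succ 0) 1))).eval 0))
      (chE1 X (chW X cc w) + C ((X.nL (X.l (w.2 0 0))).eval 0 -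
        (X.nL (X.l (w.2 (Fin.succ 0) 1))).eval 0)) (ble X w.2)
      (chD0 X (chW X cc w)) (chD1 X (chW X cc w)) (X.tm ρ0 M (w.1.1 0 0))
      (X.tm ρ0 M (w.2 0 0)) (chW X cc w).2.2 ρ0 ρ0 δ θ 0 ε1 Xc ε' (3 * εu + K₁ * εc) := by
  obtain ⟨⟨t1, t2, t3, t4⟩, ⟨u1, u2, u3, u4⟩, eA, eB, eC⟩ := H.times h0 h1 hεc
  obtain ⟨g1, g2, g3, g4, g5, g6, g7, g8, g9⟩ := H.hts hdeg hK₁ h0 h1 hεc
  obtain ⟨b1, b2, b3, b4⟩ := H.crude hdeg hK₁ h0 h1 hεc hd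
  have hY0 : 0 ≤ Y := (abs_nonneg _).trans (H.s0.b1 0 (by rw [abs_zero]; norm_num))
  have hθδ : 0 ≤ θ * δ := (abs_nonneg _).trans H.stA.s1
  have hεu0 : 0 ≤ εu := (abs_nonneg _).trans H.stA.u
  have hε1 : 0 ≤ ε1 := (abs_nonneg _).trans (H.prB.e1 0 (by rw [abs_zero]; norm_num))
  have hd' : 2 * εu + K₁ * εc ≤ 1 := by
    have : 0 ≤ θ * δ * (2 * ρ0) := mul_nonneg hθδ (by linarith)
    linarith
  have hεd0 : 0 ≤ 2 * εu + K₁ * εc := (abs_nonneg _).trans g2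
  have hK0 : (0 : ℝ) ≤ K := Nat.cast_nonneg K
  have hL : 0 ≤ K * (Lq * Lq) := mul_nonneg hK0 (mul_self_nonneg _)
  have hYL : 0 ≤ K * (Y * Lq) := by
    rcases Nat.eq_zero_or_pos K with hK | hK
    · rw [hK]
      simp
    · have hL0 : 0 ≤ Lq := (abs_nonneg _).trans (H.prB.qb.c0 ⟨0, hK⟩ 0 (by
        rw [abs_zero]; norm_num))
      positivity
  have hnear : ∀ s x : ℝ, |x| ≤ 3 / 2 → |s - x| ≤ ρ0 → |s| ≤ 4 := by
    intro s x h2 h3
    have := abs_add_le (s - x) x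
    rw [sub_add_cancel] at this
    linarith
  refine ⟨H.hc, t1, t2, fun s hs => ?_, ?_, fun s hs => ?_, ?_, ?_, fun s _ => ?_,
    fun s _ => ?_, ?_, ?_, ?_⟩
  · rw [eval_sub, eval_C]
    have c1 := b1 s (hs.trans (by linarith))
    have c2 := b3 s (hnear s _ u1 hs)
    have d1 := abs_sub ((chE0 X (chW X cc w)).eval s -
      (X.nL (X.l (w.2 (Fin.succ 0) 1))).eval 0) ((ble X w.2).eval s)
    have d2 := abs_sub ((chE0 X (chW X cc w)).eval s)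
      ((X.nL (X.l (w.2 (Fin.succ 0) 1))).eval 0)
    linarith
  · rw [eval_sub, eval_C]
    exact (H.val hdeg hK₁ h0 h1 hεc hd' hu0).trans hε'
  · rw [eval_add, eval_C]
    have c1 := b2 s (hnear s _ u2 hs)
    have c2 := b3 s (hnear s _ u2 hs)
    have c3 := H.s1.b1 0 (by rw [abs_zero]; norm_num)
    have d1 := abs_sub ((chE1 X (chW X cc w)).eval s + ((X.nL (X.l (w.2 0 0))).eval 0 -
      (X.nL (X.l (w.2 (Fin.succ 0) 1))).eval 0)) ((ble X w.2).eval s)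
    have d2 := abs_add_le ((chE1 X (chW X cc w)).eval s) ((X.nL (X.l (w.2 0 0))).eval 0 -
      (X.nL (X.l (w.2 (Fin.succ 0) 1))).eval 0)
    have d3 := abs_sub ((X.nL (X.l (w.2 0 0))).eval 0)
      ((X.nL (X.l (w.2 (Fin.succ 0) 1))).eval 0)
    linarith
  · have h2 := f_val (K := K) H.prB.qb (m := X.gC (X.ell (w.2 0 0))) (n := X.nL (X.l (w.2 0 0)))
      (n2 := X.nL (X.l (w.2 0 1))) (nr := X.nL (X.l (w.2 (Fin.succ 0) 1)))
      (gr := X.gC (X.ell (w.2 (Fin.succ 0) 1))) (D := chD1 X (chW X cc w))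
      (x := X.tm ρ0 M (w.2 0 0)) (l := (X.nL (X.l (w.2 0 0))).eval 0)
      (lr := (X.nL (X.l (w.2 (Fin.succ 0) 1))).eval 0)
      (ε := ε) (εg := εg) (εd := εu) (by linarith) g3 hu0
      (H.s1.g0 _ (by linarith)) (H.sq.g0 _ (by linarith)) H.stB.n
    rw [eval_add, eval_C]
    refine h2.trans (le_trans ?_ hε')
    have hε0 : 0 ≤ ε := (abs_nonneg _).trans H.stA.n
    have e1 : 0 ≤ K * (Lq * Lq * εu) := mul_nonneg hK0 (mul_nonneg (mul_self_nonneg _) hεu0)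
    have e2 : 0 ≤ K * (Lq * Lq * (2 * εu + K₁ * εc)) :=
      mul_nonneg hK0 (mul_nonneg (mul_self_nonneg _) hεd0)
    have e3 : 0 ≤ K₁ * Y * εc := by
      have h5 := hK₁.crd (P := X.nL (X.l (w.1.1 0 0))) (Q := X.nL (X.l (w.1.1 0 0)))
        (hdeg.n _) (hdeg.n _) (Y := Y) (x := X.tm ρ0 M (w.1.1 0 0))
        (y := X.tm ρ0 M (w.1.1 0 0)) (r := εc) H.s0.b1 H.s0.b1 u1 (by
          rw [sub_self, abs_zero]
          exact (abs_nonneg _).trans H.cb) (by linarith)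
      exact (abs_nonneg _).trans h5
    have e4 : 0 ≤ K₁ * ε1 * (6 * ρ0) := by
      have h5 := hK₁.inc (ble_deg X hdeg w.2) (S := ε1) (x := X.tm ρ0 M (w.2 0 0))
        (y := X.tm ρ0 M (w.2 0 0)) (r := 6 * ρ0) (fun s hs => H.prB.e1 s hs) u2
        (by rw [sub_self, abs_zero]; linarith) (by linarith)
      exact (abs_nonneg _).trans h5
    linarith
  · exact H.prB.e1
  · rw [g5, eval_zero, abs_zero]
  · rw [g6, eval_zero, abs_zero]
  · rw [g8]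
    exact H.stA.s0
  · rw [g9]
    exact H.stB.s0
  · have e1 : (chD0 X (chW X cc w)).eval (X.tm ρ0 M (w.1.1 0 0)) -
        (chD1 X (chW X cc w)).eval (X.tm ρ0 M (w.2 0 0)) =
        ((chD0 X (chW X cc w)).eval (X.tm ρ0 M (w.1.1 0 0)) - blh X w.2) -
          ((chD1 X (chW X cc w)).eval (X.tm ρ0 M (w.2 0 0)) - blh X w.2) := by ring
    rw [e1]
    refine (abs_sub _ _).trans ?_
    linarith

end

end Pool.NA17
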