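import Pool.Agent.H17.NA.Chg

/-!
# The chain with one inner star: the quotients of a configuration

`ChG.top`: the crude bound of the level polynomial. `ChG.quo`: the relation between the quotients of
the two outer stars and the slopes of the general star, from the normalized derivatives.
-/

set_option autoImplicit false

namespace Pool.NA17

open Finset Polynomial
open Pool.Agent.H49.Ent Pool.Agent.H32.Dense Pool.STK
open Pool.BFL (Pb)
open Pool.SL77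

section

variable {Ω Λ E : Type} {N K : ℕ} {X : SlD Ω Λ E N K}
  {cc : Ω → ℝ} {ρ0 : ℝ} {M : ℕ} {ε εu εg ε1 ε2 δ θ Lq Y εc : ℝ} {w : Cfg Ω N}

/-- **The crude bound of the level polynomial.** -/
theorem ChG.top {D : ℕ} (hdeg : X.Deg D) {K₁ : ℝ} (hK₁ : Mkv D K₁)
    (H : ChG X cc ρ0 M ε εu εg ε1 ε2 δ θ Lq Y εc w) (h0 : 0 < ρ0)
    (h1 : ρ0 ≤ 1 / 4) (hεc : εc ≤ ρ0) (hd : 2 * εu + K₁ * εc + θ * δ * (2 * ρ0) ≤ 1)
    (hδ : 0 < δ) (hθ : 1 ≤ θ) (hθρ : θ ^ 2 * ρ0 ≤ 1 / 2)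
    (hη : θ * (3 * εu + K₁ * εc) / δ ≤ 1)
    (s : ℝ) (hs : |s| ≤ 1) :
    |(triP (chE0 X (chW X cc w)) (chE1 X (chW X cc w)) (chD0 X (chW X cc w))
        (chD1 X (chW X cc w)) (chW X cc w).2.2 ρ0).eval s -
      (triP (chE0 X (chW X cc w)) (chE1 X (chW X cc w)) (chD0 X (chW X cc w))
        (chD1 X (chW X cc w)) (chW X cc w).2.2 ρ0).eval 0| ≤
      2 * (6 * Y + 4 * (K * (Y * Lq)) + K * (Lq * Lq)) := by
  obtain ⟨⟨t1, t2, -, -⟩, ⟨-, u2, -, -⟩, -, -, -⟩ := H.times h0 h1 hεc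
  obtain ⟨-, a1, a2, -, a3, a4, -, a5, a6⟩ := H.hts hdeg hK₁ h0 h1 hεc
  obtain ⟨b1, b2, -, -⟩ := H.crude hdeg hK₁ h0 h1 hεc hd
  have hθ0 : 0 < θ := by linarith
  obtain ⟨c0, hc0⟩ : ∃ c0, c0 = (chW X cc w).2.2 := ⟨_, rfl⟩
  have hc0' : X.c0 (w.1.1 0 0) = c0 := by rw [hc0]; rfl
  have hc : |c0| ≤ 1 := by rw [← hc0']; exact H.hc
  rw [hc0'] at t1 t2
  rw [← hc0]
  obtain ⟨A, hA⟩ : ∃ A, A = X.tm ρ0 M (w.1.1 0 0) := ⟨_, rfl⟩
  obtain ⟨B, hB⟩ : ∃ B, B = X.tm ρ0 M (w.2 0 0) := ⟨_, rfl⟩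
  rw [← hA] at a1 t1 b1
  rw [← hB] at a2 t2 u2
  obtain ⟨d0, hd0⟩ : ∃ d0, d0 = (derivative (chD0 X (chW X cc w))).eval c0 := ⟨_, rfl⟩
  obtain ⟨d1, hd1⟩ : ∃ d1, d1 = (derivative (chD1 X (chW X cc w))).eval c0 := ⟨_, rfl⟩
  have hd0b : |d0| ≤ θ * δ := by rw [hd0, a5]; exact H.stA.s1
  have hd1b : δ ≤ θ * |d1| := by rw [hd1, a6]; exact H.stB.s0
  have hd1p : 0 < |d1| := by
    by_contra hc'
    have h2 : |d1| = 0 := le_antisymm (not_lt.1 hc') (abs_nonneg _)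
    rw [h2, mul_zero] at hd1b
    linarith
  have hd1n : d1 ≠ 0 := abs_pos.1 hd1p
  -- the arguments
  have harg0 : ∀ s : ℝ, |s| ≤ 1 → |c0 + ρ0 * s - A| ≤ 2 * ρ0 := by
    intro s hs
    have f1 : c0 + ρ0 * s - A = ρ0 * s - (A - c0) := by ring
    rw [f1]
    refine (abs_sub _ _).trans ?_
    rw [abs_mul, abs_of_pos h0]
    have e2 : ρ0 * |s| ≤ ρ0 * 1 := mul_le_mul_of_nonneg_left hs h0.le
    linarith
  have harg1 : ∀ s : ℝ, |s| ≤ 1 → |c0 + ((chD0 X (chW X cc w)).eval c0 -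
      (chD1 X (chW X cc w)).eval c0 + (derivative (chD0 X (chW X cc w))).eval c0 *
        (c0 + ρ0 * s - c0)) / (derivative (chD1 X (chW X cc w))).eval c0| ≤ 4 := by
    intro s hs
    rw [← hd0, ← hd1]
    obtain ⟨β, hβ⟩ : ∃ β, β = c0 + ((chD0 X (chW X cc w)).eval c0 -
      (chD1 X (chW X cc w)).eval c0 + d0 * (c0 + ρ0 * s - c0)) / d1 := ⟨_, rfl⟩
    rw [← hβ]
    have e0 := eval_aff a3 A c0
    have e1 := eval_aff a4 B c0
    rw [← hd0] at e0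
    rw [← hd1] at e1
    have e2 : d1 * (β - B) = ((chD0 X (chW X cc w)).eval A - blh X w.2) -
        ((chD1 X (chW X cc w)).eval B - blh X w.2) + d0 * (c0 + ρ0 * s - A) := by
      rw [hβ, e0, e1]
      field_simp
      ring
    have e4 : |d1 * (β - B)| ≤ (3 * εu + K₁ * εc) + θ * δ * (2 * ρ0) := by
      rw [e2]
      refine (abs_add_le _ _).trans (add_le_add ?_ ?_)
      · refine (abs_sub _ _).trans ?_
        linarith
      · rw [abs_mul]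
        exact mul_le_mul hd0b (harg0 s hs) (abs_nonneg _) (by positivity)
    have e5 : |β - B| ≤ 2 := by
      rw [abs_mul] at e4
      have f1 : δ * |β - B| ≤ θ * ((3 * εu + K₁ * εc) + θ * δ * (2 * ρ0)) := by
        calc δ * |β - B| ≤ θ * |d1| * |β - B| := mul_le_mul_of_nonneg_right hd1b (abs_nonneg _)
          _ = θ * (|d1| * |β - B|) := by ring
          _ ≤ _ := mul_le_mul_of_nonneg_left e4 hθ0.le
      have f2 : θ * ((3 * εu + K₁ * εc) + θ * δ * (2 * ρ0)) ≤ 2 * δ := by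
        rw [div_le_iff₀ hδ] at hη
        have f3 : θ * (θ * δ * (2 * ρ0)) = δ * (2 * (θ ^ 2 * ρ0)) := by ring
        have f4 : δ * (2 * (θ ^ 2 * ρ0)) ≤ δ * 1 := mul_le_mul_of_nonneg_left (by linarith) hδ.le
        have f5 : θ * ((3 * εu + K₁ * εc) + θ * δ * (2 * ρ0)) =
          θ * (3 * εu + K₁ * εc) + θ * (θ * δ * (2 * ρ0)) := by ring
        linarith
      have f3 : δ * |β - B| ≤ δ * 2 := by linarith
      exact le_of_mul_le_mul_left f3 hδ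
    have := abs_add_le (β - B) B
    rw [sub_add_cancel] at this
    linarith
  have hP : ∀ s : ℝ, |s| ≤ 1 → |(triP (chE0 X (chW X cc w)) (chE1 X (chW X cc w))
      (chD0 X (chW X cc w)) (chD1 X (chW X cc w)) c0 ρ0).eval s| ≤
        6 * Y + 4 * (K * (Y * Lq)) + K * (Lq * Lq) := by
    intro s hs
    rw [triP_eval]
    refine (abs_sub _ _).trans ?_
    have f1 := b1 _ (harg0 s hs)
    have f2 := b2 _ (harg1 s hs)
    linarith
  refine (abs_sub _ _).trans ?_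
  have f1 := hP s hs
  have f2 := hP 0 (by rw [abs_zero]; norm_num)
  linarith

/-- **The quotients from the normalized derivatives.** -/
theorem ChG.quo {D : ℕ} (hdeg : X.Deg D) {K₁ : ℝ} (hK₁ : Mkv D K₁)
    (H : ChG X cc ρ0 M ε εu εg ε1 ε2 δ θ Lq Y εc w) (h0 : 0 < ρ0)
    (h1 : ρ0 ≤ 1 / 4) (hεc : εc ≤ ρ0) (hd : 2 * εu + K₁ * εc ≤ 1)
    (hu0 : εu ≤ 1) (hεg : 0 ≤ εg) (hδ : 0 < δ) {Gc : ℝ}
    (hG : |((derivative (chE0 X (chW X cc w))).eval (X.tm ρ0 M (w.1.1 0 0)) -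
          (derivative (ble X w.2)).eval (X.tm ρ0 M (w.1.1 0 0))) /
            (derivative (chD0 X (chW X cc w))).eval (X.tm ρ0 M (w.1.1 0 0)) -
        ((derivative (chE1 X (chW X cc w))).eval (X.tm ρ0 M (w.2 0 0)) -
          (derivative (ble X w.2)).eval (X.tm ρ0 M (w.2 0 0))) /
            (derivative (chD1 X (chW X cc w))).eval (X.tm ρ0 M (w.2 0 0))| ≤ Gc) :
    |(qst (X.vN ρ0 M) (X.vU ρ0 M) (w.1.1 0 0) (w.1.1 0 1) - X.vC ρ0 M (w.1.1 0 1)) -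
      (qst (X.vN ρ0 M) (X.vU ρ0 M) (w.2 0 0) (w.2 0 1) - X.vC ρ0 M (w.2 0 1)) +
      (X.vC ρ0 M (w.1.2 0) - X.vC ρ0 M (w.1.2 1))| ≤
      Gc + 2 * ((2 * εg + K * (Lq * Lq * εu)) * θ / δ + K * (Lq * Lq * εu)) +
        2 * (K₁ * ε1) * θ / δ + K * (Lq * Lq * εu) +
        K * (Lq * Lq * (2 * εu + K₁ * εc)) + K₁ * ε2 * (6 * ρ0) +
        2 * (K₁ * (K * (Lq * Lq) + ε2) * εc) := by
  obtain ⟨⟨t1, t2, t3, t4⟩, ⟨u1, u2, u3, u4⟩, eA, eB, eC⟩ := H.times h0 h1 hεc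
  obtain ⟨g1, g2, g3, g4, g5, g6, g7, g8, g9⟩ := H.hts hdeg hK₁ h0 h1 hεc
  obtain ⟨x, hx⟩ : ∃ x, x = X.tm ρ0 M (w.1.1 0 0) := ⟨_, rfl⟩
  obtain ⟨y, hy⟩ : ∃ y, y = X.tm ρ0 M (w.2 0 0) := ⟨_, rfl⟩
  obtain ⟨T, hT⟩ : ∃ T, T = X.tm ρ0 M (w.1.2 0) := ⟨_, rfl⟩
  obtain ⟨c, hc⟩ : ∃ c, c = cc (w.1.2 0) := ⟨_, rfl⟩
  rw [← hx] at t1 u1 g1 g2 hG
  rw [← hy] at t2 u2 g3 hG
  rw [← hT] at t3 u3
  rw [← hc] at t4 u4
  have hcb : |c - T| ≤ εc := by rw [hc, hT]; exact H.cb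
  have hεc0 : 0 ≤ εc := (abs_nonneg _).trans hcb
  have hxc : |x - c| ≤ 3 * ρ0 := by
    have := abs_sub_le x (X.c0 (w.1.1 0 0)) c
    rw [abs_sub_comm (X.c0 (w.1.1 0 0)) c] at this
    linarith
  have hyc : |y - c| ≤ 3 * ρ0 := by
    have := abs_sub_le y (X.c0 (w.1.1 0 0)) c
    rw [abs_sub_comm (X.c0 (w.1.1 0 0)) c] at this
    linarith
  -- the first errors
  have f0 := f_der (K := K) H.prA.qb (m := X.nL (X.l (w.1.1 0 0)))
      (n := X.nL (X.l (w.1.1 0 0)))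
      (n2 := X.nL (X.l (w.1.1 0 1))) (nr := X.nL (X.l (w.1.1 (Fin.succ 0) 1)))
      (gr := X.gC (X.ell (w.1.1 (Fin.succ 0) 1))) (D := chDr X (chW X cc w))
      (x := x) (εg := εg) (εd := εu) hδ (by linarith) g1 hu0
      (by rw [g7]; exact H.stA.s0) (by rw [sub_self, abs_zero]; exact hεg)
      (H.sr.g1 _ (by linarith))
  have f1 := f_der (K := K) H.prB.qb (m := X.gC (X.ell (w.2 0 0)))
      (n := X.nL (X.l (w.2 0 0)))
      (n2 := X.nL (X.l (w.2 0 1))) (nr := X.nL (X.l (w.2 (Fin.succ 0) 1)))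
      (gr := X.gC (X.ell (w.2 (Fin.succ 0) 1))) (D := chD1 X (chW X cc w))
      (x := y) (εg := εg) (εd := εu) hδ (by linarith) g3 hu0
      (by rw [g9]; exact H.stB.s0) (H.s1.g1 _ (by linarith))
      (H.sq.g1 _ (by linarith))
  -- the slope sums
  obtain ⟨-, -, b1⟩ := qb_sum H.prA.qb (y := (chDr X (chW X cc w)).eval x) g1 hu0
    (x := c) (by linarith)
  obtain ⟨-, -, b2⟩ := qb_sum H.prB.qb (y := (chD0 X (chW X cc w)).eval x) g2 hd
    (x := c) (by linarith)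
  -- the errors of the parallel lines
  have m1 := hK₁.der (ble_deg X hdeg w.1.1) (S := ε1) (x := x)
    (fun s hs => H.prA.e1 s hs) (by linarith)
  have m2 := hK₁.der (ble_deg X hdeg w.2) (S := ε1) (x := x)
    (fun s hs => H.prB.e1 s hs) (by linarith)
  -- the slopes of the rows
  obtain ⟨RA, hRA⟩ : ∃ R : ℝ[X], R = Qd (X.qk fun j => X.ell (w.1.1 j.succ 1))
      (X.ck fun j => X.ell (w.1.1 j.succ 1)) (blh X w.1.1) - X.cL (X.l (w.1.1 0 1)) := ⟨_, rfl⟩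
  obtain ⟨RB, hRB⟩ : ∃ R : ℝ[X], R = Qd (X.qk fun j => X.ell (w.2 j.succ 1))
      (X.ck fun j => X.ell (w.2 j.succ 1)) (blh X w.2) - X.cL (X.l (w.2 0 1)) := ⟨_, rfl⟩
  have hRAd : RA.natDegree ≤ D := by
    rw [hRA]
    exact (natDegree_sub_le _ _).trans (max_le (Qd_deg (hdeg.c _) _) (hdeg.cc _))
  have hRBd : RB.natDegree ≤ D := by
    rw [hRB]
    exact (natDegree_sub_le _ _).trans (max_le (Qd_deg (hdeg.c _) _) (hdeg.cc _))
  have hRAb : ∀ s : ℝ, |s| ≤ 1 → |RA.eval s| ≤ ε2 := fun s hs => by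
    rw [hRA]
    exact H.prA.e2 s hs
  have hRBb : ∀ s : ℝ, |s| ≤ 1 → |RB.eval s| ≤ ε2 := fun s hs => by
    rw [hRB]
    exact H.prB.e2 s hs
  have m3 := hK₁.inc hRAd hRAb u4 hxc (by linarith)
  have m4 := hK₁.inc hRBd hRBb u4 hyc (by linarith)
  -- crude bounds of the slopes
  have hQd : ∀ (q c' : Fin K → ℝ[X]) (h : ℝ), QB q c' h Lq → ∀ s : ℝ, |s| ≤ 1 →
      |(Qd q c' h).eval s| ≤ K * (Lq * Lq) := by
    intro q c' h hb s hs
    rw [Qd_eval]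
    rcases Nat.eq_zero_or_pos K with hK | hK
    · subst hK
      simp
    · have hL0 : 0 ≤ Lq := (abs_nonneg _).trans (hb.c0 ⟨0, hK⟩ 0 (by
        rw [abs_zero]; norm_num))
      exact sum_crd (q := fun k => derivative (q k)) hL0
        (fun k => hb.q1 k h (by rw [sub_self, abs_zero]; norm_num))
        (fun k => hb.c0 k s (by linarith))
  have hCA : ∀ s : ℝ, |s| ≤ 1 → |(X.cL (X.l (w.1.1 0 1))).eval s| ≤ K * (Lq * Lq) + ε2 := by
    intro s hs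
    have e1 := hQd _ _ _ H.prA.qb s hs
    have e2 := H.prA.e2 s hs
    rw [eval_sub] at e2
    have e3 := abs_sub ((Qd (X.qk fun j => X.ell (w.1.1 j.succ 1))
      (X.ck fun j => X.ell (w.1.1 j.succ 1)) ((X.uC (X.ell (w.1.1 0 1)) -
        X.uC (X.ell (w.1.1 (Fin.succ 0) 1))).eval 0)).eval s)
      ((Qd (X.qk fun j => X.ell (w.1.1 j.succ 1))
      (X.ck fun j => X.ell (w.1.1 j.succ 1)) ((X.uC (X.ell (w.1.1 0 1)) -
        X.uC (X.ell (w.1.1 (Fin.succ 0) 1))).eval 0)).eval s -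
        (X.cL (X.l (w.1.1 0 1))).eval s)
    rw [sub_sub_cancel] at e3
    linarith
  have hCB : ∀ s : ℝ, |s| ≤ 1 → |(X.cL (X.l (w.2 0 1))).eval s| ≤ K * (Lq * Lq) + ε2 := by
    intro s hs
    have e1 := hQd _ _ _ H.prB.qb s hs
    have e2 := H.prB.e2 s hs
    rw [eval_sub] at e2
    have e3 := abs_sub ((Qd (X.qk fun j => X.ell (w.2 j.succ 1))
      (X.ck fun j => X.ell (w.2 j.succ 1)) ((X.uC (X.ell (w.2 0 1)) -
        X.uC (X.ell (w.2 (Fin.succ 0) 1))).eval 0)).eval s)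
      ((Qd (X.qk fun j => X.ell (w.2 j.succ 1))
      (X.ck fun j => X.ell (w.2 j.succ 1)) ((X.uC (X.ell (w.2 0 1)) -
        X.uC (X.ell (w.2 (Fin.succ 0) 1))).eval 0)).eval s -
        (X.cL (X.l (w.2 0 1))).eval s)
    rw [sub_sub_cancel] at e3
    linarith
  have m5 := hK₁.inc (hdeg.cc (X.l (w.1.1 0 1))) hCA u3 hcb (by linarith)
  have m6 := hK₁.inc (hdeg.cc (X.l (w.2 0 1))) hCB u3 hcb (by linarith)
  -- the quotients
  have q0 : qst (X.vN ρ0 M) (X.vU ρ0 M) (w.1.1 0 0) (w.1.1 0 1) =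
      ((derivative (X.nL (X.l (w.1.1 0 0)))).eval x -
        (derivative (X.nL (X.l (w.1.1 0 1)))).eval x) /
        (derivative (chDr X (chW X cc w))).eval x := by
    unfold qst
    rw [g7]
    unfold SlD.vN
    rw [eA, ← hx]
  have q1 : qst (X.vN ρ0 M) (X.vU ρ0 M) (w.2 0 0) (w.2 0 1) =
      ((derivative (X.nL (X.l (w.2 0 0)))).eval y -
        (derivative (X.nL (X.l (w.2 0 1)))).eval y) /
        (derivative (chD1 X (chW X cc w))).eval y := by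
    unfold qst
    rw [g9]
    unfold SlD.vN
    rw [eB, ← hy]
  have c0 : X.vC ρ0 M (w.1.1 0 1) = (X.cL (X.l (w.1.1 0 1))).eval x := by
    unfold SlD.vC
    rw [eA, ← hx]
  have c1 : X.vC ρ0 M (w.2 0 1) = (X.cL (X.l (w.2 0 1))).eval y := by
    unfold SlD.vC
    rw [eB, ← hy]
  have c2 : X.vC ρ0 M (w.1.2 0) = (X.cL (X.l (w.1.1 0 1))).eval T := by
    unfold SlD.vC
    rw [← hT, H.hl0]
  have c3 : X.vC ρ0 M (w.1.2 1) = (X.cL (X.l (w.2 0 1))).eval T := by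
    unfold SlD.vC
    rw [eC, ← hT, H.hl1]
  -- names
  obtain ⟨d, hdd⟩ : ∃ d, d = X.vU ρ0 M (w.1.1 0 0) - X.vU ρ0 M (w.1.1 0 1) := ⟨_, rfl⟩
  have hds : δ ≤ θ * |d| := by rw [hdd]; exact H.stA.s0
  have hdn : d ≠ 0 := by
    intro h
    rw [h, abs_zero, mul_zero] at hds
    linarith
  obtain ⟨QA, hQA⟩ : ∃ P, P = Qd (X.qk fun j => X.ell (w.1.1 j.succ 1))
    (X.ck fun j => X.ell (w.1.1 j.succ 1)) (blh X w.1.1) := ⟨_, rfl⟩
  obtain ⟨QB', hQB⟩ : ∃ P, P = Qd (X.qk fun j => X.ell (w.2 j.succ 1))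
    (X.ck fun j => X.ell (w.2 j.succ 1)) (blh X w.2) := ⟨_, rfl⟩
  -- the derivative of the first polynomial
  obtain ⟨SA, hSA⟩ : ∃ SA, SA = ∑ k, (derivative (X.qk (fun j => X.ell (w.1.1 j.succ 1)) k)).eval
    ((chDr X (chW X cc w)).eval x) * (X.ck (fun j => X.ell (w.1.1 j.succ 1)) k).eval c :=
    ⟨_, rfl⟩
  obtain ⟨SB, hSB⟩ : ∃ SB, SB = ∑ k, (derivative (X.qk (fun j => X.ell (w.2 j.succ 1)) k)).eval
    ((chD0 X (chW X cc w)).eval x) * (X.ck (fun j => X.ell (w.2 j.succ 1)) k).eval c :=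
    ⟨_, rfl⟩
  have hsub : ∀ (q c' : Fin K → ℝ[X]) (z h r : ℝ),
      ∑ k, ((derivative (q k)).eval z - (derivative (q k)).eval h) * (c' k).eval r =
      ∑ k, (derivative (q k)).eval z * (c' k).eval r -
        ∑ k, (derivative (q k)).eval h * (c' k).eval r := by
    intro q c' z h r
    rw [← Finset.sum_sub_distrib]
    exact Finset.sum_congr rfl fun k _ => by ring
  have b1' : |SA - QA.eval c| ≤ K * (Lq * Lq * εu) := by
    rw [hSA, hQA, Qd_eval, ← hsub]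
    exact b1
  have b2' : |SB - QB'.eval c| ≤ K * (Lq * Lq * (2 * εu + K₁ * εc)) := by
    rw [hSB, hQB, Qd_eval, ← hsub]
    exact b2
  have hMder : (derivative (chM X (chW X cc w))).eval x = SA * d - SB * d := by
    unfold chM
    rw [derivative_sub, derivative_add, derivative_C, zero_add, eval_sub, Qc_der, Qc_der]
    have e1 : ∀ (q : Fin K → ℝ[X]) (c' : Fin K → ℝ[X]) (P : ℝ[X]) (r : ℝ),
        ∑ k, ((derivative (q k)).eval (P.eval x) * (derivative P).eval x *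
          (C ((c' k).eval r)).eval x + (q k).eval (P.eval x) *
            (derivative (C ((c' k).eval r))).eval x) =
        (∑ k, (derivative (q k)).eval (P.eval x) * (c' k).eval r) * (derivative P).eval x := by
      intro q c' P r
      rw [Finset.sum_mul]
      refine Finset.sum_congr rfl fun k _ => ?_
      rw [eval_C, derivative_C, eval_zero, mul_zero, add_zero]
      ring
    rw [e1, e1, g7, g8, ← hdd, hSA, hSB, hc]
    rfl
  have hE0der : (derivative (chE0 X (chW X cc w))).eval x =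
      (derivative (X.nL (X.l (w.1.1 0 0)) - X.gC (X.ell (w.1.1 (Fin.succ 0) 1)) -
        Qc (X.qk fun j => X.ell (w.1.1 j.succ 1)) (X.ck fun j => X.ell (w.1.1 j.succ 1))
          (chDr X (chW X cc w)))).eval x + (SA * d - SB * d) := by
    rw [← hMder, ← eval_add, ← derivative_add]
    rfl
  obtain ⟨y0, hy0⟩ : ∃ y0, y0 = ((derivative (chE0 X (chW X cc w))).eval x -
    (derivative (ble X w.2)).eval x) / (derivative (chD0 X (chW X cc w))).eval x := ⟨_, rfl⟩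
  obtain ⟨y1, hy1⟩ : ∃ y1, y1 = ((derivative (chE1 X (chW X cc w))).eval y -
    (derivative (ble X w.2)).eval y) / (derivative (chD1 X (chW X cc w))).eval y := ⟨_, rfl⟩
  rw [← hy0, ← hy1] at hG
  obtain ⟨z0, hz0⟩ : ∃ z0, z0 = ((derivative (X.nL (X.l (w.1.1 0 0)) -
      X.gC (X.ell (w.1.1 (Fin.succ 0) 1)) -
        Qc (X.qk fun j => X.ell (w.1.1 j.succ 1)) (X.ck fun j => X.ell (w.1.1 j.succ 1))
          (chDr X (chW X cc w)))).eval x - (derivative (ble X w.1.1)).eval x) / d := ⟨_, rfl⟩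
  have f0' : |z0 - (qst (X.vN ρ0 M) (X.vU ρ0 M) (w.1.1 0 0) (w.1.1 0 1) - QA.eval x)| ≤
      (2 * εg + K * (Lq * Lq * εu)) * θ / δ + K * (Lq * Lq * εu) := by
    rw [hz0, q0, hQA]
    rw [g7, ← hdd] at f0 ⊢
    exact f0
  have f1' : |y1 - (qst (X.vN ρ0 M) (X.vU ρ0 M) (w.2 0 0) (w.2 0 1) - QB'.eval y)| ≤
      (2 * εg + K * (Lq * Lq * εu)) * θ / δ + K * (Lq * Lq * εu) := by
    rw [hy1, q1, hQB]
    exact f1
  have hy0' : y0 = z0 + ((derivative (ble X w.1.1)).eval x - (derivative (ble X w.2)).eval x) / d +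
      (SA - SB) := by
    rw [hy0, hE0der, g8, ← hdd, hz0]
    field_simp
    ring
  have hdiv : |((derivative (ble X w.1.1)).eval x - (derivative (ble X w.2)).eval x) / d| ≤
      2 * (K₁ * ε1) * θ / δ := by
    refine quo_le hδ hds ?_
    refine (abs_sub _ _).trans ?_
    linarith
  have r1 : RA.eval x - RA.eval c = (QA.eval x - QA.eval c) -
      ((X.cL (X.l (w.1.1 0 1))).eval x - (X.cL (X.l (w.1.1 0 1))).eval c) := by
    rw [hRA, ← hQA, eval_sub, eval_sub]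
    ring
  have r2 : RB.eval y - RB.eval c = (QB'.eval y - QB'.eval c) -
      ((X.cL (X.l (w.2 0 1))).eval y - (X.cL (X.l (w.2 0 1))).eval c) := by
    rw [hRB, ← hQB, eval_sub, eval_sub]
    ring
  rw [r1] at m3
  rw [r2] at m4
  rw [c0, c1, c2, c3]
  rw [hy0'] at hG
  -- the names of the remaining values
  obtain ⟨qA, hqA⟩ : ∃ qA, qA = qst (X.vN ρ0 M) (X.vU ρ0 M) (w.1.1 0 0) (w.1.1 0 1) := ⟨_, rfl⟩
  obtain ⟨qB, hqB⟩ : ∃ qB, qB = qst (X.vN ρ0 M) (X.vU ρ0 M) (w.2 0 0) (w.2 0 1) := ⟨_, rfl⟩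
  rw [← hqA] at f0' ⊢
  rw [← hqB] at f1' ⊢
  obtain ⟨e, he⟩ : ∃ e, e = ((derivative (ble X w.1.1)).eval x -
    (derivative (ble X w.2)).eval x) / d := ⟨_, rfl⟩
  rw [← he] at hG hdiv
  have key : (qA - (X.cL (X.l (w.1.1 0 1))).eval x) - (qB - (X.cL (X.l (w.2 0 1))).eval y) +
      ((X.cL (X.l (w.1.1 0 1))).eval T - (X.cL (X.l (w.2 0 1))).eval T) =
      (z0 + e + (SA - SB) - y1) - (z0 - (qA - QA.eval x)) + (y1 - (qB - QB'.eval y)) - e -
      (SA - QA.eval c) + (SB - QB'.eval c) +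
      ((QA.eval x - QA.eval c) -
        ((X.cL (X.l (w.1.1 0 1))).eval x - (X.cL (X.l (w.1.1 0 1))).eval c)) -
      ((QB'.eval y - QB'.eval c) -
        ((X.cL (X.l (w.2 0 1))).eval y - (X.cL (X.l (w.2 0 1))).eval c)) -
      ((X.cL (X.l (w.1.1 0 1))).eval c - (X.cL (X.l (w.1.1 0 1))).eval T) +
      ((X.cL (X.l (w.2 0 1))).eval c - (X.cL (X.l (w.2 0 1))).eval T) := by ring
  rw [key]
  rw [abs_le] at hG f0' f1' hdiv b1' b2' m3 m4 m5 m6 ⊢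
  constructor <;> linarith [hG.1, hG.2, f0'.1, f0'.2, f1'.1, f1'.2, hdiv.1, hdiv.2, b1'.1,
    b1'.2, b2'.1, b2'.2, m3.1, m3.2, m4.1, m4.2, m5.1, m5.2, m6.1, m6.2]

end

end Pool.NA17
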