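import Pool.Agent.H17.NA.All

/-!
# The chain, law level, with two letters for the numbers

`chn_fin`: `chn_all` with a crude number `P` and a tiny number `τ`.
-/

set_option autoImplicit false

namespace Pool.NA17

open Finset Polynomial
open Pool.Agent.H49.Ent Pool.Agent.H32.Dense Pool.STK
open Pool.BFL (Pb)
open Pool.STB (Pb_mono Pb_or)
open Pool.K2S (cpn)
open Pool.CLU (cpn_law cpn_pos cpn_marg)
open Pool.SL77
open Pool.NA55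

/-- **The chain, law level, crude numbers.** -/
theorem chn_fin (D K : ℕ) : ∃ (Kc : ℝ) (C₀ : ℕ), 1 ≤ Kc ∧ 1 ≤ C₀ ∧
    ∀ {Ω Λ E Z Z' R Rd F U T T' X' G Y' : Type} [Fintype Ω] {N : ℕ} (X : SlD Ω Λ E N K)
    (_ : X.Deg D) {p : Ω → ℝ} (_ : IsLaw p) (zq : Ω → Z') (zp : Ω → Z) (zr : Ω → R)
    (zd : Ω → Rd) (_ : Det p zd zq) (f : Ω → F)
    (J : Ω → G) (ufar : Ω → U) (T0 : Ω → T) (tl : Ω → T') (xc : Ω → X') (xj : Ω → Y')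
    (cc : Ω → ℝ) {M : ℕ} (_ : 1 ≤ M) {cF cU cJ cm e₀ e₁ e₂ e₃ e₄ e₅ e₆ e₇ eT : ℝ}
    (_ : SlEnt X p zq zr f ufar T0 tl xc M cF cU e₀ e₁ e₂ e₃ e₄ e₅ eT)
    (_ : ChEnt X p zq zp zr J T0 xc xj cc cU cJ cm e₀ e₁ e₆ e₇)
    {ρ0 ε εu εg ε1 ε2 δ θ Lq Y εc η : ℝ}
    (_ : ∀ ω, 0 < p ω → |cc ω - X.tm ρ0 M ω| ≤ εc)
    (_ : Pb p (fun ω => ¬ SamR X εg Y ω) ≤ η)
    (_ : Pb (cpn p zq 1) (fun v => ¬ StarR X ρ0 M ε εu δ θ v) ≤ η)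
    (_ : Pb (cpn p zp 1) (fun v => ¬ GenR X ρ0 M ε εu v) ≤ η)
    (_ : Pb (cpn p zr (N + 1)) (fun w => ¬ ParR X ε1 ε2 Lq Y w) ≤ η)
    (cs : Ω → ℝ) {nat δ' : ℝ} (_ : 0 < δ')
    (_ : Pb (cpn p zd 1) (fun v => ¬ (|X.vN ρ0 M (v 1) - X.vN ρ0 M (v 0) -
      cs (v 0) * (X.vU ρ0 M (v 1) - X.vU ρ0 M (v 0))| ≤ nat ∧
        δ' ≤ |X.vU ρ0 M (v 1) - X.vU ρ0 M (v 0)|)) ≤ η)
    (Bν : Ω → Prop) (S : ℕ → E × ℤ → Finset ℤ) (n : ℕ) (Nn a b : ℕ → ℕ) (V : ℕ → ℝ)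
    {c₀ ρ Kν Gb : ℝ} (_ : 0 < ρ) (_ : ρ < 1) (_ : (C₀ : ℝ) ≤ ρ ^ C₀ * (2 * M + 1))
    (_ : ∀ k < n, ∀ ω, 0 < p ω → Bν ω → X.ν ω / 2 ^ a k ∈ S k (X.ell ω, X.ν ω / 2 ^ b k))
    (_ : ∀ k < n, ∀ w, (S k w).card ≤ Nn k) (_ : Pb p (fun ω => ¬ Bν ω) ≤ c₀)
    (P τ : ℝ) (_ : 1 ≤ P) (_ : 0 ≤ τ) (_ : Kc * (P ^ 8 * τ) ≤ 1)
    (_ : 0 < ρ0) (_ : ρ0 ≤ 1 / 4) (_ : 1 / ρ0 ≤ P) (_ : 0 < δ) (_ : δ ≤ 1 / 2) (_ : 1 / δ ≤ P)
    (_ : 1 ≤ θ) (_ : θ ≤ P) (_ : θ ^ 2 * ρ0 ≤ 1 / 2) (_ : 0 ≤ ε)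
    (_ : 0 ≤ εu) (_ : εu ≤ τ) (_ : 0 ≤ εg) (_ : εg ≤ τ) (_ : 0 ≤ εc) (_ : εc ≤ τ)
    (_ : 0 ≤ ε1) (_ : ε1 ≤ P) (_ : 0 ≤ ε2) (_ : ε2 ≤ P) (_ : 0 ≤ Lq) (_ : Lq ≤ P)
    (_ : 0 ≤ Y) (_ : Y ≤ P)
    (_ : 4 * ε + Kc * (ε1 * ρ0) + 2 ≤ Kν)
    (_ : ∀ k < n, a k ≤ b k ∧ Kν ≤ 2 ^ a k ∧ 0 < V k ∧ V (k + 1) ≤ 2 ^ b k ∧
      (C₀ : ℝ) * Nn k * 2 ^ a k ≤ ρ ^ C₀ * V k ∧ (C₀ : ℝ) * Nn k ≤ ρ ^ C₀ * M)
    (_ : Kc * P ^ 2 ≤ V n)
    (_ : Kc * ((θ / δ) * (V 0 / ρ0 + ε1) + ε2 * ρ0) + 1 ≤ Gb)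
    {E₁ E₂ : ℝ}
    (_ : c₀ + 28 * η + n * ((eT + ((N + 1 + 2) * e₁ + (N + 1 + 1) * e₀ + 2 * e₂ +
        (N + 1) * e₃ + e₄ + e₅) + Real.log 2) / Real.log (1 / ρ)) ≤ E₁)
    (_ : c₀ + 44 * η + n * ((eT + ((2 * (N + 1) + 3) * e₁ + (2 * (N + 1) + 1) * e₀ + 2 * e₂ +
        2 * (N + 1) * e₃ + e₄ + e₅ + e₆ + e₇) + Real.log 2) / Real.log (1 / ρ)) ≤ E₂)
    (sc : ℝ) (_ : 0 < sc) (Kf Nf : ℕ)
    (_ : (5 * Gb + 2 * ((2 * Gb * (θ * δ) + nat) / δ')) / sc + 1 ≤ Kf)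
    (_ : ∀ ω, 0 < p ω → |⌊cs ω / sc⌋| ≤ (Nf : ℤ)),
    Pb (cpn p zp 1) (fun v => ¬ |cs (v 0) - cs (v 1)| ≤
      5 * Gb + 2 * ((2 * Gb * (θ * δ) + nat) / δ')) ≤ E₂ + 14 * E₁ ∧
    CH p (fun ω => ⌊cs ω / sc⌋) zp ≤ Real.log 2 + Real.log (2 * Kf + 1) +
      (E₂ + 14 * E₁) * Real.log (2 * Nf + 1) := by
  classical
  obtain ⟨K₁, C₀, hK₁, hC₀, hall⟩ := chn_all D
  have hK0 : (0 : ℝ) ≤ K := Nat.cast_nonneg K
  have hK10 : 0 ≤ K₁ := by linarith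
  obtain ⟨A1, hA1⟩ : ∃ A1, A1 = K₁ * ((8 + 5 * K) * (3 + K₁)) + (4 + 2 * K) + 2 * K + K +
    K * (2 + K₁) + 2 * (K₁ * (K + 1)) := ⟨_, rfl⟩
  obtain ⟨A2, hA2⟩ : ∃ A2, A2 = 6 + 2 * K₁ + 4 * K + 2 * (K * (2 + K₁)) +
    K₁ * ((7 + 5 * K) * (3 + K₁)) := ⟨_, rfl⟩
  have hA10 : 0 ≤ A1 := by rw [hA1]; positivity
  have hA20 : 0 ≤ A2 := by rw [hA2]; positivity
  obtain ⟨Kc, hKc⟩ : ∃ Kc, Kc = A1 + A2 + 2 * (3 + K₁) + 13 * K₁ + (12 + 10 * K) := ⟨_, rfl⟩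
  have hKcA1 : A1 ≤ Kc := by rw [hKc]; linarith
  have hKcA2 : A2 ≤ Kc := by rw [hKc]; linarith
  have hKc3 : 2 * (3 + K₁) ≤ Kc := by rw [hKc]; linarith
  have hKc13 : 13 * K₁ ≤ Kc := by rw [hKc]; linarith
  have hKc12 : 12 + 10 * K ≤ Kc := by rw [hKc]; linarith
  have hKc0 : 0 ≤ Kc := by linarith
  refine ⟨Kc, C₀, by linarith, hC₀, ?_⟩
  intro Ω Λ E Z Z' R Rd F U T T' X' G Y' _ N X hdeg p hp zq zp zr zd hdp f J ufar T0 tl xc xj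
    cc M hM cF cU cJ cm e₀ e₁ e₂ e₃ e₄ e₅ e₆ e₇ eT HE HC ρ0 ε εu εg ε1 ε2 δ θ Lq Y εc η hcc hS
    hSt hGe hPr cs nat δ' hδ' hnat Bν S n Nn a b V c₀ ρ Kν Gb hρ hρ1 hCM hrow hcard hB P τ hP hτ
    hPτ h0 h1 hρP hδ hδ1 hδP hθ hθP hθρ hε0 hu0 hu hg0 hg hc0 hc he10 he1 he20 he2 hL0 hL hY0 hY
    hKν hnum htopn hGn E₁ E₂ hE₁ hE₂ sc hsc Kf Nf hKf hNf
  have hP0 : 0 < P := by linarith
  have hθ0 : 0 < θ := by linarith
  obtain ⟨t, ht⟩ : ∃ t, t = P ^ 8 * τ := ⟨_, rfl⟩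
  rw [← ht] at hPτ
  have ht0 : 0 ≤ t := by rw [ht]; positivity
  have hpw : ∀ i ≤ 8, P ^ i * τ ≤ t := fun i hi => by
    rw [ht]
    exact mul_le_mul_of_nonneg_right (pow_le_pow_right₀ hP hi) hτ
  have hA1t : A1 * t ≤ 1 := (mul_le_mul_of_nonneg_right hKcA1 ht0).trans hPτ
  have hA2t : A2 * t ≤ 1 := (mul_le_mul_of_nonneg_right hKcA2 ht0).trans hPτ
  have hA3t : 2 * (3 + K₁) * t ≤ 1 := (mul_le_mul_of_nonneg_right hKc3 ht0).trans hPτ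
  have ht1 : t ≤ 1 := by
    have e1 : 1 * t ≤ 2 * (3 + K₁) * t := mul_le_mul_of_nonneg_right (by linarith) ht0
    linarith only [e1, hA3t]
  have hτt : τ ≤ t := by
    have := hpw 0 (by norm_num)
    rwa [pow_zero, one_mul] at this
  -- the basic quantities
  obtain ⟨q, hq⟩ : ∃ q, q = θ / δ := ⟨_, rfl⟩
  have hq0 : 0 ≤ q := by rw [hq]; positivity
  have hqP : q ≤ P ^ 2 := by
    rw [hq, div_eq_mul_one_div, pow_two]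
    exact mul_le_mul hθP hδP (by positivity) hP0.le
  have hr0 : 0 ≤ 1 / ρ0 := by positivity
  obtain ⟨Xc, hXc⟩ : ∃ Xc, Xc = 7 * Y + 4 * (K * (Y * Lq)) + K * (Lq * Lq) := ⟨_, rfl⟩
  have hXc0 : 0 ≤ Xc := by
    rw [hXc]
    positivity
  have hYL : K * (Y * Lq) ≤ K * P ^ 2 := by
    rw [pow_two]
    exact mul_le_mul_of_nonneg_left (mul_le_mul hY hL hL0 hP0.le) hK0
  have hLL : K * (Lq * Lq) ≤ K * P ^ 2 := by
    rw [pow_two]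
    exact mul_le_mul_of_nonneg_left (mul_le_mul hL hL hL0 hP0.le) hK0
  have hPP : P ≤ P ^ 2 := le_self_pow₀ hP two_ne_zero
  have hXcP : Xc ≤ (7 + 5 * K) * P ^ 2 := by
    have e1 : (7 + 5 * K) * P ^ 2 = 7 * P ^ 2 + 5 * (K * P ^ 2) := by ring
    rw [hXc, e1]
    linarith only [hYL, hLL, hY, hPP]
  obtain ⟨s, hs⟩ : ∃ s, s = 3 * εu + K₁ * εc := ⟨_, rfl⟩
  have hs0 : 0 ≤ s := by rw [hs]; positivity
  have hsτ : s ≤ (3 + K₁) * τ := by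
    rw [hs]
    have := mul_le_mul_of_nonneg_left hc hK10
    linarith
  obtain ⟨u, hu'⟩ : ∃ u, u = θ * s / δ := ⟨_, rfl⟩
  have huq : u = q * s := by rw [hu', hq]; ring
  have hu00 : 0 ≤ u := by rw [huq]; positivity
  have huP : u ≤ (3 + K₁) * (P ^ 2 * τ) := by
    rw [huq]
    calc q * s ≤ P ^ 2 * ((3 + K₁) * τ) := mul_le_mul hqP hsτ hs0 (by positivity)
      _ = (3 + K₁) * (P ^ 2 * τ) := by ring
  have h3K : 0 ≤ 3 + K₁ := by linarith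
  -- the small quantities
  have b1 : K * (Lq * Lq * εu) ≤ K * t := by
    refine mul_le_mul_of_nonneg_left ?_ hK0
    calc Lq * Lq * εu ≤ P * P * τ :=
          mul_le_mul (mul_le_mul hL hL hL0 hP0.le) hu hu0 (by positivity)
      _ = P ^ 2 * τ := by ring
      _ ≤ t := hpw 2 (by norm_num)
  have b2 : K * (Lq * Lq * (2 * εu + K₁ * εc)) ≤ K * (2 + K₁) * t := by
    have e1 : 2 * εu + K₁ * εc ≤ (2 + K₁) * τ := by
      have := mul_le_mul_of_nonneg_left hc hK10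
      linarith
    have e2 : Lq * Lq * (2 * εu + K₁ * εc) ≤ (2 + K₁) * t := by
      calc Lq * Lq * (2 * εu + K₁ * εc) ≤ P * P * ((2 + K₁) * τ) :=
            mul_le_mul (mul_le_mul hL hL hL0 hP0.le) e1 (by positivity) (by positivity)
        _ = (2 + K₁) * (P ^ 2 * τ) := by ring
        _ ≤ (2 + K₁) * t := mul_le_mul_of_nonneg_left (hpw 2 (by norm_num)) (by linarith)
    calc K * (Lq * Lq * (2 * εu + K₁ * εc)) ≤ K * ((2 + K₁) * t) :=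
          mul_le_mul_of_nonneg_left e2 hK0
      _ = K * (2 + K₁) * t := by ring
  have b3 : K₁ * Y * εc ≤ K₁ * t := by
    rw [mul_assoc]
    refine mul_le_mul_of_nonneg_left ?_ hK10
    calc Y * εc ≤ P * τ := mul_le_mul hY hc hc0 hP0.le
      _ = P ^ 1 * τ := by ring
      _ ≤ t := hpw 1 (by norm_num)
  have b4 : K₁ * (Xc / ρ0 * u) ≤ K₁ * ((7 + 5 * K) * (3 + K₁)) * t := by
    have e1 : Xc / ρ0 ≤ (7 + 5 * K) * P ^ 2 * P := by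
      rw [div_eq_mul_one_div]
      exact mul_le_mul hXcP hρP hr0 (by positivity)
    have e2 : Xc / ρ0 * u ≤ ((7 + 5 * K) * (3 + K₁)) * t := by
      calc Xc / ρ0 * u ≤ ((7 + 5 * K) * P ^ 2 * P) * ((3 + K₁) * (P ^ 2 * τ)) :=
            mul_le_mul e1 huP hu00 (by positivity)
        _ = ((7 + 5 * K) * (3 + K₁)) * (P ^ 5 * τ) := by ring
        _ ≤ _ := mul_le_mul_of_nonneg_left (hpw 5 (by norm_num)) (by positivity)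
    calc K₁ * (Xc / ρ0 * u) ≤ K₁ * (((7 + 5 * K) * (3 + K₁)) * t) :=
          mul_le_mul_of_nonneg_left e2 hK10
      _ = _ := by ring
  have b5 : K₁ * q * ((Xc / ρ0 ^ 2 + ε1) * u) ≤ K₁ * ((8 + 5 * K) * (3 + K₁)) * t := by
    have e1 : Xc / ρ0 ^ 2 + ε1 ≤ (8 + 5 * K) * P ^ 4 := by
      have f1 : Xc / ρ0 ^ 2 ≤ (7 + 5 * K) * P ^ 2 * (P * P) := by
        have f2 : Xc / ρ0 ^ 2 = Xc * ((1 / ρ0) * (1 / ρ0)) := by
          field_simp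
        rw [f2]
        exact mul_le_mul hXcP (mul_le_mul hρP hρP hr0 hP0.le) (by positivity) (by positivity)
      have f3 : P ≤ P ^ 4 := le_self_pow₀ hP (by norm_num)
      have f4 : (8 + 5 * K) * P ^ 4 = (7 + 5 * K) * P ^ 2 * (P * P) + P ^ 4 := by ring
      rw [f4]
      linarith only [f1, f3, he1]
    have e2 : q * ((Xc / ρ0 ^ 2 + ε1) * u) ≤ ((8 + 5 * K) * (3 + K₁)) * t := by
      calc q * ((Xc / ρ0 ^ 2 + ε1) * u) ≤ P ^ 2 * (((8 + 5 * K) * P ^ 4) *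
            ((3 + K₁) * (P ^ 2 * τ))) :=
            mul_le_mul hqP (mul_le_mul e1 huP hu00 (by positivity)) (by positivity)
              (by positivity)
        _ = ((8 + 5 * K) * (3 + K₁)) * (P ^ 8 * τ) := by ring
        _ = _ := by rw [← ht]
    calc K₁ * q * ((Xc / ρ0 ^ 2 + ε1) * u) = K₁ * (q * ((Xc / ρ0 ^ 2 + ε1) * u)) := by ring
      _ ≤ K₁ * (((8 + 5 * K) * (3 + K₁)) * t) := mul_le_mul_of_nonneg_left e2 hK10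
      _ = _ := by ring
  have b6 : (2 * εg + K * (Lq * Lq * εu)) * θ / δ ≤ (2 + K) * t := by
    have e1 : 2 * εg + K * (Lq * Lq * εu) ≤ (2 + K) * (P ^ 2 * τ) := by
      have f1 : K * (Lq * Lq * εu) ≤ K * (P ^ 2 * τ) := by
        refine mul_le_mul_of_nonneg_left ?_ hK0
        calc Lq * Lq * εu ≤ P * P * τ :=
              mul_le_mul (mul_le_mul hL hL hL0 hP0.le) hu hu0 (by positivity)
          _ = P ^ 2 * τ := by ring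
      have f2 : εg ≤ P ^ 2 * τ := by
        refine hg.trans ?_
        have : 1 * τ ≤ P ^ 2 * τ := mul_le_mul_of_nonneg_right (one_le_pow₀ hP) hτ
        linarith
      linarith
    calc (2 * εg + K * (Lq * Lq * εu)) * θ / δ = (2 * εg + K * (Lq * Lq * εu)) * q := by
          rw [hq]
          ring
      _ ≤ ((2 + K) * (P ^ 2 * τ)) * P ^ 2 := mul_le_mul e1 hqP hq0 (by positivity)
      _ = (2 + K) * (P ^ 4 * τ) := by ring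
      _ ≤ (2 + K) * t := mul_le_mul_of_nonneg_left (hpw 4 (by norm_num)) (by linarith)
  have b7 : K₁ * (K * (Lq * Lq) + ε2) * εc ≤ K₁ * (K + 1) * t := by
    have e1 : K * (Lq * Lq) + ε2 ≤ (K + 1) * P ^ 2 := by linarith
    have e2 : (K * (Lq * Lq) + ε2) * εc ≤ (K + 1) * t := by
      calc (K * (Lq * Lq) + ε2) * εc ≤ ((K + 1) * P ^ 2) * τ :=
            mul_le_mul e1 hc hc0 (by positivity)
        _ = (K + 1) * (P ^ 2 * τ) := by ring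
        _ ≤ (K + 1) * t := mul_le_mul_of_nonneg_left (hpw 2 (by norm_num)) (by linarith)
    calc K₁ * (K * (Lq * Lq) + ε2) * εc = K₁ * ((K * (Lq * Lq) + ε2) * εc) := by ring
      _ ≤ K₁ * ((K + 1) * t) := mul_le_mul_of_nonneg_left e2 hK10
      _ = _ := by ring
  have b8 : u ≤ (3 + K₁) * (P ^ 2 * τ) := huP
  refine hall X hdeg hp zq zp zr zd hdp f J ufar T0 tl xc xj cc hM HE HC hcc hS hSt hGe hPr cs
    hδ' hnat Bν S n Nn a b V (Kν := Kν) hρ hρ1 hCM hrow hcard hB h0 h1 hδ hθ hθρ hε0 hu0 ?_ hg0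
    hc0 ?_ he10 he20 hL0 hY0 ?_ ?_ ?_ hnum ?_ ?_ hE₁ hE₂ sc hsc Kf Nf hKf hNf
  · -- `εu ≤ 1`
    exact (hu.trans hτt).trans ht1
  · -- `εc ≤ ρ0`
    have e1 : P * τ ≤ t := by
      have := hpw 1 (by norm_num)
      rwa [pow_one] at this
    have e2 : P * τ ≤ 1 := e1.trans ht1
    have e3 : 1 ≤ ρ0 * P := by
      rw [div_le_iff₀ h0] at hρP
      linarith
    have e4 : ρ0 * (P * τ) ≤ ρ0 * 1 := mul_le_mul_of_nonneg_left e2 h0.le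
    have e5 : τ ≤ ρ0 * P * τ := by
      have : 1 * τ ≤ ρ0 * P * τ := mul_le_mul_of_nonneg_right e3 hτ
      linarith
    have e6 : ρ0 * P * τ = ρ0 * (P * τ) := by ring
    linarith
  · -- the height
    have e1 : 2 * εu + K₁ * εc ≤ (3 + K₁) * τ := by
      have := mul_le_mul_of_nonneg_left hc hK10
      linarith
    have e2 : (3 + K₁) * τ ≤ (3 + K₁) * t := mul_le_mul_of_nonneg_left hτt h3K
    have e3 : θ * ρ0 ≤ 1 / 2 := by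
      have f1 : θ * ρ0 ≤ θ ^ 2 * ρ0 := by
        exact mul_le_mul_of_nonneg_right (le_self_pow₀ hθ two_ne_zero) h0.le
      exact f1.trans hθρ
    have e4 : θ * δ * (2 * ρ0) ≤ 1 / 2 := by
      have f1 : θ * δ * (2 * ρ0) = 2 * (θ * ρ0) * δ := by ring
      rw [f1]
      have f2 : 2 * (θ * ρ0) * δ ≤ 1 * δ :=
        mul_le_mul_of_nonneg_right (by linarith only [e3]) hδ.le
      linarith only [f2, hδ1]
    linarith only [e1, e2, e4, hA3t]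
  · -- the crossing
    rw [← hs, ← hu']
    have e1 : u * P ≤ 1 := by
      calc u * P ≤ (3 + K₁) * (P ^ 2 * τ) * P := mul_le_mul_of_nonneg_right huP hP0.le
        _ = (3 + K₁) * (P ^ 3 * τ) := by ring
        _ ≤ (3 + K₁) * t := mul_le_mul_of_nonneg_left (hpw 3 (by norm_num)) h3K
        _ ≤ 1 := by
          have : 0 ≤ (3 + K₁) * t := mul_nonneg h3K ht0
          linarith
    have e2 : 1 ≤ ρ0 * P := by
      rw [div_le_iff₀ h0] at hρP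
      linarith
    have e3 : u * 1 ≤ u * (ρ0 * P) := mul_le_mul_of_nonneg_left e2 hu00
    have e4 : ρ0 * (u * P) ≤ ρ0 * 1 := mul_le_mul_of_nonneg_left e1 h0.le
    have e5 : u * (ρ0 * P) = ρ0 * (u * P) := by ring
    linarith
  · -- the blocks
    rw [← hs, ← hu', ← hXc]
    refine le_trans ?_ hKν
    have e1 : K₁ * ε1 * (6 * ρ0) = 6 * (K₁ * (ε1 * ρ0)) := by ring
    have e2 : K₁ * (ε1 * ρ0 + Xc / ρ0 * u) = K₁ * (ε1 * ρ0) + K₁ * (Xc / ρ0 * u) := by ring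
    have e3 : 13 * (K₁ * (ε1 * ρ0)) ≤ Kc * (ε1 * ρ0) := by
      calc 13 * (K₁ * (ε1 * ρ0)) = 13 * K₁ * (ε1 * ρ0) := by ring
        _ ≤ Kc * (ε1 * ρ0) := mul_le_mul_of_nonneg_right hKc13 (mul_nonneg he10 h0.le)
    have e4 : εg ≤ t := hg.trans hτt
    have e5 : A2 * t = 6 * t + 2 * (K₁ * t) + 4 * (K * t) + 2 * (K * (2 + K₁) * t) +
        K₁ * ((7 + 5 * K) * (3 + K₁)) * t := by
      rw [hA2]
      ring
    rw [e1, e2]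
    linarith only [e3, e4, e5, b1, b2, b3, b4, hA2t]
  · -- the top
    refine le_trans ?_ htopn
    have e1 : 2 * (6 * Y + 4 * (K * (Y * Lq)) + K * (Lq * Lq)) ≤ (12 + 10 * K) * P ^ 2 := by
      have e2 : (12 + 10 * K) * P ^ 2 = 12 * P ^ 2 + 10 * (K * P ^ 2) := by ring
      rw [e2]
      linarith only [hYL, hLL, hY, hPP]
    exact e1.trans (mul_le_mul_of_nonneg_right hKc12 (by positivity))
  · -- the gain
    rw [← hs, ← hu', ← hXc]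
    refine le_trans ?_ hGn
    have hV0 : 0 ≤ V 0 := by
      rcases Nat.eq_zero_or_pos n with hn | hn
      · rw [hn] at htopn
        refine le_trans (by positivity) htopn
      · exact (hnum 0 hn).2.2.1.le
    have e1 : K₁ * (θ / δ) * (V 0 / ρ0 + (Xc / ρ0 ^ 2 + ε1) * u + ε1) =
        K₁ * (q * (V 0 / ρ0 + ε1)) + K₁ * q * ((Xc / ρ0 ^ 2 + ε1) * u) := by
      rw [hq]
      ring
    have e2 : 2 * (K₁ * ε1) * θ / δ = 2 * (K₁ * (q * ε1)) := by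
      rw [hq]
      ring
    have e3 : K₁ * ε2 * (6 * ρ0) = 6 * (K₁ * (ε2 * ρ0)) := by ring
    have e4 : q * ε1 ≤ q * (V 0 / ρ0 + ε1) := by
      refine mul_le_mul_of_nonneg_left ?_ hq0
      have : 0 ≤ V 0 / ρ0 := by positivity
      linarith
    have e5 : K₁ * (q * ε1) ≤ K₁ * (q * (V 0 / ρ0 + ε1)) := mul_le_mul_of_nonneg_left e4 hK10
    have z1 : 0 ≤ q * (V 0 / ρ0 + ε1) := by positivity
    have z2 : 0 ≤ ε2 * ρ0 := by positivity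
    have e6 : 13 * (K₁ * (q * (V 0 / ρ0 + ε1) + ε2 * ρ0)) ≤
        Kc * (q * (V 0 / ρ0 + ε1) + ε2 * ρ0) := by
      calc 13 * (K₁ * (q * (V 0 / ρ0 + ε1) + ε2 * ρ0)) =
            13 * K₁ * (q * (V 0 / ρ0 + ε1) + ε2 * ρ0) := by ring
        _ ≤ _ := mul_le_mul_of_nonneg_right hKc13 (add_nonneg z1 z2)
    have z3 : 0 ≤ K₁ * (q * (V 0 / ρ0 + ε1)) := mul_nonneg hK10 z1
    have z4 : 0 ≤ K₁ * (ε2 * ρ0) := mul_nonneg hK10 z2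
    have e7 : 13 * (K₁ * (q * (V 0 / ρ0 + ε1) + ε2 * ρ0)) =
        13 * (K₁ * (q * (V 0 / ρ0 + ε1))) + 13 * (K₁ * (ε2 * ρ0)) := by ring
    have e8 : A1 * t = K₁ * ((8 + 5 * K) * (3 + K₁)) * t + 2 * ((2 + K) * t) + 2 * (K * t) +
        K * t + K * (2 + K₁) * t + 2 * (K₁ * (K + 1) * t) := by
      rw [hA1]
      ring
    rw [e1, e2, e3, ← hq]
    linarith only [e5, e6, z3, z4, e7, e8, b1, b2, b5, b6, b7, hA1t]

end Pool.NA17
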