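import Mathlib
import Pool.Agent.H32.Dense.EntX
import Pool.Agent.H90.STK.Defs

/-!
# Sublevel sets of polynomials

`sub_cover`: the sublevel set of a real polynomial with a large top coefficient is covered by few small
intervals. `place_few`: a number in the sublevel set of a known polynomial is few.
-/

set_option autoImplicit false

namespace Pool.NA17

open Finset Real Polynomial
open Pool.Agent.H49.Ent Pool.Agent.H32.Dense Pool.STK

theorem norm_mprod (M : Multiset ℂ) (f : ℂ → ℂ) :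
    ‖(M.map f).prod‖ = (M.map fun z => ‖f z‖).prod := by
  induction M using Multiset.induction with
  | empty => rw [Multiset.map_zero, Multiset.map_zero, Multiset.prod_zero, Multiset.prod_zero,
      norm_one]
  | cons z M ih => rw [Multiset.map_cons, Multiset.map_cons, Multiset.prod_cons,
      Multiset.prod_cons, norm_mul, ih]

/-- **Sublevel sets** of a polynomial with a large top coefficient. -/
theorem sub_cover {P : ℝ[X]} {d : ℕ} (hd : P.natDegree ≤ d) (hd1 : 1 ≤ d) {lam eps : ℝ}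
    (hlam : 0 < lam) (hc : lam ≤ |P.coeff d|) (heps : 0 ≤ eps) :
    ∃ Z : Finset ℝ, Z.card ≤ d ∧ ∀ s : ℝ, |P.eval s| ≤ eps →
      ∃ z ∈ Z, |s - z| ≤ (eps / lam) ^ (1 / (d : ℝ)) := by
  classical
  have hcd : P.coeff d ≠ 0 := by
    intro h
    rw [h, abs_zero] at hc
    linarith
  have hnd : P.natDegree = d := le_antisymm hd (Polynomial.le_natDegree_of_ne_zero hcd)
  obtain ⟨Q, hQ⟩ : ∃ Q : ℂ[X], Q = P.map (algebraMap ℝ ℂ) := ⟨_, rfl⟩
  have hQd : Q.natDegree = d := by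
    rw [hQ, Polynomial.natDegree_map, hnd]
  have hQl : Q.leadingCoeff = ((P.coeff d : ℝ) : ℂ) := by
    rw [Polynomial.leadingCoeff, hQd, hQ, Polynomial.coeff_map]
    rfl
  have hspl : Q.Splits := IsAlgClosed.splits Q
  have hroots : Q.roots.card = d := by
    rw [← hQd]
    exact (Polynomial.Splits.natDegree_eq_card_roots hspl).symm
  have hev : ∀ s : ℝ, |P.eval s| = |P.coeff d| * (Q.roots.map fun z => ‖(s : ℂ) - z‖).prod := by
    intro s
    have h1 : Q.eval (s : ℂ) = ((P.eval s : ℝ) : ℂ) := by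
      rw [hQ, Polynomial.eval_map]
      have := Polynomial.eval₂_at_apply (algebraMap ℝ ℂ) s (p := P)
      exact this
    have h2 := Polynomial.Splits.eval_eq_prod_roots hspl (s : ℂ)
    have h3 : ‖Q.eval (s : ℂ)‖ = |P.eval s| := by
      rw [h1, Complex.norm_real, Real.norm_eq_abs]
    rw [← h3, h2, norm_mul, hQl, Complex.norm_real, Real.norm_eq_abs]
    congr 1
    exact norm_mprod _ _
  refine ⟨(Q.roots.map Complex.re).toFinset, ?_, fun s hs => ?_⟩
  · refine (Multiset.toFinset_card_le _).trans ?_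
    rw [Multiset.card_map, hroots]
  · by_contra hcon
    push Not at hcon
    obtain ⟨r, hr⟩ : ∃ r, r = (eps / lam) ^ (1 / (d : ℝ)) := ⟨_, rfl⟩
    have hr0 : 0 ≤ r := by
      rw [hr]
      positivity
    have hd0 : (d : ℝ) ≠ 0 := by
      have : (1 : ℝ) ≤ d := by exact_mod_cast hd1
      linarith
    have hrd : r ^ d = eps / lam := by
      rw [hr, ← Real.rpow_natCast, ← Real.rpow_mul (by positivity)]
      rw [one_div, inv_mul_cancel₀ hd0, Real.rpow_one]
    have h1 : ∀ z ∈ Q.roots, r < ‖(s : ℂ) - z‖ := by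
      intro z hz
      have h2 := hcon z.re (Multiset.mem_toFinset.2 (Multiset.mem_map_of_mem _ hz))
      rw [← hr] at h2
      have h3 : |s - z.re| ≤ ‖(s : ℂ) - z‖ := by
        have := Complex.abs_re_le_norm ((s : ℂ) - z)
        rwa [Complex.sub_re, Complex.ofReal_re] at this
      linarith
    have h2 : ∀ M : Multiset ℂ, (∀ z ∈ M, r < ‖(s : ℂ) - z‖) → M ≠ 0 →
        r ^ M.card < (M.map fun z => ‖(s : ℂ) - z‖).prod := by
      intro M
      induction M using Multiset.induction with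
      | empty => exact fun _ h => absurd rfl h
      | cons z M ih =>
        intro hM _
        rw [Multiset.card_cons, Multiset.map_cons, Multiset.prod_cons, pow_succ, mul_comm]
        have h3 := hM z (Multiset.mem_cons_self z M)
        rcases eq_or_ne M 0 with h4 | h4
        · rw [h4, Multiset.card_zero, pow_zero, Multiset.map_zero, Multiset.prod_zero, mul_one,
            mul_one]
          exact h3
        · have h5 := ih (fun z' hz' => hM z' (Multiset.mem_cons_of_mem hz')) h4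
          exact mul_lt_mul'' h3 h5 hr0 (by positivity)
    have hne : Q.roots ≠ 0 := by
      intro h
      rw [h, Multiset.card_zero] at hroots
      omega
    have h3 := h2 Q.roots h1 hne
    rw [hroots, hrd] at h3
    rw [hev] at hs
    have h4 : lam * (eps / lam) < |P.coeff d| * (Q.roots.map fun z => ‖(s : ℂ) - z‖).prod := by
      refine mul_lt_mul' hc h3 (by positivity) (by linarith)
    rw [mul_div_cancel₀ _ hlam.ne'] at h4
    linarith

/-- **A number in the sublevel set of a known polynomial is few.** -/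
theorem place_few {Ω κ : Type} [Fintype Ω] {q : Ω → ℝ} (hq : IsLaw q) {y : Ω → κ} {T : Ω → ℝ}
    {P : κ → ℝ[X]} {d : ℕ} (hd1 : 1 ≤ d) {lam eps : ℝ} (hlam : 0 < lam) (heps : 0 ≤ eps)
    (hd : ∀ ω, 0 < q ω → (P (y ω)).natDegree ≤ d) (hc : ∀ ω, 0 < q ω → lam ≤ |(P (y ω)).coeff d|)
    (he : ∀ ω, 0 < q ω → |(P (y ω)).eval (T ω)| ≤ eps) (R : ℕ) :
    CH q (fun ω => ⌊(2 : ℝ) ^ R * T ω⌋) y ≤
      Real.log (d * (2 * (eps / lam) ^ (1 / (d : ℝ)) * 2 ^ R + 2)) := by
  classical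
  obtain ⟨r, hr⟩ : ∃ r, r = (eps / lam) ^ (1 / (d : ℝ)) := ⟨_, rfl⟩
  have hr0 : 0 ≤ r := by
    rw [hr]
    positivity
  rw [← hr]
  have hex : ∀ v : κ, ∃ Z : Finset ℝ, ((∃ ω, 0 < q ω ∧ y ω = v) → Z.card ≤ d ∧
      ∀ s : ℝ, |(P v).eval s| ≤ eps → ∃ z ∈ Z, |s - z| ≤ r) := by
    intro v
    by_cases hv : ∃ ω, 0 < q ω ∧ y ω = v
    · obtain ⟨ω, hω, rfl⟩ := hv
      obtain ⟨Z, h1, h2⟩ := sub_cover (hd ω hω) hd1 hlam (hc ω hω) heps
      exact ⟨Z, fun _ => ⟨h1, fun s hs => by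
        rw [hr]
        exact h2 s hs⟩⟩
    · exact ⟨∅, fun h => absurd h hv⟩
  choose Z hZ using hex
  obtain ⟨Fv, hFv⟩ : ∃ Fv : κ → Finset ℤ, Fv = fun v => (Z v).biUnion fun z =>
    Finset.Icc ⌊(2 : ℝ) ^ R * (z - r)⌋ ⌊(2 : ℝ) ^ R * (z + r)⌋ := ⟨_, rfl⟩
  have hmem : ∀ ω, 0 < q ω → ⌊(2 : ℝ) ^ R * T ω⌋ ∈ Fv (y ω) := by
    intro ω hω
    obtain ⟨-, h2⟩ := hZ (y ω) ⟨ω, hω, rfl⟩
    obtain ⟨z, hz, h3⟩ := h2 (T ω) (he ω hω)
    rw [abs_le] at h3
    rw [hFv]
    refine Finset.mem_biUnion.2 ⟨z, hz, Finset.mem_Icc.2 ⟨?_, ?_⟩⟩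
    · refine Int.floor_le_floor (mul_le_mul_of_nonneg_left ?_ (by positivity))
      linarith [h3.1]
    · refine Int.floor_le_floor (mul_le_mul_of_nonneg_left ?_ (by positivity))
      linarith [h3.2]
  have hcard : ∀ ω, 0 < q ω → ((Fv (y ω)).card : ℝ) ≤ d * (2 * r * 2 ^ R + 2) := by
    intro ω hω
    obtain ⟨h1, -⟩ := hZ (y ω) ⟨ω, hω, rfl⟩
    rw [hFv]
    have h2 : (((Z (y ω)).biUnion fun z => Finset.Icc ⌊(2 : ℝ) ^ R * (z - r)⌋
        ⌊(2 : ℝ) ^ R * (z + r)⌋).card : ℝ) ≤ ∑ z ∈ Z (y ω), (2 * r * 2 ^ R + 2) := by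
      have h3 : (((Z (y ω)).biUnion fun z => Finset.Icc ⌊(2 : ℝ) ^ R * (z - r)⌋
        ⌊(2 : ℝ) ^ R * (z + r)⌋).card : ℝ) ≤ ∑ z ∈ Z (y ω),
          ((Finset.Icc ⌊(2 : ℝ) ^ R * (z - r)⌋ ⌊(2 : ℝ) ^ R * (z + r)⌋).card : ℝ) := by
        exact_mod_cast Finset.card_biUnion_le
      refine h3.trans (Finset.sum_le_sum fun z _ => ?_)
      rw [Int.card_Icc]
      have h4 : ⌊(2 : ℝ) ^ R * (z - r)⌋ ≤ ⌊(2 : ℝ) ^ R * (z + r)⌋ := by
        refine Int.floor_le_floor (mul_le_mul_of_nonneg_left ?_ (by positivity))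
        linarith
      have h5 : (((⌊(2 : ℝ) ^ R * (z + r)⌋ + 1 - ⌊(2 : ℝ) ^ R * (z - r)⌋).toNat : ℤ) : ℝ) =
          ⌊(2 : ℝ) ^ R * (z + r)⌋ + 1 - ⌊(2 : ℝ) ^ R * (z - r)⌋ := by
        rw [Int.toNat_of_nonneg (by linarith)]
        push_cast
        ring
      have h6 : (((⌊(2 : ℝ) ^ R * (z + r)⌋ + 1 - ⌊(2 : ℝ) ^ R * (z - r)⌋).toNat : ℕ) : ℝ) =
          ⌊(2 : ℝ) ^ R * (z + r)⌋ + 1 - ⌊(2 : ℝ) ^ R * (z - r)⌋ := by
        rw [← h5]
        norm_cast
      rw [h6]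
      have h7 := Int.floor_le ((2 : ℝ) ^ R * (z + r))
      have h8 := Int.lt_floor_add_one ((2 : ℝ) ^ R * (z - r))
      linarith
    refine h2.trans ?_
    rw [Finset.sum_const, nsmul_eq_mul]
    refine mul_le_mul_of_nonneg_right (by exact_mod_cast h1) (by positivity)
  refine (CH_le_card hq.nonneg hq.sum_one _ _ Fv hmem).trans ?_
  have h9 : Ex q (fun ω => Real.log ((Fv (y ω)).card)) ≤
      Ex q (fun _ => Real.log (d * (2 * r * 2 ^ R + 2))) := by
    refine Ex_mono hq.nonneg fun ω hω => ?_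
    refine Real.log_le_log ?_ (hcard ω hω)
    exact_mod_cast Finset.card_pos.2 ⟨_, hmem ω hω⟩
  refine h9.trans (le_of_eq ?_)
  unfold Ex
  rw [← Finset.sum_mul, hq.sum_one, one_mul]

end Pool.NA17
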